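import Pool.Agent.W184.NZ.Size
import Pool.Agent.H306R2.NW
import Pool.Agent.W184.Coef

set_option autoImplicit false

/-! The truncated exponentials as arithmetic functions. -/

namespace Pool.Agent.W184.NZ

open Finset Pool.Agent.H306R2

/-- indicator function of the primes in `I` -/
noncomputable def prA (I : Finset ℕ) : ArithmeticFunction ℝ :=
  ⟨fun n => if n.Prime ∧ n ∈ I then 1 else 0, by simp [Nat.not_prime_zero]⟩

lemma prA_apply (I : Finset ℕ) (n : ℕ) : prA I n = if n.Prime ∧ n ∈ I then 1 else 0 := rfl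

lemma prA_nonneg (I : Finset ℕ) (n : ℕ) : 0 ≤ prA I n := by
  rw [prA_apply]; split_ifs <;> norm_num

lemma af_mul_nonneg {A B : ArithmeticFunction ℝ} (hA : ∀ n, 0 ≤ A n) (hB : ∀ n, 0 ≤ B n) (n : ℕ) :
    0 ≤ (A * B) n := by
  rw [ArithmeticFunction.mul_apply]
  exact sum_nonneg fun x _ => mul_nonneg (hA _) (hB _)

lemma af_one_nonneg (n : ℕ) : 0 ≤ (1 : ArithmeticFunction ℝ) n := by
  rw [ArithmeticFunction.one_apply]; split_ifs <;> norm_num

lemma af_pow_nonneg {A : ArithmeticFunction ℝ} (hA : ∀ n, 0 ≤ A n) (k n : ℕ) : 0 ≤ (A ^ k) n := by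
  induction k generalizing n with
  | zero => rw [pow_zero]; exact af_one_nonneg n
  | succ k ih => rw [pow_succ]; exact af_mul_nonneg ih hA n

lemma pow_succ_apply' (I : Finset ℕ) (m n : ℕ) : (prA I ^ (m + 1)) n =
    ∑ p ∈ n.primeFactors.filter (· ∈ I), (prA I ^ m) (n / p) := by
  rw [pow_succ', ArithmeticFunction.mul_apply,
    Nat.sum_divisorsAntidiagonal (fun i j => prA I i * (prA I ^ m) j),
    Nat.primeFactors_eq_to_filter_divisors_prime, filter_filter, sum_filter]
  refine sum_congr rfl fun i _ => ?_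
  rw [prA_apply]
  split_ifs <;> simp

lemma dv_div {b : ℝ} {n p : ℕ} (hp : p.Prime) (hn : n ≠ 0) (h : p ∣ n) :
    (b + (n.factorization p : ℝ) - 1) * dv b (n / p) = (n.factorization p : ℝ) * dv b n := by
  obtain ⟨j, m, hm, hnm⟩ := Nat.exists_eq_pow_mul_and_not_dvd hn p hp.ne_one
  have hj : j ≠ 0 := by
    rintro rfl
    rw [pow_zero, one_mul] at hnm
    exact hm (hnm ▸ h)
  obtain ⟨k, rfl⟩ : ∃ k, j = k + 1 := ⟨j - 1, by omega⟩
  have hm0 : m ≠ 0 := by rintro rfl; simp at hm
  have hc : Nat.Coprime p m := (Nat.Prime.coprime_iff_not_dvd hp).mpr hm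
  have hf : n.factorization p = k + 1 := by
    rw [hnm, Nat.factorization_mul (pow_ne_zero _ hp.ne_zero) hm0, Finsupp.add_apply,
      hp.factorization_pow, Finsupp.single_eq_same, Nat.factorization_eq_zero_of_not_dvd hm, add_zero]
  have h1 : n / p = p ^ k * m := by
    rw [hnm, pow_succ, mul_assoc, mul_comm p m, ← mul_assoc]
    exact Nat.mul_div_cancel _ hp.pos
  have e1 : dv b n = lc b (k + 1) * dv b m := by
    rw [hnm, ← dA_apply, (dA_mult b).map_mul_of_coprime (hc.pow_left _), dA_apply, dA_apply, dv_prime_pow b hp]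
  have e2 : dv b (n / p) = lc b k * dv b m := by
    rw [h1, ← dA_apply, (dA_mult b).map_mul_of_coprime (hc.pow_left _), dA_apply, dA_apply, dv_prime_pow b hp]
  rw [e1, e2, hf]
  have h2 := lc_succ' b k
  push_cast
  linear_combination (-(dv b m)) * h2

lemma dv_div_le {b : ℝ} (hb : 0 ≤ b) {n p : ℕ} (hp : p.Prime) (hn : n ≠ 0) (h : p ∣ n) :
    b * dv b (n / p) ≤ (n.factorization p : ℝ) * dv b n := by
  rw [← dv_div hp hn h]
  have h1 : 1 ≤ n.factorization p := (Nat.Prime.factorization_pos_of_dvd hp hn h)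
  have h2 : (1:ℝ) ≤ n.factorization p := by exact_mod_cast h1
  exact mul_le_mul_of_nonneg_right (by linarith) (dv_nonneg hb _)

lemma Om_sum {n : ℕ} : ((ArithmeticFunction.cardFactors n : ℕ) : ℝ) = ∑ p ∈ n.primeFactors, (n.factorization p : ℝ) := by
  rw [ArithmeticFunction.cardFactors_eq_sum_factorization, Finsupp.sum]
  push_cast
  rfl

lemma Om_div {n p : ℕ} (hp : p.Prime) (hn : n ≠ 0) (h : p ∣ n) {m : ℕ}
    (hO : ArithmeticFunction.cardFactors n = m + 1) : ArithmeticFunction.cardFactors (n / p) = m := by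
  obtain ⟨k, rfl⟩ := h
  have hk : k ≠ 0 := by rintro rfl; simp at hn
  rw [ArithmeticFunction.cardFactors_mul hp.ne_zero hk, ArithmeticFunction.cardFactors_apply_prime hp] at hO
  rw [Nat.mul_div_cancel_left k hp.pos]
  omega

lemma pr_pow_supp (I : Finset ℕ) (m : ℕ) : ∀ n : ℕ, (prA I ^ m) n ≠ 0 →
    n ≠ 0 ∧ ArithmeticFunction.cardFactors n = m ∧ ∀ p, p.Prime → p ∣ n → p ∈ I := by
  induction m with
  | zero =>
    intro n hn
    rw [pow_zero, ArithmeticFunction.one_apply] at hn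
    split_ifs at hn with h
    · subst h
      refine ⟨one_ne_zero, by simp, fun p hp hd => ?_⟩
      exact absurd (Nat.dvd_one.mp hd) hp.ne_one
    · exact absurd rfl hn
  | succ m ih =>
    intro n hn
    rw [pow_succ_apply'] at hn
    obtain ⟨p, hp, hp2⟩ := exists_ne_zero_of_sum_ne_zero hn
    rw [mem_filter, Nat.mem_primeFactors] at hp
    obtain ⟨⟨h1, h2, h3⟩, h4⟩ := hp
    obtain ⟨i1, i2, i3⟩ := ih _ hp2
    refine ⟨h3, ?_, fun q hq hd => ?_⟩
    · obtain ⟨k, rfl⟩ := h2
      rw [Nat.mul_div_cancel_left k h1.pos] at i1 i2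
      rw [ArithmeticFunction.cardFactors_mul h1.ne_zero i1, ArithmeticFunction.cardFactors_apply_prime h1, i2]
      omega
    · obtain ⟨k, rfl⟩ := h2
      rw [Nat.mul_div_cancel_left k h1.pos] at i3
      rcases (Nat.Prime.dvd_mul hq).mp hd with h5 | h5
      · rw [(Nat.prime_dvd_prime_iff_eq hq h1).mp h5]; exact h4
      · exact i3 q hq h5

lemma pr_pow_le (I : Finset ℕ) {b : ℝ} (hb : 0 ≤ b) (m : ℕ) : ∀ n : ℕ,
    b ^ m / (m.factorial : ℝ) * (prA I ^ m) n ≤ dv b n := by
  induction m with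
  | zero =>
    intro n
    rw [pow_zero, pow_zero, Nat.factorial_zero, Nat.cast_one, div_one, one_mul, ArithmeticFunction.one_apply]
    split_ifs with h
    · rw [h, dv_one]
    · exact dv_nonneg hb n
  | succ m ih =>
    intro n
    by_cases h0 : (prA I ^ (m + 1)) n = 0
    · rw [h0, mul_zero]; exact dv_nonneg hb n
    obtain ⟨h1, h2, h3⟩ := pr_pow_supp I (m + 1) n h0
    rw [pow_succ_apply']
    have e1 : b ^ (m + 1) / ((m + 1).factorial : ℝ) *
        ∑ p ∈ n.primeFactors.filter (· ∈ I), (prA I ^ m) (n / p) =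
        (1 / ((m:ℝ) + 1)) * ∑ p ∈ n.primeFactors.filter (· ∈ I),
          b * (b ^ m / (m.factorial : ℝ) * (prA I ^ m) (n / p)) := by
      rw [← mul_sum, ← mul_sum, Nat.factorial_succ]
      push_cast
      have : (m.factorial : ℝ) ≠ 0 := by positivity
      field_simp
      ring
    rw [e1]
    have e2 : ∑ p ∈ n.primeFactors.filter (· ∈ I), b * (b ^ m / (m.factorial : ℝ) * (prA I ^ m) (n / p)) ≤
        ∑ p ∈ n.primeFactors, (n.factorization p : ℝ) * dv b n := by
      refine (sum_le_sum (g := fun p => (n.factorization p : ℝ) * dv b n) fun p hp => ?_).trans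
        (sum_le_sum_of_subset_of_nonneg (filter_subset _ _) fun p _ _ => ?_)
      · rw [mem_filter, Nat.mem_primeFactors] at hp
        refine le_trans (mul_le_mul_of_nonneg_left (ih _) hb) ?_
        exact dv_div_le hb hp.1.1 h1 hp.1.2.1
      · exact mul_nonneg (Nat.cast_nonneg _) (dv_nonneg hb n)
    rw [← sum_mul, ← Om_sum, h2] at e2
    have hm : (0:ℝ) < (m:ℝ) + 1 := by positivity
    rw [one_div, inv_mul_le_iff₀ hm]
    push_cast at e2
    exact e2

lemma pr_pow_ge (I : Finset ℕ) {b : ℝ} (hb : 0 ≤ b) (m : ℕ) : ∀ n : ℕ, Squarefree n →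
    ArithmeticFunction.cardFactors n = m → (∀ p, p.Prime → p ∣ n → p ∈ I) →
    dv b n ≤ b ^ m / (m.factorial : ℝ) * (prA I ^ m) n := by
  induction m with
  | zero =>
    intro n hs hO _
    have h1 : n = 1 := by
      rcases ArithmeticFunction.cardFactors_eq_zero_iff_eq_zero_or_one.mp hO with h | h
      · exact absurd h hs.ne_zero
      · exact h
    subst h1
    simp [dv_one]
  | succ m ih =>
    intro n hs hO hI
    have hn := hs.ne_zero
    rw [pow_succ_apply']
    have e0 : n.primeFactors.filter (· ∈ I) = n.primeFactors := by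
      rw [filter_eq_self]
      intro p hp
      rw [Nat.mem_primeFactors] at hp
      exact hI p hp.1 hp.2.1
    rw [e0]
    have e1 : b ^ (m + 1) / ((m + 1).factorial : ℝ) * ∑ p ∈ n.primeFactors, (prA I ^ m) (n / p) =
        (1 / ((m:ℝ) + 1)) * ∑ p ∈ n.primeFactors, b * (b ^ m / (m.factorial : ℝ) * (prA I ^ m) (n / p)) := by
      rw [← mul_sum, ← mul_sum, Nat.factorial_succ]
      push_cast
      have : (m.factorial : ℝ) ≠ 0 := by positivity
      field_simp
      ring
    rw [e1]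
    have e2 : ∑ p ∈ n.primeFactors, (n.factorization p : ℝ) * dv b n ≤
        ∑ p ∈ n.primeFactors, b * (b ^ m / (m.factorial : ℝ) * (prA I ^ m) (n / p)) := by
      refine sum_le_sum fun p hp => ?_
      rw [Nat.mem_primeFactors] at hp
      have h1 : n.factorization p = 1 := by
        have h2 := (Nat.squarefree_iff_factorization_le_one hn).mp hs p
        have h3 := Nat.Prime.factorization_pos_of_dvd hp.1 hn hp.2.1
        omega
      have h4 := dv_div (b := b) hp.1 hn hp.2.1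
      have h5 := ih (n / p) (hs.squarefree_of_dvd (Nat.div_dvd_of_dvd hp.2.1)) (Om_div hp.1 hn hp.2.1 hO)
        (fun q hq hd => hI q hq (hd.trans (Nat.div_dvd_of_dvd hp.2.1)))
      rw [← h4, h1]
      push_cast
      rw [show b + 1 - 1 = b by ring]
      exact mul_le_mul_of_nonneg_left h5 hb
    rw [← sum_mul, ← Om_sum, hO] at e2
    have hm : (0:ℝ) < (m:ℝ) + 1 := by positivity
    rw [one_div, ← div_eq_inv_mul, le_div_iff₀ hm, mul_comm]
    push_cast at e2
    exact e2

/-- one factor -/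
noncomputable def EA (K : ℕ) (b : ℝ) (I : Finset ℕ) : ArithmeticFunction ℝ := NK K b (prA I)

lemma EA_apply (K : ℕ) (b : ℝ) (I : Finset ℕ) (n : ℕ) :
    EA K b I n = ∑ k ∈ range (K + 1), b ^ k / (k.factorial : ℝ) * (prA I ^ k) n := by
  unfold EA NK
  have : ∀ (s : Finset ℕ) (f : ℕ → ArithmeticFunction ℝ), (∑ k ∈ s, f k) n = ∑ k ∈ s, f k n := by
    intro s f
    induction s using Finset.induction_on with
    | empty => simp
    | insert a s ha ih => rw [sum_insert ha, sum_insert ha, ArithmeticFunction.add_apply, ih]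
  rw [this]
  refine sum_congr rfl fun k _ => ?_
  rfl

lemma EA_nonneg {K : ℕ} {b : ℝ} (hb : 0 ≤ b) (I : Finset ℕ) (n : ℕ) : 0 ≤ EA K b I n := by
  rw [EA_apply]
  exact sum_nonneg fun k _ => mul_nonneg (by positivity) (af_pow_nonneg (prA_nonneg I) k n)

lemma EA_supp {K : ℕ} {b : ℝ} (I : Finset ℕ) {n : ℕ} (h : EA K b I n ≠ 0) :
    n ≠ 0 ∧ ∀ p, p.Prime → p ∣ n → p ∈ I := by
  rw [EA_apply] at h
  obtain ⟨k, _, hk⟩ := exists_ne_zero_of_sum_ne_zero h
  obtain ⟨h1, h2, h3⟩ := pr_pow_supp I k n (right_ne_zero_of_mul hk)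
  exact ⟨h1, h3⟩

lemma EA_le {K : ℕ} {b : ℝ} (hb : 0 ≤ b) (I : Finset ℕ) (n : ℕ) : EA K b I n ≤ dv b n := by
  rw [EA_apply]
  by_cases h : ∃ k ∈ range (K + 1), (prA I ^ k) n ≠ 0
  · obtain ⟨k, hk, hk2⟩ := h
    obtain ⟨-, h2, -⟩ := pr_pow_supp I k n hk2
    rw [sum_eq_single k]
    · exact pr_pow_le I hb k n
    · intro j _ hj
      have : (prA I ^ j) n = 0 := by
        by_contra hc
        obtain ⟨-, h3, -⟩ := pr_pow_supp I j n hc
        omega
      rw [this, mul_zero]
    · intro hc; exact absurd hk hc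
  · push Not at h
    rw [sum_eq_zero fun k hk => by rw [h k hk, mul_zero]]
    exact dv_nonneg hb n

lemma EA_ge {K : ℕ} {b : ℝ} (hb : 0 ≤ b) (I : Finset ℕ) {n : ℕ} (hs : Squarefree n)
    (hK : ArithmeticFunction.cardFactors n ≤ K) (hI : ∀ p, p.Prime → p ∣ n → p ∈ I) :
    dv b n ≤ EA K b I n := by
  rw [EA_apply]
  refine (pr_pow_ge I hb _ n hs rfl hI).trans ?_
  have hmem : ArithmeticFunction.cardFactors n ∈ range (K + 1) := mem_range.mpr (by omega)
  exact single_le_sum (f := fun k => b ^ k / (k.factorial : ℝ) * (prA I ^ k) n)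
    (fun k _ => mul_nonneg (by positivity) (af_pow_nonneg (prA_nonneg I) k n)) hmem

end Pool.Agent.W184.NZ
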