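import Pool.Agent.W184.NZ.AF

set_option autoImplicit false

/-! Products of the truncated exponentials as arithmetic functions. -/

namespace Pool.Agent.W184.NZ

open Finset Pool.Agent.H306R2

/-- nonnegative, at most `d_b`, supported on numbers with primes in `S` -/
structure Sup (b : ℝ) (S : Finset ℕ) (A : ArithmeticFunction ℝ) : Prop where
  nn : ∀ n, 0 ≤ A n
  le : ∀ n, A n ≤ dv b n
  sp : ∀ n, A n ≠ 0 → n ≠ 0 ∧ ∀ p, p.Prime → p ∣ n → p ∈ S

lemma Sup.mul {b : ℝ} (hb : 0 ≤ b) {S T : Finset ℕ} (hST : Disjoint S T) {A B : ArithmeticFunction ℝ}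
    (hA : Sup b S A) (hB : Sup b T B) : Sup b (S ∪ T) (A * B) := by
  have hcop : ∀ d e : ℕ, A d ≠ 0 → B e ≠ 0 → Nat.Coprime d e := by
    intro d e hd he
    refine Nat.coprime_of_dvd fun p hp h1 h2 => ?_
    exact Finset.disjoint_left.mp hST ((hA.sp d hd).2 p hp h1) ((hB.sp e he).2 p hp h2)
  refine ⟨fun n => af_mul_nonneg hA.nn hB.nn n, fun n => ?_, fun n hn => ?_⟩
  · by_cases h : ∃ x ∈ n.divisorsAntidiagonal, A x.1 * B x.2 ≠ 0
    · obtain ⟨x, hx, hx2⟩ := h
      have hx3 := Nat.mem_divisorsAntidiagonal.mp hx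
      have a1 : A x.1 ≠ 0 := left_ne_zero_of_mul hx2
      have b1 : B x.2 ≠ 0 := right_ne_zero_of_mul hx2
      rw [ArithmeticFunction.mul_apply, sum_eq_single x]
      · calc A x.1 * B x.2 ≤ dv b x.1 * dv b x.2 :=
              mul_le_mul (hA.le _) (hB.le _) (hB.nn _) (dv_nonneg hb _)
          _ = dv b n := by
              rw [← hx3.1, ← dA_apply b (x.1 * x.2), (dA_mult b).map_mul_of_coprime (hcop _ _ a1 b1)]
              rfl
      · intro y hy hyx
        by_contra hc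
        have hy3 := Nat.mem_divisorsAntidiagonal.mp hy
        have a2 : A y.1 ≠ 0 := left_ne_zero_of_mul hc
        have b2 : B y.2 ≠ 0 := right_ne_zero_of_mul hc
        have c1 : x.1 ∣ y.1 := by
          have h4 : x.1 ∣ y.1 * y.2 := ⟨x.2, by rw [hy3.1, hx3.1]⟩
          exact (hcop _ _ a1 b2).dvd_of_dvd_mul_right h4
        have c2 : y.1 ∣ x.1 := by
          have h4 : y.1 ∣ x.1 * x.2 := ⟨y.2, by rw [hy3.1, hx3.1]⟩
          exact (hcop _ _ a2 b1).dvd_of_dvd_mul_right h4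
        have c3 : y.1 = x.1 := Nat.dvd_antisymm c2 c1
        have c4 : y.2 = x.2 := by
          have h5 := hy3.1.trans hx3.1.symm
          rw [c3] at h5
          exact Nat.eq_of_mul_eq_mul_left (Nat.pos_of_ne_zero (hA.sp _ a1).1) h5
        exact hyx (Prod.ext c3 c4)
      · intro hc; exact absurd hx hc
    · push Not at h
      rw [ArithmeticFunction.mul_apply, sum_eq_zero h]
      exact dv_nonneg hb n
  · rw [ArithmeticFunction.mul_apply] at hn
    obtain ⟨x, hx, hx2⟩ := exists_ne_zero_of_sum_ne_zero hn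
    have hx3 := Nat.mem_divisorsAntidiagonal.mp hx
    refine ⟨hx3.2, fun p hp hd => ?_⟩
    rw [← hx3.1] at hd
    rw [mem_union]
    rcases (Nat.Prime.dvd_mul hp).mp hd with h | h
    · exact Or.inl ((hA.sp _ (left_ne_zero_of_mul hx2)).2 p hp h)
    · exact Or.inr ((hB.sp _ (right_ne_zero_of_mul hx2)).2 p hp h)

lemma EA_Sup {K : ℕ} {b : ℝ} (hb : 0 ≤ b) (I : Finset ℕ) : Sup b I (EA K b I) :=
  ⟨EA_nonneg hb I, EA_le hb I, fun _ h => EA_supp I h⟩

/-- the product -/
noncomputable def WA (J : ℕ) (K : ℕ → ℕ) (b : ℝ) (I : ℕ → Finset ℕ) : ArithmeticFunction ℝ :=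
  ∏ i ∈ range J, EA (K i) b (I i)

lemma WA_Sup (J : ℕ) (K : ℕ → ℕ) {b : ℝ} (hb : 0 ≤ b) {I : ℕ → Finset ℕ}
    (hd : ∀ i j, i < j → Disjoint (I i) (I j)) : Sup b ((range J).biUnion I) (WA J K b I) := by
  unfold WA
  induction J with
  | zero =>
    rw [range_zero, prod_empty, biUnion_empty]
    refine ⟨af_one_nonneg, fun n => ?_, fun n hn => ?_⟩
    · rw [ArithmeticFunction.one_apply]
      split_ifs with h
      · rw [h, dv_one]
      · exact dv_nonneg hb n
    · rw [ArithmeticFunction.one_apply] at hn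
      split_ifs at hn with h
      · subst h
        exact ⟨one_ne_zero, fun p hp hd => absurd (Nat.dvd_one.mp hd) hp.ne_one⟩
      · exact absurd rfl hn
  | succ J ih =>
    have hdj : Disjoint ((range J).biUnion I) (I J) := by
      rw [disjoint_biUnion_left]
      intro i hi
      exact hd i J (mem_range.mp hi)
    rw [prod_range_succ]
    have e : (range (J + 1)).biUnion I = (range J).biUnion I ∪ I J := by
      rw [range_add_one, biUnion_insert, union_comm]
    rw [e]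
    exact Sup.mul hb hdj ih (EA_Sup hb (I J))

lemma mul_ge {A B : ArithmeticFunction ℝ} (hA : ∀ n, 0 ≤ A n) (hB : ∀ n, 0 ≤ B n) {m n : ℕ}
    (hm : m ≠ 0) (hn : n ≠ 0) : A m * B n ≤ (A * B) (m * n) := by
  rw [ArithmeticFunction.mul_apply]
  have hmem : ((m, n) : ℕ × ℕ) ∈ (m * n).divisorsAntidiagonal :=
    Nat.mem_divisorsAntidiagonal.mpr ⟨rfl, mul_ne_zero hm hn⟩
  exact single_le_sum (f := fun x : ℕ × ℕ => A x.1 * B x.2)
    (fun x _ => mul_nonneg (hA _) (hB _)) hmem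

lemma prod_ne_zero' {S : Finset ℕ} (hS : ∀ p ∈ S, p.Prime) : ∏ p ∈ S, p ≠ 0 :=
  prod_ne_zero_iff.mpr fun p hp => (hS p hp).ne_zero

lemma prod_dvd {S : Finset ℕ} (hS : ∀ p ∈ S, p.Prime) {q : ℕ} (hq : q.Prime) (h : q ∣ ∏ p ∈ S, p) : q ∈ S := by
  have h1 : q ∈ (∏ p ∈ S, p).primeFactors := Nat.mem_primeFactors.mpr ⟨hq, h, prod_ne_zero' hS⟩
  rwa [Nat.primeFactors_prod hS] at h1

lemma prod_coprime {S T : Finset ℕ} (hS : ∀ p ∈ S, p.Prime) (hT : ∀ p ∈ T, p.Prime) (h : Disjoint S T) :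
    Nat.Coprime (∏ p ∈ S, p) (∏ p ∈ T, p) := by
  refine Nat.coprime_of_dvd fun p hp h1 h2 => ?_
  exact Finset.disjoint_left.mp h (prod_dvd hS hp h1) (prod_dvd hT hp h2)

lemma dv_prod (b : ℝ) {S : Finset ℕ} (hS : ∀ p ∈ S, p.Prime) : dv b (∏ p ∈ S, p) = b ^ S.card := by
  induction S using Finset.induction_on with
  | empty => simp [dv_one]
  | insert q S hq ih =>
    have hq1 : q.Prime := hS q (mem_insert_self _ _)
    have hS' : ∀ p ∈ S, p.Prime := fun p hp => hS p (mem_insert_of_mem hp)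
    rw [prod_insert hq, card_insert_of_notMem hq, pow_succ, ← ih hS', ← dA_apply b (q * _),
      (dA_mult b).map_mul_of_coprime, dA_apply, dA_apply, mul_comm]
    · congr 1
      have := dv_prime_pow b hq1 1
      rwa [pow_one, lc_one] at this
    · exact (Nat.Prime.coprime_iff_not_dvd hq1).mpr fun h => hq (prod_dvd hS' hq1 h)

lemma Om_prod {S : Finset ℕ} (hS : ∀ p ∈ S, p.Prime) :
    ArithmeticFunction.cardFactors (∏ p ∈ S, p) = S.card := by
  induction S using Finset.induction_on with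
  | empty => simp
  | insert q S hq ih =>
    have hq1 : q.Prime := hS q (mem_insert_self _ _)
    have hS' : ∀ p ∈ S, p.Prime := fun p hp => hS p (mem_insert_of_mem hp)
    rw [prod_insert hq, card_insert_of_notMem hq, ArithmeticFunction.cardFactors_mul hq1.ne_zero
      (prod_ne_zero' hS'), ArithmeticFunction.cardFactors_apply_prime hq1, ih hS']
    omega

lemma prod_sqf {S : Finset ℕ} (hS : ∀ p ∈ S, p.Prime) : Squarefree (∏ p ∈ S, p) := by
  rw [← ArithmeticFunction.cardDistinctFactors_eq_cardFactors_iff_squarefree (prod_ne_zero' hS), Om_prod hS,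
    ArithmeticFunction.cardDistinctFactors_apply, ← List.card_toFinset, Nat.toFinset_factors,
    Nat.primeFactors_prod hS]

lemma WA_ge (J : ℕ) (K : ℕ → ℕ) {b : ℝ} (hb : 0 ≤ b) {I : ℕ → Finset ℕ} (hI : ∀ i, ∀ p ∈ I i, p.Prime)
    (hd : ∀ i j, i < j → Disjoint (I i) (I j)) : ∀ S : Finset ℕ, S ⊆ (range J).biUnion I →
    (∀ i < J, (S ∩ I i).card ≤ K i) → dv b (∏ p ∈ S, p) ≤ WA J K b I (∏ p ∈ S, p) := by
  induction J with
  | zero =>
    intro S hS _
    rw [range_zero, biUnion_empty, subset_empty] at hS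
    subst hS
    unfold WA
    simp [dv_one]
  | succ J ih =>
    intro S hS hK
    have hSp : ∀ p ∈ S, p.Prime := by
      intro p hp
      obtain ⟨i, -, hi⟩ := mem_biUnion.mp (hS hp)
      exact hI i p hi
    have e1 : S = (S \ I J) ∪ (S ∩ I J) := (sdiff_union_inter S (I J)).symm
    have hdj : Disjoint (S \ I J) (S ∩ I J) := disjoint_sdiff_inter S (I J)
    have p1 : ∀ p ∈ S \ I J, p.Prime := fun p hp => hSp p (Finset.mem_sdiff.mp hp).1
    have p2 : ∀ p ∈ S ∩ I J, p.Prime := fun p hp => hSp p (mem_inter.mp hp).1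
    have e2 : ∏ p ∈ S, p = (∏ p ∈ S \ I J, p) * ∏ p ∈ S ∩ I J, p := by
      conv_lhs => rw [e1]
      exact prod_union hdj
    have hcop := prod_coprime p1 p2 hdj
    have i1 := ih (S \ I J) (by
      intro p hp
      rw [Finset.mem_sdiff] at hp
      obtain ⟨i, hi, hi2⟩ := mem_biUnion.mp (hS hp.1)
      rw [mem_range] at hi
      refine mem_biUnion.mpr ⟨i, mem_range.mpr ?_, hi2⟩
      rcases Nat.lt_succ_iff_lt_or_eq.mp hi with h | h
      · exact h
      · subst h; exact absurd hi2 hp.2) (fun i hi => by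
      refine le_trans (card_le_card ?_) (hK i (by omega))
      exact inter_subset_inter_right sdiff_subset)
    have i2 : dv b (∏ p ∈ S ∩ I J, p) ≤ EA (K J) b (I J) (∏ p ∈ S ∩ I J, p) := by
      refine EA_ge hb (I J) (prod_sqf p2) ?_ ?_
      · rw [Om_prod p2]; exact hK J (by omega)
      · intro p hp hpd
        exact (mem_inter.mp (prod_dvd p2 hp hpd)).2
    rw [e2, ← dA_apply b, (dA_mult b).map_mul_of_coprime hcop, dA_apply, dA_apply]
    have hW := WA_Sup J K hb hd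
    have h3 := mul_ge hW.nn (EA_nonneg (K := K J) hb (I J)) (prod_ne_zero' p1) (prod_ne_zero' p2)
    have h4 : WA (J + 1) K b I = WA J K b I * EA (K J) b (I J) := by
      unfold WA; rw [prod_range_succ]
    rw [h4]
    refine le_trans ?_ h3
    exact mul_le_mul i1 i2 (dv_nonneg hb _) (hW.nn _)

/-- the coefficients of the whole polynomial -/
noncomputable def cA (a : ℝ) (N : ℕ) (J : ℕ) (K : ℕ → ℕ) (b : ℝ) (I : ℕ → Finset ℕ) : ArithmeticFunction ℝ :=
  tr (dA a) (N : ℝ) * WA J K b I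

section
variable {a b : ℝ} {N J : ℕ} {K : ℕ → ℕ} {I : ℕ → Finset ℕ}

lemma cA_nonneg (ha : 0 ≤ a) (hb : 0 ≤ b) (hd : ∀ i j, i < j → Disjoint (I i) (I j)) (n : ℕ) :
    0 ≤ cA a N J K b I n :=
  af_mul_nonneg (tr_nonneg (fun m => dv_nonneg ha m) _) (WA_Sup J K hb hd).nn n

lemma cA_le (ha : 0 ≤ a) (hb : 0 ≤ b) (hd : ∀ i j, i < j → Disjoint (I i) (I j)) (n : ℕ) :
    cA a N J K b I n ≤ dv (a + b) n := by
  unfold cA
  rw [← dA_apply (a + b), ← dA_mul, ArithmeticFunction.mul_apply, ArithmeticFunction.mul_apply]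
  refine sum_le_sum fun x _ => ?_
  exact mul_le_mul (tr_le (fun m => dv_nonneg ha m) _ _) ((WA_Sup J K hb hd).le _)
    ((WA_Sup J K hb hd).nn _) (dv_nonneg ha _)

lemma cA_ge (ha : 0 ≤ a) (hb : 0 ≤ b) (hI : ∀ i, ∀ p ∈ I i, p.Prime)
    (hd : ∀ i j, i < j → Disjoint (I i) (I j)) {S : Finset ℕ} (hS : S ⊆ (range J).biUnion I)
    (hK : ∀ i < J, (S ∩ I i).card ≤ K i) (hN : ∏ p ∈ S, p ≤ N) :
    (a + b) ^ S.card ≤ cA a N J K b I (∏ p ∈ S, p) := by
  have hSp : ∀ p ∈ S, p.Prime := by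
    intro p hp
    obtain ⟨i, -, hi⟩ := mem_biUnion.mp (hS hp)
    exact hI i p hi
  have h0 := prod_ne_zero' hSp
  rw [← dv_prod (a + b) hSp]
  unfold cA
  rw [← dA_apply (a + b), ← dA_mul, ArithmeticFunction.mul_apply, ArithmeticFunction.mul_apply]
  refine sum_le_sum fun x hx => ?_
  rw [Nat.mem_divisorsAntidiagonal] at hx
  have h1 : x.1 ∣ ∏ p ∈ S, p := ⟨x.2, hx.1.symm⟩
  have h2 : x.2 ∣ ∏ p ∈ S, p := ⟨x.1, by rw [← hx.1, mul_comm]⟩
  have h3 : x.1 ≤ N := (Nat.le_of_dvd (Nat.pos_of_ne_zero h0) h1).trans hN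
  rw [tr_apply, if_pos (by exact_mod_cast h3)]
  refine mul_le_mul_of_nonneg_left ?_ (dv_nonneg ha _)
  have h4 : Squarefree x.2 := (prod_sqf hSp).squarefree_of_dvd h2
  have h5 : ∏ p ∈ x.2.primeFactors, p = x.2 := Nat.prod_primeFactors_of_squarefree h4
  have h6 : x.2.primeFactors ⊆ S := by
    intro p hp
    rw [Nat.mem_primeFactors] at hp
    exact prod_dvd hSp hp.1 (hp.2.1.trans h2)
  have h7 := WA_ge J K hb hI hd x.2.primeFactors (h6.trans hS) (fun i hi =>
    (card_le_card (inter_subset_inter_right h6)).trans (hK i hi))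
  rw [h5] at h7
  exact h7

end

end Pool.Agent.W184.NZ
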