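import Pool.Agent.W184.NZ.AF2

set_option autoImplicit false

/-! Evaluation of the Dirichlet polynomials. -/

namespace Pool.Agent.W184.NZ

open Finset Pool.Agent.H306R2 MeasureTheory

lemma af_sum_apply {ι : Type*} (s : Finset ι) (f : ι → ArithmeticFunction ℝ) (n : ℕ) :
    (∑ k ∈ s, f k) n = ∑ k ∈ s, f k n := by
  classical
  induction s using Finset.induction_on with
  | empty => simp
  | insert a s ha ih => rw [sum_insert ha, sum_insert ha, ArithmeticFunction.add_apply, ih]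

lemma NK_apply (K : ℕ) (a : ℝ) (A : ArithmeticFunction ℝ) (n : ℕ) :
    (NK K a A) n = ∑ k ∈ range (K + 1), a ^ k / (k.factorial : ℝ) * (A ^ k) n := by
  unfold NK
  rw [af_sum_apply]
  rfl

lemma Dp_NK (K : ℕ) (a : ℝ) (A : ArithmeticFunction ℝ) {X : ℝ} (hX1 : 1 ≤ X)
    (hX : ∀ n : ℕ, X < n → A n = 0) (s : ℂ) :
    (∀ n : ℕ, X ^ K < n → (NK K a A) n = 0) ∧
      Dp (NK K a A : ArithmeticFunction ℝ) (X ^ K) s = NK K a (Dp A X s) := by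
  constructor
  · intro n hn
    rw [NK_apply]
    refine sum_eq_zero fun k hk => ?_
    rw [mem_range] at hk
    have h1 : X ^ k ≤ X ^ K := pow_le_pow_right₀ hX1 (by omega)
    rw [(Dp_pow A X hX1 hX s k).1 n (lt_of_le_of_lt h1 hn), mul_zero]
  · have h1 : Dp (NK K a A : ArithmeticFunction ℝ) (X ^ K) s =
        ∑ k ∈ range (K + 1), ((a ^ k / (k.factorial : ℝ) : ℝ) : ℂ) * Dp (A ^ k : ArithmeticFunction ℝ) (X ^ K) s := by
      unfold Dp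
      simp_rw [mul_sum]
      rw [sum_comm]
      refine sum_congr rfl fun m _ => ?_
      rw [NK_apply]
      push_cast
      rw [sum_mul]
      refine sum_congr rfl fun k _ => ?_
      ring
    rw [h1]
    unfold NK
    refine sum_congr rfl fun k hk => ?_
    rw [mem_range] at hk
    have h2 : X ^ k ≤ X ^ K := pow_le_pow_right₀ hX1 (by omega)
    rw [Dp_mono _ _ _ h2 (Dp_pow A X hX1 hX s k).1, (Dp_pow A X hX1 hX s k).2, Complex.real_smul]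

lemma prA_supp {I : Finset ℕ} {X : ℝ} (hI : ∀ p ∈ I, (p:ℝ) ≤ X) (n : ℕ) (hn : X < n) : prA I n = 0 := by
  rw [prA_apply, if_neg]
  rintro ⟨_, h⟩
  linarith [hI n h]

lemma Dp_prA {I : Finset ℕ} {X : ℝ} (hX : 0 ≤ X) (hI : ∀ p ∈ I, p.Prime ∧ (p:ℝ) ≤ X) (s : ℂ) :
    Dp (prA I) X s = PI I s := by
  unfold Dp PI
  have hsub : I ⊆ Icc 1 ⌊X⌋₊ := by
    intro p hp
    rw [mem_Icc, Nat.le_floor_iff hX]
    exact ⟨(hI p hp).1.one_lt.le, (hI p hp).2⟩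
  rw [← sum_subset hsub]
  · refine sum_congr rfl fun p hp => ?_
    rw [prA_apply, if_pos ⟨(hI p hp).1, hp⟩]
    simp
  · intro p _ hp
    rw [prA_apply, if_neg (fun h => hp h.2)]
    simp

/-- the polynomial as a function -/
noncomputable def Wf (J : ℕ) (K : ℕ → ℕ) (b : ℝ) (I : ℕ → Finset ℕ) (s : ℂ) : ℂ :=
  ∏ i ∈ range J, NK (K i) b (PI (I i) s)

section
variable {J : ℕ} {K : ℕ → ℕ} {b : ℝ} {I : ℕ → Finset ℕ} {bd : ℕ → ℝ}

lemma Dp_WA (hb1 : ∀ i, 1 ≤ bd i) (hI : ∀ i, ∀ p ∈ I i, p.Prime ∧ (p:ℝ) ≤ bd i) (s : ℂ) :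
    (∀ n : ℕ, ∏ i ∈ range J, bd i ^ K i < n → WA J K b I n = 0) ∧
      Dp (WA J K b I) (∏ i ∈ range J, bd i ^ K i) s = Wf J K b I s := by
  have h0 : ∀ i, ∀ n : ℕ, bd i < n → prA (I i) n = 0 := fun i n hn => prA_supp (fun p hp => (hI i p hp).2) n hn
  have h1 := fun i => Dp_NK (K i) b (prA (I i)) (hb1 i) (h0 i) s
  have h2 := Dp_prod (range J) (fun i => EA (K i) b (I i)) (fun i => bd i ^ K i)
    (fun i => one_le_pow₀ (hb1 i)) (fun i n hn => (h1 i).1 n hn) s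
  refine ⟨h2.1, ?_⟩
  unfold WA Wf
  rw [h2.2]
  refine prod_congr rfl fun i _ => ?_
  unfold EA
  rw [(h1 i).2, Dp_prA (by linarith [hb1 i]) (hI i)]

lemma DS_cA (hb1 : ∀ i, 1 ≤ bd i) (hI : ∀ i, ∀ p ∈ I i, p.Prime ∧ (p:ℝ) ≤ bd i) (a : ℝ) {N : ℕ} (s : ℂ) :
    DS (cA a N J K b I) ⌊(N:ℝ) * ∏ i ∈ range J, bd i ^ K i⌋₊ s = DS (dv a) N s * Wf J K b I s := by
  have h1 := Dp_WA (J := J) (K := K) (b := b) hb1 hI s
  have h2 := Dp_mul (tr (dA a) (N:ℝ)) (WA J K b I) (N:ℝ) (∏ i ∈ range J, bd i ^ K i) (Nat.cast_nonneg N)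
    (prod_nonneg fun i _ => pow_nonneg (by linarith [hb1 i]) _) (fun n hn => tr_supp _ _ _ hn) h1.1 s
  rw [h1.2, Dp_trunc] at h2
  rw [DS_eq_Dp (dv a)]
  have h3 : Dp (dA a) (N:ℝ) s = Dp (dv a) (N:ℝ) s := rfl
  rw [← h3, ← h2.2]
  rfl

end

end Pool.Agent.W184.NZ
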