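import Pool.Agent.W184.NZ.Prod

set_option autoImplicit false

/-! Bounds for the products over the ranges. -/

namespace Pool.Agent.W184.NZ

open Finset Filter MeasureTheory MonoidAlgebra

structure Rg (c : ℝ) (J : ℕ) (I : ℕ → Finset ℕ) (b : ℕ → ℝ) : Prop where
  pr : ∀ i, ∀ p ∈ I i, p.Prime ∧ 144 ≤ p ∧ (p:ℝ) ≤ b i
  dj : ∀ i j, i < j → Disjoint (I i) (I j)
  b10 : ∀ i < J, 10 ≤ b i
  v : ∀ i < J, vI (I i) ≤ c
  U : ∑ i ∈ range J, uI (I i) ≤ c

lemma Rg.u {c : ℝ} {J : ℕ} {I : ℕ → Finset ℕ} {b : ℕ → ℝ} (h : Rg c J I b) {i : ℕ} (hi : i < J) :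
    uI (I i) ≤ c :=
  (single_le_sum (f := fun i => uI (I i)) (fun _ _ => uI_nonneg _) (mem_range.mpr hi)).trans h.U

/-- the constant in the exponent -/
noncomputable def Bc (c : ℝ) : ℝ := 3 + 2 * CC c c * Real.exp c

lemma Bc_pos (c : ℝ) : 0 < Bc c := by
  unfold Bc; have := CC_pos c c; positivity

lemma CC_mono {v v' u u' : ℝ} (h1 : v ≤ v') (h2 : u ≤ u') : CC v u ≤ CC v' u' := by
  unfold CC
  gcongr

lemma loc_up {w : ℕ × ℕ → ℝ} {κ : ℝ} (hw : GoodW w κ) {c : ℝ} {I : Finset ℕ}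
    (hI : ∀ p ∈ I, p.Prime ∧ 144 ≤ p) (hv : vI I ≤ c) (hu : uI I ≤ c) {R : ℕ} (hR : 1 ≤ R) {a : ℝ}
    (ha : |a| ≤ 1) :
    lam w (gE (20 * R) a R I) ≤
      Real.exp ((2 * κ * a + a ^ 2) * vI I + 12 * a ^ 2 * uI I + Bc c * Real.exp (-(R:ℝ))) := by
  obtain ⟨ν, hν⟩ := law_exists hw I hI
  have h1 := loc_upper hw hν ha hR (cl_twenty hR ha)
  have v0 := vI_nonneg I
  have u0 := uI_nonneg I
  have hk0 := hw.k0
  have hk1 := hw.k1
  obtain ⟨ha1, ha2⟩ := abs_le.mp ha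
  set E := (2 * κ * a + a ^ 2) * vI I + 12 * a ^ 2 * uI I with hE
  set x := Real.exp (-(R:ℝ)) with hx
  have hx0 : 0 < x := Real.exp_pos _
  have hx1 : x ≤ 1 := Real.exp_le_one_iff.mpr (by simp)
  have hx2 : Real.exp (-(2 * (R:ℝ))) = x ^ 2 := by
    rw [hx, ← Real.exp_nat_mul]; congr 1; push_cast; ring
  have hEc : -c ≤ E := by
    have e1 : -1 ≤ 2 * κ * a + a ^ 2 := by nlinarith [sq_nonneg (a + κ), mul_nonneg hk0 (sub_nonneg.mpr hk1)]
    have e2 : 0 ≤ 12 * a ^ 2 * uI I := by positivity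
    nlinarith
  have hD : CC (vI I) (uI I) ≤ CC c c := CC_mono hv hu
  have hD0 := CC_pos c c
  have h2 : 1 ≤ Real.exp E * Real.exp c := by
    rw [← Real.exp_add]; exact Real.one_le_exp (by linarith)
  calc lam w (gE (20 * R) a R I) ≤ (1 + x) ^ 2 * Real.exp E + 2 * Real.exp (-(2 * (R:ℝ))) * CC (vI I) (uI I) := h1
    _ ≤ (1 + x) ^ 2 * Real.exp E + 2 * x ^ 2 * CC c c * (Real.exp E * Real.exp c) := by
      rw [hx2]
      have : 2 * x ^ 2 * CC (vI I) (uI I) ≤ 2 * x ^ 2 * CC c c * 1 := by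
        rw [mul_one]; gcongr
      have h3 : 2 * x ^ 2 * CC c c * 1 ≤ 2 * x ^ 2 * CC c c * (Real.exp E * Real.exp c) := by
        gcongr
      linarith
    _ = Real.exp E * ((1 + x) ^ 2 + 2 * CC c c * Real.exp c * x ^ 2) := by ring
    _ ≤ Real.exp E * (Bc c * x + 1) := by
      refine mul_le_mul_of_nonneg_left ?_ (Real.exp_pos _).le
      unfold Bc
      have hx3 : x ^ 2 ≤ x := by nlinarith
      have h4 : 2 * CC c c * Real.exp c * x ^ 2 ≤ 2 * CC c c * Real.exp c * x := by gcongr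
      nlinarith
    _ ≤ Real.exp E * Real.exp (Bc c * x) :=
      mul_le_mul_of_nonneg_left (Real.add_one_le_exp _) (Real.exp_pos _).le
    _ = _ := by rw [← Real.exp_add]

/-- threshold for the radii -/
def Rok (c : ℝ) (R : ℕ) : Prop := 1 ≤ R ∧ Real.exp (-(2 * (R:ℝ))) * CC c c ≤ Real.exp (-(2 * c)) / 2

lemma Rok_mono {c : ℝ} {R R' : ℕ} (h : Rok c R) (hR : R ≤ R') : Rok c R' := by
  refine ⟨h.1.trans hR, le_trans ?_ h.2⟩
  have : (R:ℝ) ≤ R' := by exact_mod_cast hR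
  refine mul_le_mul_of_nonneg_right (Real.exp_le_exp.mpr (by linarith)) (CC_pos _ _).le

lemma Rok_ex (c : ℝ) : ∃ R, Rok c R := by
  obtain ⟨n, hn⟩ := exists_nat_gt (Real.exp (2 * c) * (2 * CC c c))
  refine ⟨n + 1, by omega, ?_⟩
  have h0 := CC_pos c c
  have h1 : Real.exp (-(2 * ((n + 1 : ℕ):ℝ))) ≤ 1 / ((n:ℝ) + 1) := by
    rw [Real.exp_neg, ← one_div]
    refine one_div_le_one_div_of_le (by positivity) ?_
    have := Real.add_one_le_exp (2 * ((n + 1 : ℕ):ℝ))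
    push_cast at this ⊢
    have : (0:ℝ) ≤ n := Nat.cast_nonneg n
    linarith
  have h2 : 1 / ((n:ℝ) + 1) * CC c c ≤ Real.exp (-(2 * c)) / 2 := by
    rw [div_mul_eq_mul_div, one_mul, div_le_iff₀ (by positivity), Real.exp_neg]
    have h3 : 0 < Real.exp (2 * c) := Real.exp_pos _
    rw [div_mul_eq_mul_div, le_div_iff₀ (by norm_num : (0:ℝ) < 2)]
    rw [inv_mul_eq_div, le_div_iff₀ h3]
    nlinarith
  exact (mul_le_mul_of_nonneg_right h1 h0.le).trans h2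

lemma loc_low {w : ℕ × ℕ → ℝ} {κ : ℝ} (hw : GoodW w κ) {c : ℝ} {I : Finset ℕ}
    (hI : ∀ p ∈ I, p.Prime ∧ 144 ≤ p) (hv : vI I ≤ c) (hu : uI I ≤ c) {R : ℕ} (hR : Rok c R) {a : ℝ}
    (ha : |a| ≤ 1) :
    Real.exp (-(2 * c)) / 8 ≤ lam w (gE (20 * R) a R I) := by
  obtain ⟨ν, hν⟩ := law_exists hw I hI
  have h1 := loc_lower hw hν (fun p hp => (hI p hp).1) (R := R) ha (cl_twenty hR.1 ha)
  have v0 := vI_nonneg I
  have u0 := uI_nonneg I
  have hk0 := hw.k0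
  have hk1 := hw.k1
  obtain ⟨ha1, ha2⟩ := abs_le.mp ha
  have hD : CC (vI I) (uI I) ≤ CC c c := CC_mono hv hu
  have e1 : Real.exp (-(2 * c)) ≤ Real.exp (2 * κ * a * vI I) := by
    refine Real.exp_le_exp.mpr ?_
    have : -1 ≤ κ * a := by nlinarith
    nlinarith
  have e2 : Real.exp (-(2 * (R:ℝ))) * CC (vI I) (uI I) ≤ Real.exp (-(2 * c)) / 2 :=
    (mul_le_mul_of_nonneg_left hD (Real.exp_pos _).le).trans hR.2
  have hR1 : (1:ℝ) ≤ R := by exact_mod_cast hR.1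
  have e3 : Real.exp (-(R:ℝ)) ≤ 1 / 2 := by
    have : Real.exp (-(R:ℝ)) ≤ Real.exp (-1) := Real.exp_le_exp.mpr (by linarith)
    have h2 : Real.exp (-1) < 0.37 := by
      have := Real.exp_neg_one_lt_d9
      linarith
    linarith
  have e4 : 1 / 4 ≤ (1 - Real.exp (-(R:ℝ))) ^ 2 := by nlinarith
  have e5 := Real.exp_pos (-(2 * c))
  refine le_trans ?_ h1
  nlinarith

lemma sum_exp_le (J Rs : ℕ) {R : ℕ → ℕ} (hR : ∀ i, Rs + i ≤ R i) :
    ∑ i ∈ range J, Real.exp (-(R i : ℝ)) ≤ 2 * Real.exp (-(Rs:ℝ)) := by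
  have h1 : ∀ i ∈ range J, Real.exp (-(R i : ℝ)) ≤ Real.exp (-(Rs:ℝ)) * (1 / 2) ^ i := by
    intro i _
    have h2 : (Rs:ℝ) + i ≤ R i := by exact_mod_cast hR i
    have h3 : Real.exp (-1) ≤ 1 / 2 := by
      have := Real.exp_neg_one_lt_d9
      linarith
    calc Real.exp (-(R i : ℝ)) ≤ Real.exp (-(Rs:ℝ) + (i:ℝ) * (-1)) := Real.exp_le_exp.mpr (by linarith)
      _ = Real.exp (-(Rs:ℝ)) * Real.exp (-1) ^ i := by rw [Real.exp_add, Real.exp_nat_mul]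
      _ ≤ _ := by gcongr
  refine (sum_le_sum h1).trans ?_
  rw [← mul_sum, mul_comm]
  refine mul_le_mul_of_nonneg_right ?_ (Real.exp_pos _).le
  have h4 := (summable_geometric_two).sum_le_tsum (range J) (fun i _ => by positivity)
  rw [tsum_geometric_two] at h4
  exact h4

section
variable {c : ℝ} {J Rs : ℕ} {I : ℕ → Finset ℕ} {b : ℕ → ℝ} {R : ℕ → ℕ}

theorem GP_up {w : ℕ × ℕ → ℝ} {κ : ℝ} (hw : GoodW w κ) (h : Rg c J I b) (hRs : Rok c Rs)
    (hR : ∀ i, Rs + i ≤ R i) {a : ℝ} (ha : |a| ≤ 1) :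
    lam w (GP J a R I) ≤ Real.exp ((2 * κ * a + a ^ 2) * (∑ i ∈ range J, vI (I i)) + 12 * a ^ 2 * c +
      2 * Bc c * Real.exp (-(Rs:ℝ))) := by
  have hf : ∀ i, gE (20 * R i) a (R i) (I i) ∈ SA (MI (I i)) := fun i =>
    gE_mem (fun p hp => (h.pr i p hp).1) _ _ _
  have hRi : ∀ i, Rok c (R i) := fun i => Rok_mono hRs (by have := hR i; omega)
  unfold GP
  rw [lam_prod hw J h.dj hf]
  have h1 : ∀ i ∈ range J, lam w (gE (20 * R i) a (R i) (I i)) ≤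
      Real.exp ((2 * κ * a + a ^ 2) * vI (I i) + 12 * a ^ 2 * uI (I i) + Bc c * Real.exp (-(R i:ℝ))) := by
    intro i hi
    have hi' := mem_range.mp hi
    exact loc_up hw (fun p hp => ⟨(h.pr i p hp).1, (h.pr i p hp).2.1⟩) (h.v i hi') (h.u hi') (hRi i).1 ha
  have h0 : ∀ i ∈ range J, 0 ≤ lam w (gE (20 * R i) a (R i) (I i)) := by
    intro i hi
    have hi' := mem_range.mp hi
    refine le_trans (by positivity) (loc_low hw (fun p hp => ⟨(h.pr i p hp).1, (h.pr i p hp).2.1⟩)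
      (h.v i hi') (h.u hi') (hRi i) ha)
  refine (prod_le_prod h0 h1).trans ?_
  rw [← Real.exp_sum, sum_add_distrib, sum_add_distrib, ← mul_sum, ← mul_sum, ← mul_sum]
  refine Real.exp_le_exp.mpr ?_
  have h2 := mul_le_mul_of_nonneg_left (sum_exp_le J Rs hR) (Bc_pos c).le
  have h3 := mul_le_mul_of_nonneg_left h.U (by positivity : 0 ≤ 12 * a ^ 2)
  linarith

theorem GP_nonneg {w : ℕ × ℕ → ℝ} {κ : ℝ} (hw : GoodW w κ) (h : Rg c J I b) (hRs : Rok c Rs)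
    (hR : ∀ i, Rs + i ≤ R i) {a : ℝ} (ha : |a| ≤ 1) : 0 ≤ lam w (GP J a R I) := by
  have hf : ∀ i, gE (20 * R i) a (R i) (I i) ∈ SA (MI (I i)) := fun i =>
    gE_mem (fun p hp => (h.pr i p hp).1) _ _ _
  have hRi : ∀ i, Rok c (R i) := fun i => Rok_mono hRs (by have := hR i; omega)
  unfold GP
  rw [lam_prod hw J h.dj hf]
  refine prod_nonneg fun i hi => ?_
  have hi' := mem_range.mp hi
  refine le_trans (by positivity) (loc_low hw (fun p hp => ⟨(h.pr i p hp).1, (h.pr i p hp).2.1⟩)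
      (h.v i hi') (h.u hi') (hRi i) ha)

/-- constant for the logarithmic weight -/
noncomputable def Cl2 (c : ℝ) : ℝ := Real.exp (15 * c + Bc c) * (8 * Real.exp (2 * c))

lemma Cl2_pos (c : ℝ) : 0 < Cl2 c := by unfold Cl2; positivity

theorem GP_log (hc : 0 ≤ c) (h : Rg c J I b) (hRs : Rok c Rs)
    (hR : ∀ i, Rs + i ≤ R i) {a : ℝ} (ha : |a| ≤ 1) :
    |lam wl (GP J a R I)| ≤ (∑ i ∈ range J, 80 * (R i : ℝ) * Real.log (b i) * Cl2 c) *
      lam w1 (GP J a R I) := by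
  have hf : ∀ i, gE (20 * R i) a (R i) (I i) ∈ SA (MI (I i)) := fun i =>
    gE_mem (fun p hp => (h.pr i p hp).1) _ _ _
  have hRi : ∀ i, Rok c (R i) := fun i => Rok_mono hRs (by have := hR i; omega)
  have hlow : ∀ i < J, Real.exp (-(2 * c)) / 8 ≤ lam w1 (gE (20 * R i) a (R i) (I i)) := fun i hi' =>
    loc_low goodW1 (fun p hp => ⟨(h.pr i p hp).1, (h.pr i p hp).2.1⟩)
      (h.v i hi') (h.u hi') (hRi i) ha
  unfold GP
  rw [lam_prod goodW1 J h.dj hf]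
  refine laml_prod J h.dj hf (C := fun i => 80 * (R i : ℝ) * Real.log (b i) * Cl2 c)
    (fun i hi' => le_trans (by positivity) (hlow i hi')) fun i hi' => ?_
  have hb : 1 ≤ b i := by have := h.b10 i hi'; linarith
  have h1 := gE_wl hb (fun p hp => ⟨(h.pr i p hp).1, (h.pr i p hp).2.2⟩) (K := 20 * R i) (R := R i)
    (M := 20 * R i) le_rfl (by omega) a
  have ha' : |(|a|)| ≤ 1 := by rwa [abs_abs]
  have h2 := loc_up goodW1 (fun p hp => ⟨(h.pr i p hp).1, (h.pr i p hp).2.1⟩) (h.v i hi') (h.u hi')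
    (hRi i).1 ha' (a := |a|)
  have h3 : Real.exp ((2 * 1 * |a| + |a| ^ 2) * vI (I i) + 12 * |a| ^ 2 * uI (I i) +
      Bc c * Real.exp (-(R i:ℝ))) ≤ Real.exp (15 * c + Bc c) := by
    refine Real.exp_le_exp.mpr ?_
    have a0 := abs_nonneg a
    have v0 := vI_nonneg (I i)
    have u0 := uI_nonneg (I i)
    have v1 := h.v i hi'
    have u1 := h.u hi'
    have B0 := Bc_pos c
    have x1 : Real.exp (-(R i:ℝ)) ≤ 1 := Real.exp_le_one_iff.mpr (by simp)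
    have e1 : (2 * 1 * |a| + |a| ^ 2) ≤ 3 := by nlinarith
    have e2 : |a| ^ 2 ≤ 1 := by nlinarith
    have e3 : (2 * 1 * |a| + |a| ^ 2) * vI (I i) ≤ 3 * c := by
      have e0 : 0 ≤ 2 * 1 * |a| + |a| ^ 2 := by positivity
      calc _ ≤ (2 * 1 * |a| + |a| ^ 2) * c := mul_le_mul_of_nonneg_left v1 e0
        _ ≤ 3 * c := mul_le_mul_of_nonneg_right e1 hc
    have e4 : 12 * |a| ^ 2 * uI (I i) ≤ 12 * c := by
      calc _ ≤ 12 * |a| ^ 2 * c := mul_le_mul_of_nonneg_left u1 (by positivity)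
        _ ≤ 12 * 1 * c := by gcongr
        _ = _ := by ring
    have e5 : Bc c * Real.exp (-(R i:ℝ)) ≤ Bc c * 1 := by gcongr
    linarith
  have h4 := hlow i hi'
  have h5 : lam w1 (gE (20 * R i) |a| (R i) (I i)) ≤ Cl2 c * lam w1 (gE (20 * R i) a (R i) (I i)) := by
    refine (h2.trans h3).trans ?_
    unfold Cl2
    have e1 : 1 ≤ (8 * Real.exp (2 * c)) * lam w1 (gE (20 * R i) a (R i) (I i)) := by
      calc (1:ℝ) = (8 * Real.exp (2 * c)) * (Real.exp (-(2 * c)) / 8) := by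
            rw [Real.exp_neg]
            have := Real.exp_pos (2 * c)
            field_simp
        _ ≤ _ := mul_le_mul_of_nonneg_left h4 (by positivity)
    calc Real.exp (15 * c + Bc c) = Real.exp (15 * c + Bc c) * 1 := (mul_one _).symm
      _ ≤ Real.exp (15 * c + Bc c) * ((8 * Real.exp (2 * c)) * lam w1 (gE (20 * R i) a (R i) (I i))) :=
        mul_le_mul_of_nonneg_left e1 (Real.exp_pos _).le
      _ = _ := by ring
  have hl : 0 ≤ Real.log (b i) := Real.log_nonneg hb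
  refine h1.trans ?_
  push_cast
  calc 4 * (20 * (R i:ℝ)) * Real.log (b i) * lam w1 (gE (20 * R i) |a| (R i) (I i)) ≤
      4 * (20 * (R i:ℝ)) * Real.log (b i) * (Cl2 c * lam w1 (gE (20 * R i) a (R i) (I i))) :=
        mul_le_mul_of_nonneg_left h5 (by positivity)
    _ = _ := by ring

end

end Pool.Agent.W184.NZ
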