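import Pool.Agent.W184.NZ.TwMom
import Pool.Agent.W184.NZ.Loc2
import Pool.Agent.W184.MV
import Pool.Agent.H965R2.SM_T1

set_option autoImplicit false

/-! Plain average and smooth twisted average of an element of the algebra. -/

namespace Pool.Agent.W184.NZ

open Finset Filter MeasureTheory MonoidAlgebra
open Pool.Agent.H306R2.SM (om cl Yf)
open Pool.Agent.H262R4.TM (Rng Ck)

lemma mh_re (t : ℝ) {m n : ℕ} (hm : m ≠ 0) (hn : n ≠ 0) :
    (mh t (m, n)).re = ((m:ℝ) * n) ^ (-(1 / 2 : ℝ)) * Real.cos (t * (Real.log n - Real.log m)) := by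
  have m0 : (0:ℝ) < m := by exact_mod_cast Nat.pos_of_ne_zero hm
  have n0 : (0:ℝ) < n := by exact_mod_cast Nat.pos_of_ne_zero hn
  have e0 : mh t (m, n) = (m : ℂ) ^ (-(1 / 2 + t * Complex.I)) * (n : ℂ) ^ (-(1 / 2 - t * Complex.I)) := rfl
  have mc : (m:ℂ) ≠ 0 := by exact_mod_cast hm
  have nc : (n:ℂ) ≠ 0 := by exact_mod_cast hn
  have e1 : ((m:ℝ) * n) ^ (-(1 / 2 : ℝ)) = Real.exp (-(Real.log m + Real.log n) / 2) := by
    rw [Real.rpow_def_of_pos (by positivity), Real.log_mul m0.ne' n0.ne']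
    congr 1; ring
  have e2 : mh t (m, n) = ((Real.exp (-(Real.log m + Real.log n) / 2) : ℝ) : ℂ) *
      Complex.exp (((t * (Real.log n - Real.log m) : ℝ) : ℂ) * Complex.I) := by
    rw [e0, Complex.cpow_def_of_ne_zero mc, Complex.cpow_def_of_ne_zero nc, ← Complex.exp_add,
      Complex.ofReal_exp, ← Complex.exp_add, ← Complex.natCast_log, ← Complex.natCast_log]
    congr 1
    push_cast
    ring
  rw [e2, Complex.re_ofReal_mul, e1, Complex.exp_ofReal_mul_I_re]

lemma int_mh {N : ℝ} {m n : ℕ} (hm : m ≠ 0) (hn : n ≠ 0) (hmN : (m:ℝ) ≤ N) (hnN : (n:ℝ) ≤ N) (T : ℝ) :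
    |(∫ t in (0:ℝ)..T, (mh t (m, n)).re) - T * w0 (m, n)| ≤ 2 * N := by
  have m0 : (0:ℝ) < m := by exact_mod_cast Nat.pos_of_ne_zero hm
  have n0 : (0:ℝ) < n := by exact_mod_cast Nat.pos_of_ne_zero hn
  have hN : 0 ≤ N := m0.le.trans hmN
  simp_rw [mh_re _ hm hn]
  rw [intervalIntegral.integral_const_mul]
  unfold w0
  by_cases h : m = n
  · subst h
    simp only [sub_self, mul_zero, Real.cos_zero, intervalIntegral.integral_const, sub_zero, smul_eq_mul,
      mul_one, if_true]
    have e : ((m:ℝ) * m) ^ (-(1 / 2 : ℝ)) = 1 / m := by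
      rw [← pow_two, ← Real.rpow_natCast, ← Real.rpow_mul m0.le]
      norm_num
      rw [Real.rpow_neg_one]
    rw [e]
    rw [mul_comm, sub_self, abs_zero]
    positivity
  · simp only [h, if_false, mul_zero, sub_zero]
    rw [abs_mul]
    have h1 : |((m:ℝ) * n) ^ (-(1 / 2 : ℝ))| ≤ 1 := by
      rw [abs_of_nonneg (by positivity)]
      refine Real.rpow_le_one_of_one_le_of_nonpos ?_ (by norm_num)
      have a1 : (1:ℝ) ≤ m := by exact_mod_cast Nat.pos_of_ne_zero hm
      have a2 : (1:ℝ) ≤ n := by exact_mod_cast Nat.pos_of_ne_zero hn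
      nlinarith
    have key : ∀ a b : ℕ, a ≠ 0 → a < b → (b:ℝ) ≤ N → 1 / N ≤ Real.log b - Real.log a := by
      intro a b ha hab hb
      have h2 := Pool.Agent.W184.log_gap (Nat.pos_of_ne_zero ha) hab
      refine le_trans ?_ h2
      have b0 : (0:ℝ) < b := by exact_mod_cast (by omega : 0 < b)
      have h3 : (1:ℝ) ≤ (b:ℝ) - a := by
        have : (a:ℝ) + 1 ≤ b := by exact_mod_cast hab
        linarith
      exact div_le_div₀ (by linarith) h3 b0 hb
    have hN1 : 0 < N := m0.trans_le hmN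
    have h4 : 1 / N ≤ |Real.log n - Real.log m| := by
      rcases lt_or_gt_of_ne h with h5 | h5
      · exact (key m n hm h5 hnN).trans (le_abs_self _)
      · rw [abs_sub_comm]
        exact (key n m hn h5 hmN).trans (le_abs_self _)
    have h0 : Real.log n - Real.log m ≠ 0 := by
      intro h5
      rw [h5, abs_zero] at h4
      have : 0 < 1 / N := by positivity
      linarith
    have h6 := Pool.Agent.W184.abs_int_cos (A := 0) (B := T) h0
    have h7 : 2 / |Real.log n - Real.log m| ≤ 2 * N := by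
      rw [div_le_iff₀ (by positivity)]
      calc (2:ℝ) = 2 * N * (1 / N) := by field_simp
        _ ≤ _ := mul_le_mul_of_nonneg_left h4 (by positivity)
    calc _ ≤ 1 * (2 * N) := mul_le_mul h1 (h6.trans h7) (abs_nonneg _) zero_le_one
      _ = 2 * N := one_mul _

lemma ev_re (t : ℝ) (f : DA) : (ev t f).re = ∑ x ∈ f.coeff.support, f.coeff x * (mh t x).re := by
  rw [ev_apply, Complex.re_sum]
  exact sum_congr rfl fun x _ => Complex.re_ofReal_mul _ _

lemma ev_re_cont {N : ℝ} {f : DA} (hf : Bd N f) : Continuous fun t => (ev t f).re := by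
  simp_rw [ev_re]
  refine continuous_finsetSum _ fun x hx => ?_
  exact continuous_const.mul (Complex.continuous_re.comp (mh_cont (hf x hx).1.1 (hf x hx).1.2))

lemma ev_re_le {N : ℝ} {f : DA} (hf : Bd N f) (t : ℝ) : |(ev t f).re| ≤ l1 f := by
  rw [ev_re]
  refine (abs_sum_le_sum_abs _ _).trans (sum_le_sum fun x hx => ?_)
  rw [abs_mul]
  exact mul_le_of_le_one_right (abs_nonneg _)
    ((Complex.abs_re_le_norm _).trans (mh_norm_le (hf x hx).1.1 (hf x hx).1.2))

theorem avg0 {N : ℝ} {f : DA} (hf : Bd N f) (T : ℝ) :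
    |(∫ t in (0:ℝ)..T, (ev t f).re) - T * lam w0 f| ≤ 2 * N * l1 f := by
  have h1 : ∫ t in (0:ℝ)..T, (ev t f).re = lam (fun x => ∫ t in (0:ℝ)..T, (mh t x).re) f := by
    simp_rw [ev_re]
    rw [intervalIntegral.integral_finsetSum]
    · rw [lam_apply, Finsupp.sum]
      refine sum_congr rfl fun x _ => ?_
      rw [intervalIntegral.integral_const_mul]
    · intro x hx
      exact (continuous_const.mul (Complex.continuous_re.comp
        (mh_cont (hf x hx).1.1 (hf x hx).1.2))).intervalIntegrable _ _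
  have h2 : T * lam w0 f = lam (fun x => T * w0 x) f := by
    rw [lam_apply, lam_apply, Finsupp.sum, Finsupp.sum, mul_sum]
    exact sum_congr rfl fun x _ => by ring
  rw [h1, h2]
  refine lam_sub_le fun x hx => ?_
  obtain ⟨m, n⟩ := x
  exact int_mh (hf _ hx).1.1 (hf _ hx).1.2 (hf _ hx).2.1 (hf _ hx).2.2 T

theorem avg1 {k : ℕ} {Y : ℝ} {e N : ℝ} (hY : 0 < Y) (hk : 1 ≤ k)
    (hm : ∀ x : ℕ × ℕ, x.1 ≠ 0 → x.2 ≠ 0 → (x.1 : ℝ) ≤ N → (x.2 : ℝ) ≤ N → |Zm k Y x - Mn k Y x| ≤ e)
    {f : DA} (hf : Bd N f) :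
    ∫ t in Set.Ioi (0:ℝ), wz k Y t * (ev t f).re ≤
      (Real.log (Yf k Y) + Ck k) * lam w1 f - lam wl f + e * l1 f := by
  have hk0 : (0:ℝ) < (k:ℝ) / Y := by
    have : (0:ℝ) < k := by exact_mod_cast hk
    positivity
  have h1 : ∫ t in Set.Ioi (0:ℝ), wz k Y t * (ev t f).re = lam (Zm k Y) f := by
    simp_rw [ev_re, mul_sum]
    rw [integral_finsetSum]
    · rw [lam_apply, Finsupp.sum]
      refine sum_congr rfl fun x _ => ?_
      unfold Zm
      rw [← integral_const_mul]
      refine integral_congr_ae (Eventually.of_forall fun t => ?_)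
      simp only
      ring
    · intro x hx
      have := wz_int k hk0 (f := fun t => f.coeff x * (mh t x).re) (C := |f.coeff x|)
        (continuous_const.mul (Complex.continuous_re.comp (mh_cont (hf x hx).1.1 (hf x hx).1.2)))
        (fun t => by
          rw [abs_mul]
          exact mul_le_of_le_one_right (abs_nonneg _)
            ((Complex.abs_re_le_norm _).trans (mh_norm_le (hf x hx).1.1 (hf x hx).1.2)))
      exact this
  have h2 : lam (Mn k Y) f = (Real.log (Yf k Y) + Ck k) * lam w1 f - lam wl f := by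
    rw [lam_apply, lam_apply, lam_apply, Finsupp.sum, Finsupp.sum, Finsupp.sum, mul_sum, ← sum_sub_distrib]
    refine sum_congr rfl fun x _ => ?_
    unfold Mn; ring
  rw [h1, ← h2]
  have h3 : |lam (Zm k Y) f - lam (Mn k Y) f| ≤ e * l1 f := lam_sub_le fun x hx =>
    hm x (hf x hx).1.1 (hf x hx).1.2 (hf x hx).2.1 (hf x hx).2.2
  linarith [(abs_le.mp h3).2]

end Pool.Agent.W184.NZ
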