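import Pool.Agent.W184.NZ.LowSum

set_option autoImplicit false

/-! Lower bound for the product over the primes. -/

namespace Pool.Agent.W184.NZ

open Finset Pool.Agent.H306R2

theorem diag_ge : ∃ C : ℝ, 0 ≤ C ∧ ∀ y : ℝ, 144 ≤ y → ∀ (c : ℝ) (J Rs : ℕ), Rg c J (II y) (bb y) →
    Real.exp c * (1 / 2) ^ Rs ≤ 1 →
    ∀ α Δ : ℝ, 0 ≤ α → α ≤ 1 → 0 ≤ Δ →
    Real.exp (α ^ 2 * (∑ i ∈ range J, vI (II y i)) - α ^ 2 * (2 * Δ * (Real.log y + C)) - α ^ 2 * (α ^ 2 * C)) *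
      (1 - Real.exp c * (1 / 2) ^ Rs) ≤
      ∑ S ∈ FF J (fun i => Rs + i) (II y), ∏ p ∈ S, (α ^ 2 * (p:ℝ) ^ (-(2 * (1 / 2 + Δ)))) := by
  obtain ⟨C1, hC1⟩ := Pool.Agent.Helper256.KM.mertens_log
  have hs2 : Summable (fun n : ℕ => 1 / (n : ℝ) ^ 2) := Real.summable_one_div_nat_pow.mpr (by norm_num)
  set Z : ℝ := ∑' n : ℕ, 1 / (n : ℝ) ^ 2 with hZ
  have hZ0 : 0 ≤ Z := tsum_nonneg fun n => by positivity
  have hC10 : 0 ≤ C1 := (abs_nonneg _).trans (hC1 1 le_rfl)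
  refine ⟨C1 + Z, by positivity, fun y hy c J Rs hR hRs α Δ hα hα1 hΔ => ?_⟩
  have hy1 : 1 ≤ y := by linarith
  have hy0 : 0 ≤ y := by linarith
  set x : ℕ → ℝ := fun p => α ^ 2 * (p:ℝ) ^ (-(2 * (1 / 2 + Δ))) with hx
  have hx0 : ∀ p, 0 ≤ x p := fun p => by simp only [hx]; positivity
  have hx1 : ∀ p : ℕ, 1 ≤ p → x p ≤ α ^ 2 * (1 / p) := by
    intro p hp
    simp only [hx]
    refine mul_le_mul_of_nonneg_left ?_ (sq_nonneg α)
    have hp1 : (1:ℝ) ≤ p := by exact_mod_cast hp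
    calc (p:ℝ) ^ (-(2 * (1 / 2 + Δ))) ≤ (p:ℝ) ^ (-1:ℝ) :=
          Real.rpow_le_rpow_of_exponent_le hp1 (by linarith)
      _ = 1 / p := by rw [Real.rpow_neg_one, one_div]
  have hα2 : α ^ 2 ≤ 1 := by nlinarith
  have hE : ∀ i < J, ∑ p ∈ II y i, x p ≤ c := by
    intro i hi
    refine le_trans ?_ (hR.v i hi)
    unfold vI
    refine sum_le_sum fun p hp => ?_
    rw [mem_II] at hp
    refine (hx1 p hp.1.one_lt.le).trans ?_
    have : (0:ℝ) ≤ 1 / p := by positivity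
    nlinarith
  have hmain := FF_sum (J := J) (K := fun i => Rs + i) (I := II y) hx0 hE
  refine le_trans ?_ hmain
  have hgeo : Real.exp c * ∑ i ∈ range J, (1 / 2 : ℝ) ^ (Rs + i + 1) ≤ Real.exp c * (1 / 2) ^ Rs := by
    refine mul_le_mul_of_nonneg_left ?_ (Real.exp_pos _).le
    have h1 : ∀ i ∈ range J, (1 / 2 : ℝ) ^ (Rs + i + 1) = (1 / 2) ^ (Rs + 1) * (1 / 2) ^ i := by
      intro i _; rw [← pow_add]; congr 1; ring
    rw [sum_congr rfl h1, ← mul_sum, pow_succ]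
    have h4 := (summable_geometric_two).sum_le_tsum (range J) (fun i _ => by positivity)
    rw [tsum_geometric_two] at h4
    have h5 : (0:ℝ) < (1 / 2) ^ Rs := by positivity
    nlinarith
  have hP : Real.exp (α ^ 2 * (∑ i ∈ range J, vI (II y i)) - α ^ 2 * (2 * Δ * (Real.log y + (C1 + Z))) -
      α ^ 2 * (α ^ 2 * (C1 + Z))) ≤ ∏ p ∈ (range J).biUnion (II y), (1 + x p) := by
    have h1 : ∏ p ∈ (range J).biUnion (II y), Real.exp (x p - x p ^ 2) ≤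
        ∏ p ∈ (range J).biUnion (II y), (1 + x p) :=
      prod_le_prod (fun p _ => (Real.exp_pos _).le) fun p _ => exp_le_one_add (hx0 p)
    refine le_trans ?_ h1
    rw [← Real.exp_sum]
    refine Real.exp_le_exp.mpr ?_
    have hdj : Set.PairwiseDisjoint (↑(range J)) (II y) := by
      intro i _ j _ hij
      rcases lt_or_gt_of_ne hij with h | h
      · exact II_disj hy1 h
      · exact (II_disj hy1 h).symm
    rw [sum_biUnion hdj, sum_II hy1 (fun p => x p - x p ^ 2)]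
    have hV : ∑ i ∈ range J, vI (II y i) = ∑ p ∈ PF y (bb y J), 1 / (p:ℝ) := by
      unfold vI
      exact sum_II hy1 (fun p => 1 / (p:ℝ)) J
    rw [hV]
    have h2 : ∀ p ∈ PF y (bb y J), α ^ 2 * (1 / (p:ℝ)) - α ^ 2 * (2 * Δ * (Real.log p / p)) -
        α ^ 2 * (α ^ 2 * (1 / (p:ℝ) ^ 2)) ≤ x p - x p ^ 2 := by
      intro p hp
      rw [mem_PF hy0] at hp
      have hp1 : (1:ℝ) ≤ p := by exact_mod_cast hp.1.one_lt.le
      have hp0 : (0:ℝ) < p := by linarith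
      have e1 : (p:ℝ) ^ (-(2 * (1 / 2 + Δ))) = 1 / p * Real.exp (-(2 * Δ * Real.log p)) := by
        rw [show -(2 * (1 / 2 + Δ)) = -1 + -(2 * Δ) by ring, Real.rpow_add hp0, Real.rpow_neg_one,
          Real.rpow_def_of_pos hp0 (-(2 * Δ)), one_div]
        congr 2; ring
      have e2 := Real.add_one_le_exp (-(2 * Δ * Real.log p))
      have e3 : α ^ 2 * (1 / (p:ℝ)) - α ^ 2 * (2 * Δ * (Real.log p / p)) ≤ x p := by
        simp only [hx]
        rw [e1, ← mul_sub]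
        refine mul_le_mul_of_nonneg_left ?_ (sq_nonneg α)
        calc 1 / (p:ℝ) - 2 * Δ * (Real.log p / p) = 1 / p * (-(2 * Δ * Real.log p) + 1) := by ring
          _ ≤ _ := mul_le_mul_of_nonneg_left e2 (by positivity)
      have e4 : x p ^ 2 ≤ α ^ 2 * (α ^ 2 * (1 / (p:ℝ) ^ 2)) := by
        calc x p ^ 2 ≤ (α ^ 2 * (1 / p)) ^ 2 := pow_le_pow_left₀ (hx0 p) (hx1 p hp.1.one_lt.le) 2
          _ = _ := by rw [mul_pow, one_div_pow]; ring
      linarith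
    refine le_trans ?_ (sum_le_sum h2)
    rw [sum_sub_distrib, sum_sub_distrib, ← mul_sum, ← mul_sum, ← mul_sum, ← mul_sum, ← mul_sum]
    have h3 : ∑ p ∈ PF y (bb y J), Real.log p / (p:ℝ) ≤ Real.log y + (C1 + Z) := by
      have hfl : 1 ≤ ⌊y⌋₊ := Nat.le_floor (by exact_mod_cast hy1)
      have h4 := (abs_le.mp (hC1 ⌊y⌋₊ hfl)).2
      have h5 : Real.log ⌊y⌋₊ ≤ Real.log y := Real.log_le_log (by exact_mod_cast hfl) (Nat.floor_le hy0)
      have h6 : ∑ p ∈ PF y (bb y J), Real.log p / (p:ℝ) ≤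
          ∑ p ∈ (Icc 1 ⌊y⌋₊).filter Nat.Prime, Real.log p / (p:ℝ) := by
        refine sum_le_sum_of_subset_of_nonneg ?_ fun p hp _ => ?_
        · intro p hp
          rw [mem_PF hy0] at hp
          rw [mem_filter, mem_Icc, Nat.le_floor_iff hy0]
          exact ⟨⟨by omega, hp.2.2.2⟩, hp.1⟩
        · rw [mem_filter, mem_Icc] at hp
          exact div_nonneg (Real.log_nonneg (by exact_mod_cast hp.1.1)) (Nat.cast_nonneg p)
      linarith
    have h7 : ∑ p ∈ PF y (bb y J), 1 / (p:ℝ) ^ 2 ≤ C1 + Z := by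
      have := hs2.sum_le_tsum (PF y (bb y J)) (fun n _ => by positivity)
      linarith
    have h8 : α ^ 2 * (2 * Δ * ∑ p ∈ PF y (bb y J), Real.log p / (p:ℝ)) ≤
        α ^ 2 * (2 * Δ * (Real.log y + (C1 + Z))) := by gcongr
    have h9 : α ^ 2 * (α ^ 2 * ∑ p ∈ PF y (bb y J), 1 / (p:ℝ) ^ 2) ≤ α ^ 2 * (α ^ 2 * (C1 + Z)) := by gcongr
    linarith
  have h0 : 0 ≤ ∏ p ∈ (range J).biUnion (II y), (1 + x p) := prod_nonneg fun p _ => by linarith [hx0 p]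
  refine mul_le_mul hP ?_ (by linarith) h0
  linarith

end Pool.Agent.W184.NZ
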