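import Pool.Agent.W184.NZ.Loc2
import Pool.Agent.Helper256.KM.Mertens

set_option autoImplicit false

/-! The ranges of primes. -/

namespace Pool.Agent.W184.NZ

open Finset Filter

/-- end points of the ranges -/
noncomputable def bb (y : ℝ) (i : ℕ) : ℝ := Real.exp (Real.log y * (1 / 4) ^ i)

/-- the ranges -/
noncomputable def II (y : ℝ) (i : ℕ) : Finset ℕ :=
  (Icc 1 ⌊bb y i⌋₊).filter fun p => p.Prime ∧ 144 ≤ p ∧ bb y (i + 1) < p

noncomputable def PF (y x : ℝ) : Finset ℕ := (Icc 1 ⌊y⌋₊).filter fun p => p.Prime ∧ 144 ≤ p ∧ x < p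

lemma bb_pos (y : ℝ) (i : ℕ) : 0 < bb y i := Real.exp_pos _

lemma bb_zero {y : ℝ} (hy : 0 < y) : bb y 0 = y := by
  unfold bb; rw [pow_zero, mul_one, Real.exp_log hy]

lemma log_bb (y : ℝ) (i : ℕ) : Real.log (bb y i) = Real.log y * (1 / 4) ^ i := Real.log_exp _

lemma bb_anti {y : ℝ} (hy : 1 ≤ y) {i j : ℕ} (h : i ≤ j) : bb y j ≤ bb y i := by
  unfold bb
  refine Real.exp_le_exp.mpr (mul_le_mul_of_nonneg_left ?_ (Real.log_nonneg hy))
  exact pow_le_pow_of_le_one (by norm_num) (by norm_num) h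

lemma bb_le {y : ℝ} (hy : 1 ≤ y) (i : ℕ) : bb y i ≤ y := by
  have := bb_anti hy (Nat.zero_le i)
  rwa [bb_zero (by linarith)] at this

lemma mem_II {y : ℝ} {i p : ℕ} : p ∈ II y i ↔ p.Prime ∧ 144 ≤ p ∧ bb y (i + 1) < p ∧ (p:ℝ) ≤ bb y i := by
  unfold II
  rw [mem_filter, mem_Icc, Nat.le_floor_iff (bb_pos y i).le]
  constructor
  · rintro ⟨⟨_, h2⟩, h3, h4, h5⟩
    exact ⟨h3, h4, h5, h2⟩
  · rintro ⟨h3, h4, h5, h2⟩
    exact ⟨⟨by omega, h2⟩, h3, h4, h5⟩

lemma mem_PF {y x : ℝ} (hy : 0 ≤ y) {p : ℕ} : p ∈ PF y x ↔ p.Prime ∧ 144 ≤ p ∧ x < p ∧ (p:ℝ) ≤ y := by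
  unfold PF
  rw [mem_filter, mem_Icc, Nat.le_floor_iff hy]
  constructor
  · rintro ⟨⟨_, h2⟩, h3, h4, h5⟩
    exact ⟨h3, h4, h5, h2⟩
  · rintro ⟨h3, h4, h5, h2⟩
    exact ⟨⟨by omega, h2⟩, h3, h4, h5⟩

lemma II_disj {y : ℝ} (hy : 1 ≤ y) {i j : ℕ} (h : i < j) : Disjoint (II y i) (II y j) := by
  rw [disjoint_left]
  intro p hp hq
  rw [mem_II] at hp hq
  have := bb_anti hy (show i + 1 ≤ j by omega)
  linarith [hp.2.2.1, hq.2.2.2]

lemma sum_II {y : ℝ} (hy : 1 ≤ y) (F : ℕ → ℝ) (n : ℕ) :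
    ∑ i ∈ range n, ∑ p ∈ II y i, F p = ∑ p ∈ PF y (bb y n), F p := by
  have hy0 : 0 < y := by linarith
  induction n with
  | zero =>
    rw [range_zero, sum_empty]
    symm
    have : PF y (bb y 0) = ∅ := by
      rw [bb_zero hy0, eq_empty_iff_forall_notMem]
      intro p hp
      rw [mem_PF hy0.le] at hp
      linarith [hp.2.2.1, hp.2.2.2]
    rw [this, sum_empty]
  | succ n ih =>
    rw [sum_range_succ, ih]
    have hd : Disjoint (PF y (bb y n)) (II y n) := by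
      rw [disjoint_left]
      intro p hp hq
      rw [mem_PF hy0.le] at hp
      rw [mem_II] at hq
      linarith [hp.2.2.1, hq.2.2.2]
    rw [← sum_union hd]
    refine sum_congr ?_ fun _ _ => rfl
    ext p
    rw [mem_union, mem_PF hy0.le, mem_PF hy0.le, mem_II]
    have h1 := bb_anti hy (show n ≤ n + 1 by omega)
    have h2 := bb_le hy n
    constructor
    · rintro (h | h)
      · exact ⟨h.1, h.2.1, by linarith [h.2.2.1], h.2.2.2⟩
      · exact ⟨h.1, h.2.1, h.2.2.1, by linarith [h.2.2.2]⟩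
    · intro h
      rcases lt_or_ge (bb y n) p with h3 | h3
      · exact Or.inl ⟨h.1, h.2.1, h3, h.2.2.2⟩
      · exact Or.inr ⟨h.1, h.2.1, h.2.2.1, h3⟩

lemma J_ex (y : ℝ) : ∃ J, (∀ i < J, 144 ≤ bb y i) ∧ bb y J < 144 := by
  classical
  have h1 : ∃ J, bb y J < 144 := by
    have h2 : Tendsto (fun i : ℕ => bb y i) atTop (nhds 1) := by
      unfold bb
      have h3 : Tendsto (fun i : ℕ => Real.log y * (1 / 4 : ℝ) ^ i) atTop (nhds (Real.log y * 0)) :=
        (tendsto_pow_atTop_nhds_zero_of_lt_one (by norm_num) (by norm_num)).const_mul _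
      rw [mul_zero] at h3
      have := (Real.continuous_exp.tendsto 0).comp h3
      rwa [Real.exp_zero] at this
    exact (h2.eventually (gt_mem_nhds (show (1:ℝ) < 144 by norm_num))).exists
  refine ⟨Nat.find h1, fun i hi => ?_, Nat.find_spec h1⟩
  have := Nat.find_min h1 hi
  linarith

/-- sum of the reciprocals of the primes up to `x` -/
noncomputable def Pr (x : ℝ) : ℝ := ∑ p ∈ (Icc 1 ⌊x⌋₊).filter Nat.Prime, (1:ℝ) / p

lemma Pr_bound : ∃ C : ℝ, 0 ≤ C ∧ ∀ x : ℝ, 3 ≤ x → |Pr x - Real.log (Real.log x)| ≤ C := by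
  obtain ⟨C, hC⟩ := Pool.Agent.Helper256.KM.mertens_inv
  have hC0 : 0 ≤ C := (abs_nonneg _).trans (hC 3 le_rfl)
  refine ⟨C + 1, by linarith, fun x hx => ?_⟩
  have h1 : 3 ≤ ⌊x⌋₊ := Nat.le_floor (by exact_mod_cast hx)
  have h2 := hC ⌊x⌋₊ h1
  have h3 : (3:ℝ) ≤ ⌊x⌋₊ := by exact_mod_cast h1
  have h4 : (⌊x⌋₊ : ℝ) ≤ x := Nat.floor_le (by linarith)
  have h5 : x < ⌊x⌋₊ + 1 := Nat.lt_floor_add_one x
  have l3 : 1 < Real.log 3 := by
    have := Real.exp_one_lt_d9
    rw [Real.lt_log_iff_exp_lt (by norm_num)]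
    linarith
  have l1 : 1 < Real.log ⌊x⌋₊ := l3.trans_le (Real.log_le_log (by norm_num) h3)
  have l2 : Real.log ⌊x⌋₊ ≤ Real.log x := Real.log_le_log (by linarith) h4
  have l4 : Real.log x - Real.log ⌊x⌋₊ ≤ 1 := by
    rw [← Real.log_div (by linarith) (by linarith)]
    have := Real.log_le_sub_one_of_pos (x := x / ⌊x⌋₊) (by positivity)
    have h6 : x / ⌊x⌋₊ ≤ 2 := by rw [div_le_iff₀ (by linarith)]; linarith
    linarith
  have l5 : Real.log (Real.log ⌊x⌋₊) ≤ Real.log (Real.log x) := Real.log_le_log (by linarith) l2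
  have l6 : Real.log (Real.log x) - Real.log (Real.log ⌊x⌋₊) ≤ 1 := by
    rw [← Real.log_div (by linarith) (by linarith)]
    have := Real.log_le_sub_one_of_pos (x := Real.log x / Real.log ⌊x⌋₊) (div_pos (by linarith) (by linarith))
    have h6 : Real.log x / Real.log ⌊x⌋₊ ≤ 2 := by rw [div_le_iff₀ (by linarith)]; linarith
    linarith
  have e : Pr x = ∑ p ∈ (Icc 1 ⌊x⌋₊).filter Nat.Prime, (1:ℝ) / p := rfl
  rw [e]
  rw [abs_le] at h2 ⊢
  constructor <;> linarith [h2.1, h2.2]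

lemma ranges : ∃ c : ℝ, 0 ≤ c ∧ ∀ y : ℝ, 144 ≤ y → ∃ J, Rg c J (II y) (bb y) ∧ (∀ i < J, 144 ≤ bb y i) ∧
    bb y J < 144 ∧ |∑ i ∈ range J, vI (II y i) - Real.log (Real.log y)| ≤ c := by
  obtain ⟨C, hC0, hC⟩ := Pr_bound
  have hs : Summable (fun n : ℕ => (n:ℝ) ^ (-(3 / 2 : ℝ))) := by
    rw [Real.summable_nat_rpow]; norm_num
  set U : ℝ := ∑' n : ℕ, (n:ℝ) ^ (-(3 / 2 : ℝ)) with hU
  have hU0 : 0 ≤ U := tsum_nonneg fun n => by positivity
  have hl4 : Real.log 4 ≤ 2 := by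
    have := Real.log_le_sub_one_of_pos (x := 4) (by norm_num)
    have h2 : Real.log 4 = 2 * Real.log 2 := by
      rw [show (4:ℝ) = 2 ^ 2 by norm_num, Real.log_pow]; norm_num
    have := Real.log_two_lt_d9
    linarith
  refine ⟨2 * C + U + 200, by positivity, fun y hy => ?_⟩
  obtain ⟨J, hJ1, hJ2⟩ := J_ex y
  have hy1 : 1 ≤ y := by linarith
  have hy0 : 0 ≤ y := by linarith
  refine ⟨J, ⟨?_, ?_, ?_, ?_, ?_⟩, hJ1, hJ2, ?_⟩
  · intro i p hp
    rw [mem_II] at hp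
    exact ⟨hp.1, hp.2.1, hp.2.2.2⟩
  · intro i j hij
    exact II_disj hy1 hij
  · intro i hi
    have := hJ1 i hi
    linarith
  · intro i hi
    have h144 := hJ1 i hi
    have hl : Real.log 144 ≤ Real.log (bb y i) := Real.log_le_log (by norm_num) h144
    have h3 : (3:ℝ) ≤ bb y (i + 1) := by
      have e : bb y (i + 1) = Real.exp (Real.log (bb y i) / 4) := by
        rw [log_bb]; unfold bb; congr 1; rw [pow_succ]; ring
      rw [e, ← Real.log_le_iff_le_exp (by norm_num)]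
      have : 4 * Real.log 3 ≤ Real.log 144 := by
        have h6 : Real.log ((3:ℝ) ^ 4) ≤ Real.log 144 := Real.log_le_log (by norm_num) (by norm_num)
        rw [Real.log_pow] at h6
        exact_mod_cast h6
      linarith
    have h4 : bb y (i + 1) ≤ bb y i := bb_anti hy1 (by omega)
    have c1 := hC _ h3
    have c2 := hC _ (h3.trans h4)
    have e5 : Real.log (Real.log (bb y i)) - Real.log (Real.log (bb y (i + 1))) = Real.log 4 := by
      rw [log_bb, log_bb]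
      have hly : 0 < Real.log y := Real.log_pos (by linarith)
      rw [← Real.log_div (by positivity) (by positivity)]
      congr 1
      rw [pow_succ]
      field_simp
    have e6 : vI (II y i) ≤ Pr (bb y i) - Pr (bb y (i + 1)) := by
      have hsub : (Icc 1 ⌊bb y (i + 1)⌋₊).filter Nat.Prime ⊆ (Icc 1 ⌊bb y i⌋₊).filter Nat.Prime := by
        refine filter_subset_filter _ (Icc_subset_Icc le_rfl (Nat.floor_le_floor h4))
      unfold Pr vI
      rw [← sum_sdiff hsub, add_sub_cancel_right]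
      refine sum_le_sum_of_subset_of_nonneg ?_ fun _ _ _ => by positivity
      intro p hp
      rw [mem_II] at hp
      rw [Finset.mem_sdiff, mem_filter, mem_filter, mem_Icc, mem_Icc, Nat.le_floor_iff (bb_pos _ _).le,
        Nat.le_floor_iff (bb_pos _ _).le]
      refine ⟨⟨⟨by omega, hp.2.2.2⟩, hp.1⟩, fun h => ?_⟩
      linarith [h.1.2, hp.2.2.1]
    rw [abs_le] at c1 c2
    linarith [c1.1, c2.2]
  · unfold uI
    rw [sum_II hy1 (fun p => (p:ℝ) ^ (-(3 / 2 : ℝ)))]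
    have := hs.sum_le_tsum (PF y (bb y J)) (fun i _ => by positivity)
    linarith
  · unfold vI
    rw [sum_II hy1 (fun p => 1 / (p:ℝ))]
    have c1 := hC y (by linarith)
    have h1 : ∑ p ∈ PF y (bb y J), 1 / (p:ℝ) ≤ Pr y := by
      unfold Pr
      refine sum_le_sum_of_subset_of_nonneg ?_ fun _ _ _ => by positivity
      intro p hp
      rw [mem_PF hy0] at hp
      rw [mem_filter, mem_Icc, Nat.le_floor_iff hy0]
      exact ⟨⟨by omega, hp.2.2.2⟩, hp.1⟩
    have h2 : Pr y ≤ ∑ p ∈ PF y (bb y J), 1 / (p:ℝ) + 144 := by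
      have hsub : (Icc 1 ⌊y⌋₊).filter Nat.Prime ⊆ PF y (bb y J) ∪ Icc 1 144 := by
        intro p hp
        rw [mem_filter, mem_Icc, Nat.le_floor_iff hy0] at hp
        rw [mem_union, mem_PF hy0, mem_Icc]
        by_cases h : 144 ≤ p
        · left
          refine ⟨hp.2, h, ?_, hp.1.2⟩
          have : (144:ℝ) ≤ p := by exact_mod_cast h
          linarith
        · right
          exact ⟨hp.1.1, by omega⟩
      unfold Pr
      refine (sum_le_sum_of_subset_of_nonneg hsub fun _ _ _ => by positivity).trans ?_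
      have h5 := sum_union_inter (s₁ := PF y (bb y J)) (s₂ := Icc 1 144) (f := fun p : ℕ => 1 / (p:ℝ))
      have h6 : 0 ≤ ∑ p ∈ PF y (bb y J) ∩ Icc 1 144, 1 / (p:ℝ) := sum_nonneg fun _ _ => by positivity
      have h7 : ∑ p ∈ Icc (1:ℕ) 144, 1 / (p:ℝ) ≤ ∑ _p ∈ Icc (1:ℕ) 144, (1:ℝ) := by
        refine sum_le_sum fun p hp => ?_
        rw [mem_Icc] at hp
        have : (1:ℝ) ≤ p := by exact_mod_cast hp.1
        rw [div_le_one (by linarith)]; exact this
      simp only [sum_const, Nat.card_Icc, nsmul_eq_mul] at h7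
      norm_num at h7
      norm_num at h5 h6 ⊢
      linarith
    rw [abs_le] at c1 ⊢
    constructor <;> linarith [c1.1, c1.2]

end Pool.Agent.W184.NZ
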