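import Pool.Agent.W184.NZ.AF3
import Pool.Agent.W184.NZ.Ranges

set_option autoImplicit false

/-! A uniform upper bound for the sum of `d_κ(n)/n`. -/

namespace Pool.Agent.W184.NZ

open Finset Pool.Agent.H306R2

lemma lc_le {κ : ℝ} (h0 : 0 ≤ κ) (h1 : κ ≤ 1) (e : ℕ) : lc κ (e + 1) ≤ κ := by
  induction e with
  | zero => rw [lc_one]
  | succ e ih =>
    rw [lc_succ]
    have h2 : (κ + (e + 1 : ℕ)) / (((e + 1 : ℕ) : ℝ) + 1) ≤ 1 := by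
      rw [div_le_one (by positivity)]; linarith
    have h3 : 0 ≤ lc κ (e + 1) := lc_nonneg h0 _
    exact (mul_le_of_le_one_right h3 h2).trans ih

lemma loc_tsum {κ : ℝ} (h0 : 0 ≤ κ) (h1 : κ ≤ 1) {p : ℕ} (hp : p.Prime) :
    Summable (fun e : ℕ => dv κ (p ^ e) / ((p ^ e : ℕ) : ℝ)) ∧
    ∑' e : ℕ, dv κ (p ^ e) / ((p ^ e : ℕ) : ℝ) ≤ Real.exp (κ * (1 / p + 2 * (1 / (p:ℝ) ^ 2))) := by
  have hp2 : (2:ℝ) ≤ p := by exact_mod_cast hp.two_le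
  have hp0 : (0:ℝ) < p := by linarith
  have hx : 1 / (p:ℝ) < 1 := by rw [div_lt_one hp0]; linarith
  have hx0 : (0:ℝ) ≤ 1 / p := by positivity
  have hg := summable_geometric_of_lt_one hx0 hx
  have hterm : ∀ e : ℕ, dv κ (p ^ e) / ((p ^ e : ℕ) : ℝ) = lc κ e * (1 / (p:ℝ)) ^ e := by
    intro e
    rw [dv_prime_pow κ hp]
    push_cast
    rw [one_div_pow]
    ring
  have hle : ∀ e : ℕ, lc κ (e + 1) * (1 / (p:ℝ)) ^ (e + 1) ≤ κ * (1 / (p:ℝ)) * (1 / (p:ℝ)) ^ e := by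
    intro e
    rw [pow_succ]
    calc lc κ (e + 1) * ((1 / (p:ℝ)) ^ e * (1 / p)) ≤ κ * ((1 / (p:ℝ)) ^ e * (1 / p)) :=
          mul_le_mul_of_nonneg_right (lc_le h0 h1 e) (by positivity)
      _ = _ := by ring
  have hs1 : Summable (fun e : ℕ => lc κ (e + 1) * (1 / (p:ℝ)) ^ (e + 1)) :=
    Summable.of_nonneg_of_le (fun e => mul_nonneg (lc_nonneg h0 _) (by positivity)) hle
      (hg.mul_left _)
  have hs : Summable (fun e : ℕ => lc κ e * (1 / (p:ℝ)) ^ e) := (summable_nat_add_iff 1).mp hs1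
  simp_rw [hterm]
  refine ⟨hs, ?_⟩
  rw [hs.tsum_eq_zero_add, lc_zero, pow_zero, mul_one]
  have h2 : ∑' e : ℕ, lc κ (e + 1) * (1 / (p:ℝ)) ^ (e + 1) ≤ κ * (1 / (p:ℝ)) * (1 - 1 / (p:ℝ))⁻¹ := by
    rw [← tsum_geometric_of_lt_one hx0 hx, ← tsum_mul_left]
    exact hs1.tsum_le_tsum hle (hg.mul_left _)
  have h3 : κ * (1 / (p:ℝ)) * (1 - 1 / (p:ℝ))⁻¹ ≤ κ * (1 / p + 2 * (1 / (p:ℝ) ^ 2)) := by
    rw [mul_assoc]
    refine mul_le_mul_of_nonneg_left ?_ h0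
    have h4 : 0 < 1 - 1 / (p:ℝ) := by linarith
    rw [← div_eq_mul_inv, div_le_iff₀ h4]
    have h5 : 1 / (p:ℝ) ≤ 1 / 2 := one_div_le_one_div_of_le (by norm_num) hp2
    have h6 : 1 / (p:ℝ) ^ 2 = (1 / (p:ℝ)) ^ 2 := by rw [one_div_pow]
    rw [h6]
    have h7 : (0:ℝ) < 1 / p := by positivity
    nlinarith [mul_pos h7 h7]
  have h8 := Real.add_one_le_exp (κ * (1 / p + 2 * (1 / (p:ℝ) ^ 2)))
  linarith

theorem dv_sum_le : ∃ C : ℝ, 0 ≤ C ∧ ∀ X : ℝ, 3 ≤ X → ∀ κ : ℝ, 0 ≤ κ → κ ≤ 1 →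
    ∑ n ∈ Icc 1 ⌊X⌋₊, dv κ n / (n:ℝ) ≤ Real.exp (κ * (Real.log (Real.log X) + C)) := by
  obtain ⟨C, hC0, hC⟩ := Pr_bound
  have hs2 : Summable (fun n : ℕ => 1 / (n : ℝ) ^ 2) := Real.summable_one_div_nat_pow.mpr (by norm_num)
  set Z : ℝ := ∑' n : ℕ, 1 / (n : ℝ) ^ 2 with hZ
  have hZ0 : 0 ≤ Z := tsum_nonneg fun n => by positivity
  refine ⟨C + 2 * Z, by positivity, fun X hX κ h0 h1 => ?_⟩
  set N := ⌊X⌋₊ + 1 with hN
  set f : ℕ → ℝ := fun n => dv κ n / (n:ℝ) with hf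
  have hf0 : ∀ n, 0 ≤ f n := fun n => div_nonneg (dv_nonneg h0 n) (Nat.cast_nonneg n)
  have hf1 : f 1 = 1 := by simp [hf, dv_one]
  have hmul : ∀ {m n : ℕ}, Nat.Coprime m n → f (m * n) = f m * f n := by
    intro m n hmn
    simp only [hf]
    rw [← dA_apply κ (m * n), (dA_mult κ).map_mul_of_coprime hmn, dA_apply, dA_apply]
    push_cast
    rw [mul_div_mul_comm]
  have hsum : ∀ {p : ℕ}, p.Prime → Summable (fun n : ℕ => ‖f (p ^ n)‖) := by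
    intro p hp
    have := (loc_tsum h0 h1 hp).1
    refine this.congr fun e => ?_
    rw [Real.norm_of_nonneg (hf0 _)]
  have hE := (EulerProduct.summable_and_hasSum_smoothNumbers_prod_primesBelow_tsum hf1 hmul hsum N).2
  rw [show (fun m : N.smoothNumbers => f m) = f ∘ ((↑) : N.smoothNumbers → ℕ) from rfl,
    hasSum_subtype_iff_indicator] at hE
  have hle : ∑ n ∈ Icc 1 ⌊X⌋₊, f n ≤ ∏ p ∈ N.primesBelow, ∑' n : ℕ, f (p ^ n) := by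
    have e1 : ∑ n ∈ Icc 1 ⌊X⌋₊, f n = ∑ n ∈ Icc 1 ⌊X⌋₊, (N.smoothNumbers).indicator f n := by
      refine sum_congr rfl fun n hn => ?_
      rw [mem_Icc] at hn
      rw [Set.indicator_of_mem (Nat.mem_smoothNumbers_of_lt (by omega) (by omega))]
    rw [e1]
    exact sum_le_hasSum _ (fun n _ => Set.indicator_nonneg (fun m _ => hf0 m) n) hE
  refine hle.trans ?_
  have hprod : ∏ p ∈ N.primesBelow, ∑' n : ℕ, f (p ^ n) ≤
      ∏ p ∈ N.primesBelow, Real.exp (κ * (1 / p + 2 * (1 / (p:ℝ) ^ 2))) := by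
    refine prod_le_prod (fun p _ => tsum_nonneg fun n => hf0 _) fun p hp => ?_
    exact (loc_tsum h0 h1 (Nat.prime_of_mem_primesBelow hp)).2
  refine hprod.trans ?_
  rw [← Real.exp_sum, ← mul_sum]
  refine Real.exp_le_exp.mpr (mul_le_mul_of_nonneg_left ?_ h0)
  rw [sum_add_distrib, ← mul_sum]
  have e2 : ∑ p ∈ N.primesBelow, 1 / (p:ℝ) = Pr X := by
    unfold Pr
    refine sum_congr ?_ fun _ _ => rfl
    ext p
    rw [Nat.mem_primesBelow, mem_filter, mem_Icc]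
    constructor
    · rintro ⟨h2, h3⟩
      exact ⟨⟨h3.one_lt.le, by omega⟩, h3⟩
    · rintro ⟨h2, h3⟩
      exact ⟨by omega, h3⟩
  have e3 : ∑ p ∈ N.primesBelow, 1 / (p:ℝ) ^ 2 ≤ Z := hs2.sum_le_tsum _ fun n _ => by positivity
  have e4 := (abs_le.mp (hC X hX)).2
  rw [e2]
  linarith

end Pool.Agent.W184.NZ
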