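import Pool.Agent.W184.NZ.Up1
import Pool.Agent.W184.Zn

set_option autoImplicit false

/-! The upper bound. -/

namespace Pool.Agent.W184.NZ

open Finset Filter MeasureTheory Topology
open Pool.Agent.H306R2.SM (om cl Yf)
open Pool.Agent.H262R4.TM (Rng Ck)
open Pool.Agent.W184 (zn zn_nonneg zn_cont zn_le')

lemma zn_cl (t : ℝ) : zn (1 / 2) t = ‖riemannZeta (cl t)‖ := by
  unfold zn cl
  push_cast
  rfl

lemma Rs_ex (c κ : ℝ) (hκ : 0 < κ) : ∃ Rs : ℕ, Rok c Rs ∧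
    Real.exp ((8 + 2 * Bc c) * Real.exp (-(Rs:ℝ))) ≤ 1 + κ := by
  obtain ⟨R0, hR0⟩ := Rok_ex c
  have h1 : Tendsto (fun n : ℕ => Real.exp ((8 + 2 * Bc c) * Real.exp (-(n:ℝ)))) atTop
      (𝓝 (Real.exp ((8 + 2 * Bc c) * 0))) := by
    refine (Real.continuous_exp.tendsto _).comp (Tendsto.const_mul _ ?_)
    exact Real.tendsto_exp_neg_atTop_nhds_zero.comp tendsto_natCast_atTop_atTop
  rw [mul_zero, Real.exp_zero] at h1
  obtain ⟨n, hn1, hn2⟩ := ((h1.eventually (gt_mem_nhds (show (1:ℝ) < 1 + κ by linarith))).and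
    (eventually_ge_atTop R0)).exists
  exact ⟨n, Rok_mono hR0 hn2, hn1.le⟩

/-- conditions on `T` used for the window -/
structure TC (ηm q : ℝ) (Rs : ℕ) (T : ℝ) (k : ℕ) : Prop where
  k8 : 8 ≤ k
  rng : ∀ x ∈ Set.Ioc (T ^ ((3:ℝ)/4) / 2) (8 * T), Rng x k
  lg : ∀ x ∈ Set.Ioc (T ^ ((3:ℝ)/4) / 2) (8 * T), 1 / 2 * Real.log T ≤ Real.log x
  yf : ∀ x ∈ Set.Ioc (T ^ ((3:ℝ)/4) / 2) (8 * T), |Real.log (Yf k x) + Ck k| ≤ 8 * Real.log T

lemma TC_ev (ηm q : ℝ) (Rs : ℕ) : ∀ᶠ T : ℝ in atTop, ∃ k : ℕ, TC ηm q Rs T k := by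
  have hlog := Real.tendsto_log_atTop
  have h1 : ∀ᶠ T : ℝ in atTop, Real.log T ^ 2 * 4 + 10 * Real.log T + 20 ≤ T := by
    have a1 := (Real.isLittleO_pow_log_id_atTop (n := 2)).def (show (0:ℝ) < 1 / 16 by norm_num)
    filter_upwards [a1, hlog.eventually_ge_atTop 10, eventually_gt_atTop 0] with T h2 h3 h4
    simp only [id, Real.norm_eq_abs] at h2
    rw [abs_of_nonneg (by positivity), abs_of_pos h4] at h2
    nlinarith
  filter_upwards [h1, hlog.eventually_ge_atTop 10, eventually_gt_atTop 0] with T hT1 hL hT0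
  set L := Real.log T with hLd
  have hl8 : Real.log (8 * T) = Real.log 8 + L := Real.log_mul (by norm_num) hT0.ne'
  have hlog2 := Real.log_two_lt_d9
  have hlog2' := Real.log_two_gt_d9
  have h8 : Real.log 8 = 3 * Real.log 2 := by
    rw [show (8:ℝ) = 2 ^ 3 by norm_num, Real.log_pow]; norm_num
  refine ⟨⌈(Real.log (8 * T)) ^ 2⌉₊, ?_⟩
  set k := ⌈(Real.log (8 * T)) ^ 2⌉₊ with hk
  have k1 : (Real.log (8 * T)) ^ 2 ≤ k := Nat.le_ceil _
  have k2 : (k:ℝ) < (Real.log (8 * T)) ^ 2 + 1 := Nat.ceil_lt_add_one (by positivity)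
  have hlx : ∀ x ∈ Set.Ioc (T ^ ((3:ℝ)/4) / 2) (8 * T), 3 / 4 * L - Real.log 2 ≤ Real.log x ∧
      Real.log x ≤ Real.log (8 * T) ∧ 0 < x := by
    intro x hx
    have hx0 : 0 < x := lt_of_le_of_lt (by positivity) hx.1
    refine ⟨?_, Real.log_le_log hx0 hx.2, hx0⟩
    have := Real.log_le_log (by positivity) hx.1.le
    rwa [Real.log_div (by positivity) (by norm_num), Real.log_rpow hT0] at this
  have hk4 : (k:ℝ) ≤ 8 * T := by
    rw [hl8, h8] at k2
    nlinarith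
  refine ⟨?_, ?_, ?_, ?_⟩
  · have : (8:ℝ) ≤ k := by
      refine le_trans ?_ k1
      rw [hl8, h8]
      nlinarith
    exact_mod_cast this
  · intro x hx
    obtain ⟨h2, h3, h4⟩ := hlx x hx
    have h5 : 0 < Real.log x := by nlinarith
    constructor
    · exact (pow_le_pow_left₀ h5.le h3 2).trans k1
    · refine k2.le.trans ?_
      rw [hl8, h8]
      have h6 : (3 / 4 * L - Real.log 2) ^ 2 ≤ Real.log x ^ 2 := pow_le_pow_left₀ (by nlinarith) h2 2
      nlinarith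
  · intro x hx
    obtain ⟨h2, h3, h4⟩ := hlx x hx
    linarith
  · intro x hx
    obtain ⟨h2, h3, h4⟩ := hlx x hx
    have hk0 : (0:ℝ) < k := lt_of_lt_of_le (by rw [hl8, h8]; nlinarith) k1
    have e1 : Real.log (Yf k x) = Real.log x - (Real.log (2 * Real.pi) + Real.log k) := by
      unfold Yf
      rw [Real.log_div h4.ne' (by positivity), Real.log_mul (by positivity) hk0.ne']
    have hk1 : (1:ℝ) ≤ k := by
      refine le_trans ?_ k1
      rw [hl8, h8]
      nlinarith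
    have e2 : 0 ≤ Real.log k := Real.log_nonneg hk1
    have e3 : Real.log k ≤ Real.log (8 * T) := Real.log_le_log hk0 hk4
    have e4 : 0 ≤ Real.log (2 * Real.pi) := Real.log_nonneg (by have := Real.pi_gt_three; linarith)
    have e5 : Real.log (2 * Real.pi) ≤ Real.log 8 := Real.log_le_log (by positivity) (by
      have := Real.pi_lt_four; linarith)
    have e6 : Ck k ≤ 2 + Real.log k := by
      unfold Ck
      have a1 : (harmonic k : ℝ) ≤ 1 + Real.log k := harmonic_le_one_add_log k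
      have a2 := Real.eulerMascheroniConstant_lt_two_thirds
      linarith
    have e7 : 0 ≤ Ck k := by
      unfold Ck
      have a2 := Real.one_half_lt_eulerMascheroniConstant
      have a3 : (0:ℝ) ≤ (harmonic k : ℝ) := by
        unfold harmonic
        push_cast
        positivity
      linarith
    rw [e1, abs_le]
    constructor <;> linarith

set_option maxHeartbeats 4000000 in
theorem upper_nz {ε : ℝ} (hε : 0 < ε) : ∃ α₀ : ℝ, 0 < α₀ ∧ α₀ ≤ 1 / 16 ∧ ∀ᶠ T : ℝ in atTop, ∀ α : ℝ, 0 < α →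
    α ≤ α₀ → ∫ t in (0:ℝ)..T, zn (1 / 2) t ^ (2 * α) ≤ (1 + ε) * (T * Real.log T ^ (α ^ 2)) := by
  obtain ⟨c, hc, hrg⟩ := ranges
  obtain ⟨ηm, hηm, hmono⟩ := mono_moment
  set κ : ℝ := min ε 1 / 6 with hκd
  have hκ : 0 < κ := by rw [hκd]; have := lt_min hε one_pos; linarith
  have hκ1 : κ ≤ 1 := by rw [hκd]; have := min_le_right ε 1; linarith
  have hκε : 6 * κ ≤ ε := by rw [hκd]; have := min_le_left ε 1; linarith
  obtain ⟨Rs, hRs, hRs2⟩ := Rs_ex c κ hκ
  set q : ℝ := min ηm (1 / 4) with hq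
  have hq0 : 0 < q := lt_min hηm (by norm_num)
  have hq1 : q ≤ 1 / 4 := min_le_right _ _
  have hq2 : q ≤ ηm := min_le_left _ _
  have hRs0 : (0:ℝ) < (Rs:ℝ) + 1 := by positivity
  set η : ℝ := q / (4000 * ((Rs:ℝ) + 1)) with hη
  have hη0 : 0 < η := by positivity
  have hη1 : η ≤ 1 := by
    rw [hη, div_le_one (by positivity)]
    nlinarith
  have hηR : η * ((Rs:ℝ) + 1) = q / 4000 := by
    rw [hη]; field_simp
  have hB0 := Bc_pos c
  have hCl := Cl2_pos c
  set C6 : ℝ := (8 + 320 * ((Rs:ℝ) + 1) * Cl2 c) * (Real.exp (13 * c + 2 * Bc c) / η) with hC6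
  have hC60 : 0 < C6 := by positivity
  set α₀ : ℝ := min (1 / 16) (min (κ / (Real.exp 8 * 16 * (C6 + 2))) (κ / (26 * (c + 1)))) with hα₀
  have hα₀0 : 0 < α₀ := lt_min (by norm_num) (lt_min (by positivity) (by positivity))
  refine ⟨α₀, hα₀0, min_le_left _ _, ?_⟩
  have hlogt := Real.tendsto_log_atTop
  have ev1 : ∀ᶠ T : ℝ in atTop, ∀ x : ℝ, T ^ ((3:ℝ)/4) / 2 < x → ∀ k : ℕ, Rng x k → ∀ z : ℕ × ℕ,
      z.1 ≠ 0 → z.2 ≠ 0 → (z.1 : ℝ) ≤ x ^ ((1:ℝ) / 4) → (z.2 : ℝ) ≤ x ^ ((1:ℝ) / 4) →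
      |Zm k x z - Mn k x z| ≤ 2 * x ^ (-ηm) := by
    rw [eventually_atTop] at hmono
    obtain ⟨Y0, hY0⟩ := hmono
    have : Tendsto (fun T : ℝ => T ^ ((3:ℝ)/4) / 2) atTop atTop :=
      (tendsto_rpow_atTop (by norm_num)).atTop_div_const (by norm_num)
    filter_upwards [this.eventually_ge_atTop Y0] with T hT x hx
    exact hY0 x (hT.trans hx.le)
  have ev2 : ∀ᶠ T : ℝ in atTop, T ^ ((3:ℝ)/4) * (12 * (1 + T ^ ((3:ℝ)/4))) ^ ((1:ℝ)/8) ≤ κ * T := by
    have a1 : Tendsto (fun T : ℝ => T ^ (-(1:ℝ)/8)) atTop (𝓝 0) := by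
      have := tendsto_rpow_neg_atTop (y := 1 / 8) (by norm_num)
      refine this.congr fun T => ?_
      congr 1; norm_num
    filter_upwards [a1.eventually (gt_mem_nhds (show (0:ℝ) < κ / 24 by positivity)), eventually_ge_atTop 1]
      with T h1 h2
    have hT0 : 0 < T := by linarith
    have b1 : (12 * (1 + T ^ ((3:ℝ)/4))) ^ ((1:ℝ)/8) ≤ 24 * T ^ ((1:ℝ)/8) := by
      have b2 : 1 + T ^ ((3:ℝ)/4) ≤ 2 * T := by
        have : T ^ ((3:ℝ)/4) ≤ T ^ (1:ℝ) := Real.rpow_le_rpow_of_exponent_le h2 (by norm_num)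
        rw [Real.rpow_one] at this
        linarith
      calc (12 * (1 + T ^ ((3:ℝ)/4))) ^ ((1:ℝ)/8) ≤ (24 * T) ^ ((1:ℝ)/8) :=
            Real.rpow_le_rpow (by positivity) (by linarith) (by norm_num)
        _ = 24 ^ ((1:ℝ)/8) * T ^ ((1:ℝ)/8) := Real.mul_rpow (by norm_num) hT0.le
        _ ≤ 24 ^ (1:ℝ) * T ^ ((1:ℝ)/8) := by
            refine mul_le_mul_of_nonneg_right ?_ (by positivity)
            exact Real.rpow_le_rpow_of_exponent_le (by norm_num) (by norm_num)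
        _ = _ := by rw [Real.rpow_one]
    calc T ^ ((3:ℝ)/4) * (12 * (1 + T ^ ((3:ℝ)/4))) ^ ((1:ℝ)/8) ≤ T ^ ((3:ℝ)/4) * (24 * T ^ ((1:ℝ)/8)) := by
          gcongr
      _ = 24 * (T ^ ((3:ℝ)/4) * T ^ ((1:ℝ)/8)) := by ring
      _ = 24 * (T ^ (-(1:ℝ)/8) * T) := by
          rw [← Real.rpow_add hT0]
          nth_rewrite 3 [← Real.rpow_one T]
          rw [← Real.rpow_add hT0]
          norm_num
      _ ≤ 24 * (κ / 24 * T) := by gcongr
      _ = κ * T := by ring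
  have ev3 : ∀ᶠ T : ℝ in atTop, Real.exp 8 * (2 * T ^ ((1:ℝ)/2)) ≤ κ * T := by
    have a1 : Tendsto (fun T : ℝ => T ^ (-(1:ℝ)/2)) atTop (𝓝 0) := by
      have := tendsto_rpow_neg_atTop (y := 1 / 2) (by norm_num)
      refine this.congr fun T => ?_
      congr 1; norm_num
    filter_upwards [a1.eventually (gt_mem_nhds (show (0:ℝ) < κ / (Real.exp 8 * 2) by positivity)),
      eventually_ge_atTop 1] with T h1 h2
    have hT0 : 0 < T := by linarith
    calc Real.exp 8 * (2 * T ^ ((1:ℝ)/2)) = Real.exp 8 * 2 * (T ^ (-(1:ℝ)/2) * T) := by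
          nth_rewrite 3 [← Real.rpow_one T]
          rw [← Real.rpow_add hT0]
          norm_num
          ring
      _ ≤ Real.exp 8 * 2 * (κ / (Real.exp 8 * 2) * T) := by gcongr
      _ = κ * T := by field_simp
  filter_upwards [ev1, ev2, ev3, TC_ev ηm q Rs, hlogt.eventually_ge_atTop (Real.log 144 / η),
    hlogt.eventually_ge_atTop 10, eventually_ge_atTop 1] with T h1 h2 h3 h4 h5 h6 hT1 α hα hαα
  obtain ⟨k, hk⟩ := h4
  have hT0 : 0 < T := by linarith
  set L := Real.log T with hL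
  have hL0 : 0 < L := by linarith
  have hα16 : α ≤ 1 / 16 := hαα.trans (min_le_left _ _)
  set y : ℝ := Real.exp (η * L) with hy
  have hly : Real.log y = η * L := Real.log_exp _
  have hy144 : 144 ≤ y := by
    rw [hy, ← Real.log_le_iff_le_exp (by norm_num)]
    rw [div_le_iff₀ hη0] at h5
    linarith
  have hy1 : 1 ≤ y := by linarith
  obtain ⟨J, hJ1, -, -, hJ4⟩ := hrg y hy144
  set V := ∑ i ∈ range J, vI (II y i) with hV
  have hV0 : 0 ≤ V := sum_nonneg fun i _ => vI_nonneg _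
  have hlly : Real.log (Real.log y) = Real.log η + Real.log L := by
    rw [hly, Real.log_mul hη0.ne' hL0.ne']
  have hlη : Real.log η ≤ 0 := Real.log_nonpos hη0.le hη1
  rw [hlly, abs_le] at hJ4
  have hLL : 0 ≤ Real.log L := Real.log_nonneg (by linarith)
  have hα2 : 0 ≤ α ^ 2 := sq_nonneg α
  have hα21 : α ^ 2 ≤ 1 := by nlinarith
  have hLp : L ^ (α ^ 2) = Real.exp (α ^ 2 * Real.log L) := by
    rw [Real.rpow_def_of_pos hL0, mul_comm]
  have hLp1 : 1 ≤ L ^ (α ^ 2) := Real.one_le_rpow (by linarith) hα2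
  -- first average
  have hF := F_avg hy1 hJ1 hRs (a := α) (by rw [abs_of_pos hα]; linarith) hT0.le
  have hF2 : ∫ t in (0:ℝ)..T, gp J α (RR Rs) (II y) t ≤ T * (L ^ (α ^ 2) *
      Real.exp (13 * α ^ 2 * c + 2 * Bc c * Real.exp (-(Rs:ℝ)))) + 2 * T ^ ((1:ℝ)/2) := by
    refine hF.trans (add_le_add ?_ ?_)
    · refine mul_le_mul_of_nonneg_left ?_ hT0.le
      rw [hLp, ← Real.exp_add]
      refine Real.exp_le_exp.mpr ?_
      have : α ^ 2 * V ≤ α ^ 2 * (Real.log L + c) := mul_le_mul_of_nonneg_left (by linarith) hα2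
      rw [mul_add] at this
      linarith
    · refine mul_le_mul_of_nonneg_left ?_ (by norm_num)
      rw [hly, Real.rpow_def_of_pos hT0]
      refine Real.exp_le_exp.mpr ?_
      have : η * L * (400 * ((Rs:ℝ) + 1)) = 400 * (η * ((Rs:ℝ) + 1)) * L := by ring
      rw [this, hηR]
      have h9 : 400 * (q / 4000) * L ≤ 1 / 2 * L := mul_le_mul_of_nonneg_right (by linarith) hL0.le
      linarith
  -- second average
  set A : ℝ := T ^ ((3:ℝ)/4) with hA
  have hA0 : 0 < A := by positivity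
  have hAT : A ≤ T := by
    have : T ^ ((3:ℝ)/4) ≤ T ^ (1:ℝ) := Real.rpow_le_rpow_of_exponent_le hT1 (by norm_num)
    rwa [Real.rpow_one] at this
  have hcα : |(-(1 - α))| ≤ 1 := by rw [abs_neg, abs_of_pos (by linarith)]; linarith
  have hP : ∀ i, ∀ p ∈ II y i, p.Prime := fun i p hp => (hJ1.pr i p hp).1
  have hgB := GP_Bd (Rs := Rs) hy1 hJ1 (-(1 - α))
  have hgc : Continuous fun t => gp J (-(1 - α)) (RR Rs) (II y) t := by
    have := ev_re_cont hgB
    refine this.congr fun t => ?_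
    rw [ev_GP t J _ _ hP, Complex.ofReal_re]
  have hgb : ∀ t, |gp J (-(1 - α)) (RR Rs) (II y) t| ≤ l1 (GP J (-(1 - α)) (RR Rs) (II y)) := by
    intro t
    have := ev_re_le hgB t
    rwa [ev_GP t J _ _ hP, Complex.ofReal_re] at this
  have hgb2 : ∀ t, |gp J α (RR Rs) (II y) t| ≤ l1 (GP J α (RR Rs) (II y)) := by
    intro t
    have := ev_re_le (GP_Bd (Rs := Rs) hy1 hJ1 α) t
    rwa [ev_GP t J _ _ hP, Complex.ofReal_re] at this
  have hgc2 : Continuous fun t => gp J α (RR Rs) (II y) t := by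
    have := ev_re_cont (GP_Bd (Rs := Rs) hy1 hJ1 α)
    refine this.congr fun t => ?_
    rw [ev_GP t J _ _ hP, Complex.ofReal_re]
  have hexpV : Real.exp ((2 * (-(1 - α)) + (-(1 - α)) ^ 2) * V + 12 * c + 2 * Bc c) ≤
      L ^ (α ^ 2) / L * (Real.exp (13 * c + 2 * Bc c) / η) := by
    have e1 : (2 * (-(1 - α)) + (-(1 - α)) ^ 2) * V ≤ -Real.log L + α ^ 2 * Real.log L + c - Real.log η := by
      have : (2 * (-(1 - α)) + (-(1 - α)) ^ 2) = -(1 - α ^ 2) := by ring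
      rw [this]
      have h7 : (1 - α ^ 2) * (Real.log η + Real.log L - c) ≤ (1 - α ^ 2) * V :=
        mul_le_mul_of_nonneg_left (by linarith [hJ4.1]) (by linarith)
      have h8 : (1 - α ^ 2) * (Real.log η + Real.log L - c) = Real.log η - α ^ 2 * Real.log η +
        Real.log L - α ^ 2 * Real.log L - c + α ^ 2 * c := by ring
      have h9 : α ^ 2 * Real.log η ≤ 0 := mul_nonpos_of_nonneg_of_nonpos hα2 hlη
      have h10 : 0 ≤ α ^ 2 * c := mul_nonneg hα2 hc
      linarith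
    have e2 : L ^ (α ^ 2) / L * (Real.exp (13 * c + 2 * Bc c) / η) =
        Real.exp (α ^ 2 * Real.log L - Real.log L + (13 * c + 2 * Bc c) - Real.log η) := by
      rw [Real.exp_sub, Real.exp_add (α ^ 2 * Real.log L - Real.log L), Real.exp_sub, Real.exp_log hL0,
        Real.exp_log hη0, hLp]
      ring
    rw [e2]
    exact Real.exp_le_exp.mpr (by linarith)
  have hS : ∀ x ∈ Set.Ioc (A / 2) (8 * T), ∫ t in Set.Ioi (0:ℝ), wz k x t * gp J (-(1 - α)) (RR Rs) (II y) t ≤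
      (C6 + 2) * L ^ (α ^ 2) := by
    intro x hx
    have hx0 : 0 < x := by have := hx.1; linarith
    have hlx := hk.lg x hx
    have hm := h1 x hx.1 k (hk.rng x hx)
    have hxl : Real.exp (Real.log y * (160 * ((Rs:ℝ) + 1))) ≤ x ^ ((1:ℝ)/4) := by
      rw [Real.rpow_def_of_pos hx0]
      refine Real.exp_le_exp.mpr ?_
      rw [hly]
      have : η * L * (160 * ((Rs:ℝ) + 1)) = 160 * (η * ((Rs:ℝ) + 1)) * L := by ring
      rw [this, hηR]
      have h9 : 160 * (q / 4000) * L ≤ 1 / 8 * L := mul_le_mul_of_nonneg_right (by linarith) hL0.le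
      linarith
    have hG := G_avg hc hy1 hJ1 hRs hcα hx0 (by have := hk.k8; omega) (e := 2 * x ^ (-ηm)) (by positivity)
      (fun z z1 z2 z3 z4 => hm z z1 z2 (z3.trans hxl) (z4.trans hxl))
    refine hG.trans ?_
    have g1 : (|Real.log (Yf k x) + Ck k| + 320 * ((Rs:ℝ) + 1) * Cl2 c * Real.log y) *
        Real.exp ((2 * (-(1 - α)) + (-(1 - α)) ^ 2) * V + 12 * c + 2 * Bc c) ≤ C6 * L ^ (α ^ 2) := by
      have g2 : |Real.log (Yf k x) + Ck k| + 320 * ((Rs:ℝ) + 1) * Cl2 c * Real.log y ≤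
          (8 + 320 * ((Rs:ℝ) + 1) * Cl2 c) * L := by
        rw [hly]
        have := hk.yf x hx
        have g3 : 320 * ((Rs:ℝ) + 1) * Cl2 c * (η * L) ≤ 320 * ((Rs:ℝ) + 1) * Cl2 c * (1 * L) := by gcongr
        linarith
      calc _ ≤ (8 + 320 * ((Rs:ℝ) + 1) * Cl2 c) * L * (L ^ (α ^ 2) / L * (Real.exp (13 * c + 2 * Bc c) / η)) :=
            mul_le_mul g2 hexpV (Real.exp_pos _).le (by positivity)
        _ = C6 * L ^ (α ^ 2) := by rw [hC6]; field_simp
    have g4 : 2 * x ^ (-ηm) * Real.exp (Real.log y * (240 * ((Rs:ℝ) + 1))) ≤ 2 * L ^ (α ^ 2) := by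
      have g5 : x ^ (-ηm) * Real.exp (Real.log y * (240 * ((Rs:ℝ) + 1))) ≤ 1 := by
        rw [Real.rpow_def_of_pos hx0, ← Real.exp_add]
        refine Real.exp_le_one_iff.mpr ?_
        rw [hly]
        have : η * L * (240 * ((Rs:ℝ) + 1)) = 240 * (η * ((Rs:ℝ) + 1)) * L := by ring
        rw [this, hηR]
        have g6 : ηm * (1 / 2 * L) ≤ ηm * Real.log x := mul_le_mul_of_nonneg_left hlx hηm.le
        have g7 : 240 * (q / 4000) * L ≤ ηm * (1 / 2) * L := mul_le_mul_of_nonneg_right (by linarith) hL0.le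
        linarith
      calc 2 * x ^ (-ηm) * Real.exp (Real.log y * (240 * ((Rs:ℝ) + 1))) =
          2 * (x ^ (-ηm) * Real.exp (Real.log y * (240 * ((Rs:ℝ) + 1)))) := by ring
        _ ≤ 2 * L ^ (α ^ 2) := by linarith
    calc _ ≤ C6 * L ^ (α ^ 2) + 2 * L ^ (α ^ 2) := add_le_add g1 g4
      _ = _ := by ring
  have hG := win hgc (fun t => gp_nonneg J _ _ _ t) hgb hk.k8 hA0 hAT (by positivity) hS
  -- pointwise and integrate
  have cz : Continuous fun t => zn (1 / 2) t := zn_cont (by norm_num)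
  have cz2 : Continuous fun t => zn (1 / 2) t ^ (2 * α) :=
    cz.rpow_const fun _ => Or.inr (by positivity)
  set P : ℝ := Real.exp (-(8 * Real.exp (-(Rs:ℝ)))) with hP'
  have hP0 : 0 < P := Real.exp_pos _
  have hint : P * ∫ t in A..T, zn (1 / 2) t ^ (2 * α) ≤
      α * (∫ t in A..T, ‖riemannZeta (cl t)‖ ^ 2 * gp J (-(1 - α)) (RR Rs) (II y) t) +
      (1 - α) * ∫ t in A..T, gp J α (RR Rs) (II y) t := by
    have i1 : IntervalIntegrable (fun t => α * (zn (1 / 2) t ^ 2 * gp J (-(1 - α)) (RR Rs) (II y) t))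
      volume A T := (continuous_const.mul ((cz.pow 2).mul hgc)).intervalIntegrable _ _
    have i2 : IntervalIntegrable (fun t => (1 - α) * gp J α (RR Rs) (II y) t)
      volume A T := (continuous_const.mul hgc2).intervalIntegrable _ _
    rw [← intervalIntegral.integral_const_mul, ← intervalIntegral.integral_const_mul,
      ← intervalIntegral.integral_const_mul]
    simp_rw [← zn_cl]
    rw [← intervalIntegral.integral_add i1 i2]
    refine intervalIntegral.integral_mono_on hAT ((continuous_const.mul cz2).intervalIntegrable _ _)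
      (i1.add i2) fun t _ => ?_
    exact prod_star hα (by linarith) hRs.1 (II y) t (zn (1 / 2) t) (zn_nonneg _ _)
  have hsub : ∫ t in A..T, gp J α (RR Rs) (II y) t ≤ ∫ t in (0:ℝ)..T, gp J α (RR Rs) (II y) t := by
    have := intervalIntegral.integral_add_adjacent_intervals (hgc2.intervalIntegrable 0 A)
      (hgc2.intervalIntegrable A T) (μ := volume)
    have h0 : 0 ≤ ∫ t in (0:ℝ)..A, gp J α (RR Rs) (II y) t :=
      intervalIntegral.integral_nonneg hA0.le fun t _ => gp_nonneg J _ _ _ t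
    linarith
  have hlow : ∫ t in (0:ℝ)..A, zn (1 / 2) t ^ (2 * α) ≤ κ * T := by
    refine le_trans ?_ h2
    have b1 : ∀ t ∈ Set.Icc 0 A, zn (1 / 2) t ^ (2 * α) ≤ (12 * (1 + A)) ^ ((1:ℝ)/8) := by
      intro t ht
      have b2 := zn_le' (σ := 1 / 2) (t := t) (by norm_num) (by norm_num)
      rw [abs_of_nonneg ht.1] at b2
      calc zn (1 / 2) t ^ (2 * α) ≤ (12 * (1 + A)) ^ (2 * α) :=
            Real.rpow_le_rpow (zn_nonneg _ _) (by linarith [ht.2]) (by positivity)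
        _ ≤ _ := Real.rpow_le_rpow_of_exponent_le (by linarith) (by linarith)
    calc ∫ t in (0:ℝ)..A, zn (1 / 2) t ^ (2 * α) ≤ ∫ _ in (0:ℝ)..A, (12 * (1 + A)) ^ ((1:ℝ)/8) :=
          intervalIntegral.integral_mono_on hA0.le (cz2.intervalIntegrable _ _)
            (continuous_const.intervalIntegrable _ _) b1
      _ = _ := by rw [intervalIntegral.integral_const, sub_zero, smul_eq_mul]
  have hsplit := intervalIntegral.integral_add_adjacent_intervals (cz2.intervalIntegrable 0 A)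
      (cz2.intervalIntegrable A T) (μ := volume)
  set Z := ∫ t in A..T, zn (1 / 2) t ^ (2 * α) with hZ
  set M := T * L ^ (α ^ 2) with hM
  have hMT : T ≤ M := le_mul_of_one_le_right hT0.le hLp1
  have hM0 : 0 < M := by linarith
  -- combine
  have c1 : P * Z ≤ α * (16 * T * ((C6 + 2) * L ^ (α ^ 2))) +
      (T * (L ^ (α ^ 2) * Real.exp (13 * α ^ 2 * c + 2 * Bc c * Real.exp (-(Rs:ℝ)))) + 2 * T ^ ((1:ℝ)/2)) := by
    have hI0 : 0 ≤ ∫ t in A..T, gp J α (RR Rs) (II y) t :=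
      intervalIntegral.integral_nonneg hAT fun t _ => gp_nonneg J _ _ _ t
    have : (1 - α) * ∫ t in A..T, gp J α (RR Rs) (II y) t ≤ 1 * ∫ t in A..T, gp J α (RR Rs) (II y) t :=
      mul_le_mul_of_nonneg_right (by linarith) hI0
    have h8 := mul_le_mul_of_nonneg_left hG hα.le
    linarith
  have hPi : P⁻¹ = Real.exp (8 * Real.exp (-(Rs:ℝ))) := by rw [hP', ← Real.exp_neg, neg_neg]
  have hx1 : Real.exp (-(Rs:ℝ)) ≤ 1 := Real.exp_le_one_iff.mpr (by simp)
  have hPi8 : P⁻¹ ≤ Real.exp 8 := by rw [hPi]; exact Real.exp_le_exp.mpr (by linarith)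
  have c2 : Z ≤ P⁻¹ * (α * (16 * T * ((C6 + 2) * L ^ (α ^ 2))) +
      (T * (L ^ (α ^ 2) * Real.exp (13 * α ^ 2 * c + 2 * Bc c * Real.exp (-(Rs:ℝ)))) + 2 * T ^ ((1:ℝ)/2))) := by
    rw [← div_eq_inv_mul, le_div_iff₀ hP0]
    linarith
  have c3 : P⁻¹ * (α * (16 * T * ((C6 + 2) * L ^ (α ^ 2)))) ≤ κ * M := by
    have d1 : α ≤ κ / (Real.exp 8 * 16 * (C6 + 2)) :=
      hαα.trans ((min_le_right _ _).trans (min_le_left _ _))
    rw [le_div_iff₀ (by positivity)] at d1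
    calc P⁻¹ * (α * (16 * T * ((C6 + 2) * L ^ (α ^ 2)))) ≤
        Real.exp 8 * (α * (16 * T * ((C6 + 2) * L ^ (α ^ 2)))) :=
          mul_le_mul_of_nonneg_right hPi8 (by positivity)
      _ = α * (Real.exp 8 * 16 * (C6 + 2)) * M := by rw [hM]; ring
      _ ≤ κ * M := mul_le_mul_of_nonneg_right d1 hM0.le
  have c4 : P⁻¹ * (T * (L ^ (α ^ 2) * Real.exp (13 * α ^ 2 * c + 2 * Bc c * Real.exp (-(Rs:ℝ))))) ≤
      (1 + κ) * (1 + κ) * M := by
    have d1 : P⁻¹ * Real.exp (13 * α ^ 2 * c + 2 * Bc c * Real.exp (-(Rs:ℝ))) =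
        Real.exp ((8 + 2 * Bc c) * Real.exp (-(Rs:ℝ))) * Real.exp (13 * α ^ 2 * c) := by
      rw [hPi, ← Real.exp_add, ← Real.exp_add]; congr 1; ring
    have d2 : Real.exp (13 * α ^ 2 * c) ≤ 1 + κ := by
      have d3 : α ≤ κ / (26 * (c + 1)) := hαα.trans ((min_le_right _ _).trans (min_le_right _ _))
      rw [le_div_iff₀ (by positivity)] at d3
      have d40 : α ^ 2 ≤ α := by nlinarith
      have d41 : 13 * α ^ 2 * c ≤ 13 * α * c := by gcongr
      have d4 : 13 * α ^ 2 * c ≤ κ / 2 := by linarith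
      have d5 : 0 ≤ 13 * α ^ 2 * c := by positivity
      have d6 := Real.exp_bound' (x := 13 * α ^ 2 * c) d5 (by linarith) (n := 1) (by norm_num)
      norm_num at d6
      linarith
    calc _ = (P⁻¹ * Real.exp (13 * α ^ 2 * c + 2 * Bc c * Real.exp (-(Rs:ℝ)))) * M := by rw [hM]; ring
      _ ≤ (1 + κ) * (1 + κ) * M := by
        rw [d1]
        refine mul_le_mul_of_nonneg_right ?_ hM0.le
        exact mul_le_mul hRs2 d2 (Real.exp_pos _).le (by linarith)
  have c5 : P⁻¹ * (2 * T ^ ((1:ℝ)/2)) ≤ κ * M := by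
    calc P⁻¹ * (2 * T ^ ((1:ℝ)/2)) ≤ Real.exp 8 * (2 * T ^ ((1:ℝ)/2)) :=
          mul_le_mul_of_nonneg_right hPi8 (by positivity)
      _ ≤ κ * T := h3
      _ ≤ κ * M := mul_le_mul_of_nonneg_left hMT hκ.le
  have c6 : κ * T ≤ κ * M := mul_le_mul_of_nonneg_left hMT hκ.le
  have c7 : Z ≤ κ * M + ((1 + κ) * (1 + κ) * M + κ * M) := by
    rw [mul_add, mul_add] at c2
    linarith
  rw [← hsplit]
  have c8 : (1 + κ) * (1 + κ) ≤ 1 + 3 * κ := by nlinarith
  have c9 : (1 + κ) * (1 + κ) * M ≤ (1 + 3 * κ) * M := mul_le_mul_of_nonneg_right c8 hM0.le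
  have c10 : 6 * κ * M ≤ ε * M := mul_le_mul_of_nonneg_right hκε hM0.le
  linarith

end Pool.Agent.W184.NZ
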