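import Pool.Agent.W184.NZ.Up1
import Pool.Agent.W184.NZ.AF3

set_option autoImplicit false

/-! The moment of the multiplier. -/

namespace Pool.Agent.W184.NZ

open Finset Filter MeasureTheory

lemma cl_tiny {K : ℕ} {b : ℝ} (hb : 0 ≤ b) (hb1 : b ≤ 1 / 3000) : Cl K b (4 * K) := by
  refine cl_gen (ρ := 4 * b * (K + 1)) ?_ ?_ ?_
  · rw [abs_of_nonneg hb]; push_cast; nlinarith
  · rw [div_le_iff₀ (by positivity)]
    have : (0:ℝ) ≤ K := Nat.cast_nonneg K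
    nlinarith
  · have h1 := Real.pow_div_factorial_le_exp (((K + 1 : ℕ) : ℝ)) (by positivity) (K + 1)
    have h2 : (4 * b * ((K:ℝ) + 1)) ^ (K + 1) / ((K + 1).factorial : ℝ) ≤ (4 * b) ^ (K + 1) * Real.exp ((K + 1 : ℕ) : ℝ) := by
      rw [mul_pow, mul_div_assoc]
      push_cast at h1 ⊢
      exact mul_le_mul_of_nonneg_left h1 (by positivity)
    have h3 : (4 * b) ^ (K + 1) * Real.exp ((K + 1 : ℕ) : ℝ) ≤ Real.exp (-(5 * ((K:ℝ) + 1))) := by
      have e5 : Real.exp 1 ^ 6 ≤ 500 := by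
        have := Real.exp_one_lt_d9
        calc Real.exp 1 ^ 6 ≤ (2.7182818286:ℝ) ^ 6 := pow_le_pow_left₀ (Real.exp_pos _).le this.le 6
          _ ≤ 500 := by norm_num
      have e6 : 4 * b * Real.exp 1 ≤ Real.exp (-5) := by
        have h7 : Real.exp (-5) * Real.exp 1 ^ 6 = Real.exp 1 := by
          rw [← Real.exp_nat_mul, ← Real.exp_add]; norm_num
        have h8 : 0 < Real.exp (-5) := Real.exp_pos _
        have h9 : Real.exp 1 ≤ Real.exp (-5) * 500 := by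
          rw [← h7]; exact mul_le_mul_of_nonneg_left e5 h8.le
        have h10 : 0 < Real.exp 1 := Real.exp_pos _
        nlinarith
      rw [← Real.exp_one_pow, ← mul_pow]
      calc (4 * b * Real.exp 1) ^ (K + 1) ≤ Real.exp (-5) ^ (K + 1) :=
            pow_le_pow_left₀ (by positivity) e6 _
        _ = Real.exp (-(5 * ((K:ℝ) + 1))) := by rw [← Real.exp_nat_mul]; congr 1; push_cast; ring
    have h4 : (2:ℝ) ≤ Real.exp 1 := by have := Real.exp_one_gt_d9; linarith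
    calc (4 * b * ((K:ℝ) + 1)) ^ (K + 1) / ((K + 1).factorial : ℝ) * 2 * Real.exp (4 * b * ((K:ℝ) + 1)) ≤
        Real.exp (-(5 * ((K:ℝ) + 1))) * Real.exp 1 * Real.exp (4 * b * ((K:ℝ) + 1)) := by
          gcongr
          exact h2.trans h3
      _ = Real.exp (-(5 * ((K:ℝ) + 1)) + 1 + 4 * b * ((K:ℝ) + 1)) := by rw [← Real.exp_add, ← Real.exp_add]
      _ ≤ Real.exp (-((4 * K : ℕ) : ℝ)) := by
        refine Real.exp_le_exp.mpr ?_
        push_cast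
        have : (0:ℝ) ≤ K := Nat.cast_nonneg K
        nlinarith

lemma far_NK {K : ℕ} (hK : 1 ≤ K) {b : ℝ} (hb : 0 ≤ b) {z : ℂ} (hz : 4 * (K:ℝ) < ‖z‖) :
    ‖NK K b z‖ ≤ (‖z‖ / (4 * K)) ^ K * Real.exp (4 * K * b) := by
  have hK0 : (0:ℝ) < K := by exact_mod_cast hK
  have h1 : 1 ≤ ‖z‖ / (4 * K) := by rw [le_div_iff₀ (by positivity)]; linarith
  rw [NK_eq]
  refine (norm_sum_le _ _).trans ?_
  have h2 : ∀ m ∈ range (K + 1), ‖((b:ℂ) * z) ^ m / (m.factorial : ℂ)‖ ≤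
      (‖z‖ / (4 * K)) ^ K * ((4 * K * b) ^ m / (m.factorial : ℝ)) := by
    intro m hm
    rw [mem_range] at hm
    rw [norm_div, norm_pow, norm_mul, Complex.norm_real, Real.norm_of_nonneg hb]
    simp only [Complex.norm_natCast]
    have e1 : b * ‖z‖ = (‖z‖ / (4 * K)) * (4 * K * b) := by field_simp
    rw [e1, mul_pow, mul_div_assoc]
    refine mul_le_mul_of_nonneg_right ?_ (by positivity)
    exact pow_le_pow_right₀ h1 (by omega)
  refine (sum_le_sum h2).trans ?_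
  rw [← mul_sum]
  exact mul_le_mul_of_nonneg_left (Real.sum_le_exp_of_nonneg (by positivity) (K + 1)) (by positivity)

theorem NK_pw {K : ℕ} (hK : 1 ≤ K) {b α q : ℝ} (hb : 0 ≤ b) (hb1 : b ≤ 1 / 3000) (hq : 0 ≤ q) (hq4 : q ≤ 4)
    (hα : 0 ≤ α) (hα1 : α ≤ 1) (hbq : b * q = 2 * α) (z : ℂ) :
    ‖NK K b z‖ ^ q ≤ Real.exp (8 * Real.exp (-(4 * (K:ℝ)))) * gf (20 * (2 * K)) α (2 * K) z := by
  have hK0 : (0:ℝ) < K := by exact_mod_cast hK
  have hK1 : (1:ℝ) ≤ K := by exact_mod_cast hK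
  set x := Real.exp (-(4 * (K:ℝ))) with hx
  have hx0 : 0 < x := Real.exp_pos _
  have hxn : Real.exp (-((4 * K : ℕ) : ℝ)) = x := by rw [hx]; congr 1; push_cast; ring
  have hx1 : x ≤ 1 / 2 := by
    have : x ≤ Real.exp (-1) := Real.exp_le_exp.mpr (by linarith)
    have h2 := Real.exp_neg_one_lt_d9
    linarith
  have he1 : 1 ≤ Real.exp (8 * x) := Real.one_le_exp (by positivity)
  unfold gf
  rcases le_or_gt ‖z‖ (4 * (K:ℝ)) with h | h
  · have hz : ‖z‖ ≤ ((4 * K : ℕ) : ℝ) := by push_cast; exact h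
    have c1 := NK_le_of_cl (cl_tiny (K := K) hb hb1) hz
    have c2 := NK_ge_of_cl (cl_ten (R := 4 * K) (by omega) (a := α) (by rw [abs_of_nonneg hα]; exact hα1)) hz
    rw [hxn] at c1 c2
    rw [show 10 * (4 * K) = 20 * (2 * K) by ring] at c2
    have hE : ‖Complex.exp ((b:ℂ) * z)‖ ^ q = ‖Complex.exp ((α:ℂ) * z)‖ ^ 2 := by
      rw [Complex.norm_exp, Complex.norm_exp, ← Real.exp_mul, ← Real.exp_nat_mul]
      congr 1
      simp only [Complex.mul_re, Complex.ofReal_re, Complex.ofReal_im, zero_mul, sub_zero]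
      push_cast
      linear_combination z.re * hbq
    have h1 : ‖NK K b z‖ ^ q ≤ (1 + x) ^ (4:ℕ) * ‖Complex.exp ((α:ℂ) * z)‖ ^ 2 := by
      calc ‖NK K b z‖ ^ q ≤ ((1 + x) * ‖Complex.exp ((b:ℂ) * z)‖) ^ q :=
            Real.rpow_le_rpow (norm_nonneg _) c1 hq
        _ = (1 + x) ^ q * ‖Complex.exp ((α:ℂ) * z)‖ ^ 2 := by
            rw [Real.mul_rpow (by positivity) (norm_nonneg _), hE]
        _ ≤ (1 + x) ^ (4:ℕ) * ‖Complex.exp ((α:ℂ) * z)‖ ^ 2 := by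
            refine mul_le_mul_of_nonneg_right ?_ (by positivity)
            rw [← Real.rpow_natCast]
            exact Real.rpow_le_rpow_of_exponent_le (by linarith) (by push_cast; exact hq4)
    have h2 : (1 + x) ^ (4:ℕ) ≤ Real.exp (4 * x) := by
      have := Real.add_one_le_exp x
      calc (1 + x) ^ (4:ℕ) ≤ Real.exp x ^ 4 := pow_le_pow_left₀ (by positivity) (by linarith) 4
        _ = Real.exp (4 * x) := by rw [← Real.exp_nat_mul]; norm_num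
    have h3 : Real.exp (-(2 * x)) ≤ 1 - x := by
      have h5 := Real.add_one_le_exp (2 * x)
      rw [Real.exp_neg, inv_le_comm₀ (Real.exp_pos _) (by linarith)]
      refine le_trans ?_ h5
      rw [inv_eq_one_div, div_le_iff₀ (by linarith)]
      nlinarith
    have h4 : ‖Complex.exp ((α:ℂ) * z)‖ ^ 2 ≤ Real.exp (4 * x) * ‖NK (20 * (2 * K)) α z‖ ^ 2 := by
      have h5 : ‖Complex.exp ((α:ℂ) * z)‖ ≤ Real.exp (2 * x) * ‖NK (20 * (2 * K)) α z‖ := by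
        calc ‖Complex.exp ((α:ℂ) * z)‖ = Real.exp (2 * x) * (Real.exp (-(2 * x)) * ‖Complex.exp ((α:ℂ) * z)‖) := by
              rw [← mul_assoc, ← Real.exp_add]; simp
          _ ≤ Real.exp (2 * x) * ((1 - x) * ‖Complex.exp ((α:ℂ) * z)‖) := by gcongr
          _ ≤ _ := mul_le_mul_of_nonneg_left c2 (Real.exp_pos _).le
      calc ‖Complex.exp ((α:ℂ) * z)‖ ^ 2 ≤ (Real.exp (2 * x) * ‖NK (20 * (2 * K)) α z‖) ^ 2 :=
            pow_le_pow_left₀ (norm_nonneg _) h5 2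
        _ = _ := by rw [mul_pow, ← Real.exp_nat_mul]; congr 2; push_cast; ring
    have h6 : 0 ≤ (‖z‖ / ((2 * K : ℕ) : ℝ)) ^ (2 * (2 * K)) := by positivity
    calc ‖NK K b z‖ ^ q ≤ (1 + x) ^ (4:ℕ) * ‖Complex.exp ((α:ℂ) * z)‖ ^ 2 := h1
      _ ≤ Real.exp (4 * x) * (Real.exp (4 * x) * ‖NK (20 * (2 * K)) α z‖ ^ 2) := by gcongr
      _ = Real.exp (8 * x) * ‖NK (20 * (2 * K)) α z‖ ^ 2 := by rw [← mul_assoc, ← Real.exp_add]; congr 2; ring
      _ ≤ Real.exp (8 * x) * (‖NK (20 * (2 * K)) α z‖ ^ 2 + (‖z‖ / ((2 * K : ℕ) : ℝ)) ^ (2 * (2 * K))) := by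
          refine mul_le_mul_of_nonneg_left ?_ (Real.exp_pos _).le
          linarith
  · have c1 := far_NK hK hb h
    have h1 : 1 ≤ ‖z‖ / (4 * K) := by rw [le_div_iff₀ (by positivity)]; linarith
    have h2 : 1 ≤ (‖z‖ / (4 * K)) ^ K * Real.exp (4 * K * b) :=
      one_le_mul_of_one_le_of_one_le (one_le_pow₀ h1) (Real.one_le_exp (by positivity))
    have h3 : ‖NK K b z‖ ^ q ≤ ((‖z‖ / (4 * K)) ^ K * Real.exp (4 * K * b)) ^ (4:ℕ) := by
      calc ‖NK K b z‖ ^ q ≤ ((‖z‖ / (4 * K)) ^ K * Real.exp (4 * K * b)) ^ q :=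
            Real.rpow_le_rpow (norm_nonneg _) c1 hq
        _ ≤ ((‖z‖ / (4 * K)) ^ K * Real.exp (4 * K * b)) ^ ((4:ℕ):ℝ) :=
            Real.rpow_le_rpow_of_exponent_le h2 (by push_cast; exact hq4)
        _ = _ := Real.rpow_natCast _ _
    have h4 : ((‖z‖ / (4 * K)) ^ K * Real.exp (4 * K * b)) ^ (4:ℕ) ≤ (‖z‖ / ((2 * K : ℕ) : ℝ)) ^ (2 * (2 * K)) := by
      have e1 : ‖z‖ / (4 * K) = (‖z‖ / ((2 * K : ℕ) : ℝ)) * (1 / 2) := by push_cast; field_simp; norm_num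
      rw [mul_pow, ← pow_mul, e1, mul_pow, show K * 4 = 2 * (2 * K) by ring, ← Real.exp_nat_mul, mul_assoc]
      refine mul_le_of_le_one_right (by positivity) ?_
      have e2 : Real.exp (((4:ℕ):ℝ) * (4 * K * b)) ≤ 2 ^ (2 * (2 * K)) := by
        have e3 : ((4:ℕ):ℝ) * (4 * K * b) ≤ ((2 * (2 * K) : ℕ) : ℝ) * (1 / 2) := by push_cast; nlinarith
        have e4 : Real.exp (1 / 2) ≤ 2 := by
          have := Real.exp_one_lt_d9
          have e5 : Real.exp (1 / 2) ^ 2 = Real.exp 1 := by rw [← Real.exp_nat_mul]; norm_num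
          nlinarith [Real.exp_pos (1 / 2)]
        calc Real.exp (((4:ℕ):ℝ) * (4 * K * b)) ≤ Real.exp (((2 * (2 * K) : ℕ) : ℝ) * (1 / 2)) :=
              Real.exp_le_exp.mpr e3
          _ = Real.exp (1 / 2) ^ (2 * (2 * K)) := by rw [Real.exp_nat_mul]
          _ ≤ _ := pow_le_pow_left₀ (Real.exp_pos _).le e4 _
      calc (1 / 2 : ℝ) ^ (2 * (2 * K)) * Real.exp (((4:ℕ):ℝ) * (4 * K * b)) ≤
          (1 / 2 : ℝ) ^ (2 * (2 * K)) * 2 ^ (2 * (2 * K)) := by gcongr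
        _ = 1 := by rw [← mul_pow]; norm_num
    have h5 : 0 ≤ ‖NK (20 * (2 * K)) α z‖ ^ 2 := by positivity
    have h6 : 0 ≤ (‖z‖ / ((2 * K : ℕ) : ℝ)) ^ (2 * (2 * K)) := by positivity
    calc ‖NK K b z‖ ^ q ≤ (‖z‖ / ((2 * K : ℕ) : ℝ)) ^ (2 * (2 * K)) := h3.trans h4
      _ ≤ 1 * (‖NK (20 * (2 * K)) α z‖ ^ 2 + (‖z‖ / ((2 * K : ℕ) : ℝ)) ^ (2 * (2 * K))) := by linarith
      _ ≤ _ := mul_le_mul_of_nonneg_right he1 (by linarith)

theorem Wf_pw {J Rs : ℕ} (hRs : 1 ≤ Rs) {I : ℕ → Finset ℕ} {b α q : ℝ} (hb : 0 ≤ b) (hb1 : b ≤ 1 / 3000)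
    (hq : 0 ≤ q) (hq4 : q ≤ 4) (hα : 0 ≤ α) (hα1 : α ≤ 1) (hbq : b * q = 2 * α) (t : ℝ) :
    ‖Wf J (fun i => Rs + i) b I (1 / 2 + t * Complex.I)‖ ^ q ≤
      Real.exp (16 * Real.exp (-(Rs:ℝ))) * gp J α (RR Rs) I t := by
  unfold Wf gp
  rw [norm_prod, ← Real.finsetProd_rpow _ _ fun i _ => norm_nonneg _]
  have h1 : ∀ i ∈ range J, ‖NK (Rs + i) b (PI (I i) (1 / 2 + t * Complex.I))‖ ^ q ≤
      Real.exp (8 * Real.exp (-((RR Rs i : ℕ):ℝ))) *
        gf (20 * RR Rs i) α (RR Rs i) (PI (I i) (1 / 2 + t * Complex.I)) := by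
    intro i _
    have h2 := NK_pw (K := Rs + i) (by omega) hb hb1 hq hq4 hα hα1 hbq (PI (I i) (1 / 2 + t * Complex.I))
    refine h2.trans ?_
    have e : RR Rs i = 2 * (Rs + i) := rfl
    rw [e]
    refine mul_le_mul_of_nonneg_right (Real.exp_le_exp.mpr ?_) (gf_nonneg _ _ _ _)
    refine mul_le_mul_of_nonneg_left (Real.exp_le_exp.mpr ?_) (by norm_num)
    push_cast
    have a1 : (0:ℝ) ≤ Rs := Nat.cast_nonneg _
    have a2 : (0:ℝ) ≤ i := Nat.cast_nonneg _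
    linarith
  refine (prod_le_prod (fun i _ => by positivity) h1).trans ?_
  rw [prod_mul_distrib, ← Real.exp_sum, ← mul_sum]
  refine mul_le_mul_of_nonneg_right (Real.exp_le_exp.mpr ?_) (prod_nonneg fun i _ => gf_nonneg _ _ _ _)
  have := sum_exp_le J Rs (RR_ge Rs)
  linarith

end Pool.Agent.W184.NZ
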