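import Pool.Agent.W184.NZ.Diag
import Pool.Agent.W184.NZ.WPt
import Pool.Agent.W184.NZ.HalfA
import Pool.Agent.W184.NZ.Up2

set_option autoImplicit false

/-! The twisted half-plane argument: preparations. -/

namespace Pool.Agent.W184.NZ

open Finset Filter MeasureTheory Topology
open Pool.Agent.H306R2 (dv dA dv_nonneg dv_sq_le Dp)
open Pool.Agent.W184 (zn zn_nonneg zn_cont zn_le' DS DS_norm_le DS_differentiable mv_DS dv_le_one qa qa_nonneg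
  qa_cont half_fixA zeta_sub_pow_le)

lemma PI_diff {I : Finset ℕ} (hI : ∀ p ∈ I, p.Prime) : Differentiable ℂ (PI I) := by
  unfold PI
  refine Differentiable.fun_sum fun p hp => ?_
  refine Differentiable.const_cpow (by fun_prop) (Or.inl ?_)
  exact_mod_cast (hI p hp).ne_zero

lemma Wf_diff {J : ℕ} {K : ℕ → ℕ} {b : ℝ} {I : ℕ → Finset ℕ} (hI : ∀ i, ∀ p ∈ I i, p.Prime) :
    Differentiable ℂ (Wf J K b I) := by
  unfold Wf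
  refine Differentiable.fun_finsetProd fun i _ => ?_
  unfold NK
  refine Differentiable.fun_sum fun k _ => ?_
  exact Differentiable.const_smul ((PI_diff (hI i)).pow k) (b ^ k / (k.factorial : ℝ))

section
variable {J N : ℕ} {K : ℕ → ℕ} {a b : ℝ} {I : ℕ → Finset ℕ} {bd : ℕ → ℝ}

lemma Wf_norm (hb : 0 ≤ b) (hb1 : b ≤ 1) (h1 : ∀ i, 1 ≤ bd i)
    (hI : ∀ i, ∀ p ∈ I i, p.Prime ∧ (p:ℝ) ≤ bd i) (hd : ∀ i j, i < j → Disjoint (I i) (I j)) {s : ℂ}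
    (hs : 0 ≤ s.re) : ‖Wf J K b I s‖ ≤ ∏ i ∈ range J, bd i ^ K i := by
  have hX0 : 0 ≤ ∏ i ∈ range J, bd i ^ K i := prod_nonneg fun i _ => pow_nonneg (by linarith [h1 i]) _
  have hS := WA_Sup J K hb hd
  rw [← (Dp_WA (b := b) h1 hI s).2]
  unfold Dp
  refine (norm_sum_le _ _).trans ?_
  calc ∑ n ∈ Icc 1 ⌊∏ i ∈ range J, bd i ^ K i⌋₊, ‖((WA J K b I n : ℝ) : ℂ) * (n : ℂ) ^ (-s)‖ ≤
      ∑ _n ∈ Icc 1 ⌊∏ i ∈ range J, bd i ^ K i⌋₊, (1:ℝ) := by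
        refine sum_le_sum fun n hn => ?_
        rw [mem_Icc] at hn
        rw [norm_mul, Complex.norm_real, Real.norm_of_nonneg (hS.nn n),
          Complex.norm_natCast_cpow_of_pos (by omega)]
        have e1 : (n:ℝ) ^ (-s).re ≤ 1 :=
          Real.rpow_le_one_of_one_le_of_nonpos (by exact_mod_cast hn.1) (by simpa using hs)
        have e2 : WA J K b I n ≤ 1 := (hS.le n).trans (dv_le_one hb hb1 n)
        calc WA J K b I n * (n:ℝ) ^ (-s).re ≤ 1 * 1 := mul_le_mul e2 e1 (by positivity) zero_le_one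
          _ = 1 := one_mul 1
    _ = (⌊∏ i ∈ range J, bd i ^ K i⌋₊ : ℝ) := by simp
    _ ≤ _ := Nat.floor_le hX0

lemma mvW (ha : 0 ≤ a) (hb : 0 ≤ b) (hab : a + b ≤ 1) (h1 : ∀ i, 1 ≤ bd i)
    (hI : ∀ i, ∀ p ∈ I i, p.Prime ∧ (p:ℝ) ≤ bd i) (hd : ∀ i j, i < j → Disjoint (I i) (I j))
    {σ : ℝ} (hσ : 1 / 2 ≤ σ) (A B : ℝ) :
    |(∫ t in A..B, ‖DS (dv a) N ((σ : ℂ) + t * Complex.I) * Wf J K b I ((σ : ℂ) + t * Complex.I)‖ ^ 2) -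
      (B - A) * ∑ n ∈ Icc 1 ⌊(N:ℝ) * ∏ i ∈ range J, bd i ^ K i⌋₊,
        cA a N J K b I n ^ 2 * (n : ℝ) ^ (-(2 * σ))| ≤
      6 * ⌊(N:ℝ) * ∏ i ∈ range J, bd i ^ K i⌋₊ * (1 + Real.log ⌊(N:ℝ) * ∏ i ∈ range J, bd i ^ K i⌋₊) := by
  have h := mv_DS (g := cA a N J K b I) (cA_nonneg ha hb hd)
    (fun n => (cA_le ha hb hd n).trans (dv_le_one (by positivity) hab n)) hσ
    ⌊(N:ℝ) * ∏ i ∈ range J, bd i ^ K i⌋₊ A B
  simp_rw [DS_cA h1 hI a] at h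
  exact h

lemma diag0 {C : ℝ} (hC : ∀ X : ℝ, 3 ≤ X → ∀ κ : ℝ, 0 ≤ κ → κ ≤ 1 →
    ∑ n ∈ Icc 1 ⌊X⌋₊, dv κ n / (n:ℝ) ≤ Real.exp (κ * (Real.log (Real.log X) + C)))
    (ha : 0 ≤ a) (hb : 0 ≤ b) (hab : a + b ≤ 1) (hd : ∀ i j, i < j → Disjoint (I i) (I j)) {X : ℝ} (hX : 3 ≤ X) :
    ∑ n ∈ Icc 1 ⌊X⌋₊, cA a N J K b I n ^ 2 * (n : ℝ) ^ (-(2 * (1 / 2 : ℝ))) ≤
      Real.exp ((a + b) ^ 2 * (Real.log (Real.log X) + C)) := by
  have h0 : 0 ≤ a + b := by positivity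
  refine le_trans ?_ (hC X hX ((a + b) ^ 2) (sq_nonneg _) (by nlinarith))
  refine sum_le_sum fun n hn => ?_
  rw [mem_Icc] at hn
  have e : (n:ℝ) ^ (-(2 * (1 / 2 : ℝ))) = 1 / n := by
    rw [show (-(2 * (1 / 2 : ℝ))) = -1 by norm_num, Real.rpow_neg_one, one_div]
  rw [e, mul_one_div]
  refine div_le_div_of_nonneg_right ?_ (Nat.cast_nonneg n)
  exact (pow_le_pow_left₀ (cA_nonneg ha hb hd n) (cA_le ha hb hd n) 2).trans (dv_sq_le h0 n)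

end

/-- powers: the twisted quantities -/
lemma pow_v {v : ℕ} (hv : 1 ≤ v) (z : ℂ) : ‖z ^ v‖ ^ (2 / (v:ℝ)) = ‖z‖ ^ 2 := by
  have hv0 : (v:ℝ) ≠ 0 := by exact_mod_cast (by omega : v ≠ 0)
  rw [norm_pow, ← Real.rpow_natCast, ← Real.rpow_mul (norm_nonneg _), mul_div_cancel₀ _ hv0,
    ← Real.rpow_natCast]
  norm_num

end Pool.Agent.W184.NZ
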