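import Pool.Agent.W184.NZ.Low1

set_option autoImplicit false

/-! The twisted half-plane argument. -/

namespace Pool.Agent.W184.NZ

open Finset Filter MeasureTheory Topology
open Pool.Agent.H306R2 (dv dA dv_nonneg dv_sq_le Dp)
open Pool.Agent.W184 (zn zn_nonneg zn_cont zn_le' DS DS_norm_le DS_differentiable mv_DS dv_le_one qa qa_nonneg
  qa_cont half_fixA zeta_sub_pow_le add_rpow_le')

lemma fac_ge {v : ℕ} (hv : 2 ≤ v) {Δ N : ℝ} (h0 : 0 < Δ) (h1 : Δ ≤ 1 / 16) (hN : 1 ≤ N) :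
    (1 - 8 * Δ) * Real.exp (-(32 * Δ)) * N ^ (Δ * (2 / (v:ℝ))) ≤
      ((1 - 8 * Δ) * N ^ Δ / (1 + Δ) ^ (2 * (8 * v))) ^ (2 / (v:ℝ)) := by
  have hv0 : (0:ℝ) < v := by exact_mod_cast (by omega : 0 < v)
  have hv2 : (2:ℝ) ≤ v := by exact_mod_cast hv
  have hp0 : 0 ≤ 2 / (v:ℝ) := by positivity
  have hp1 : 2 / (v:ℝ) ≤ 1 := by rw [div_le_one hv0]; exact hv2
  have h8 : 0 < 1 - 8 * Δ := by linarith
  have hN0 : 0 < N := by linarith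
  rw [Real.div_rpow (by positivity) (by positivity), Real.mul_rpow h8.le (by positivity),
    ← Real.rpow_mul hN0.le, ← Real.rpow_natCast (1 + Δ), ← Real.rpow_mul (by positivity)]
  have e1 : ((2 * (8 * v) : ℕ) : ℝ) * (2 / (v:ℝ)) = ((32 : ℕ) : ℝ) := by push_cast; field_simp; norm_num
  rw [e1, Real.rpow_natCast]
  have h2 : (1 - 8 * Δ) ≤ (1 - 8 * Δ) ^ (2 / (v:ℝ)) := by
    calc (1 - 8 * Δ) = (1 - 8 * Δ) ^ (1:ℝ) := (Real.rpow_one _).symm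
      _ ≤ _ := Real.rpow_le_rpow_of_exponent_ge h8 (by linarith) hp1
  have h3 : (1 + Δ) ^ 32 ≤ Real.exp (32 * Δ) := by
    have := Real.add_one_le_exp Δ
    calc (1 + Δ) ^ 32 ≤ Real.exp Δ ^ 32 := pow_le_pow_left₀ (by positivity) (by linarith) 32
      _ = Real.exp (32 * Δ) := by rw [← Real.exp_nat_mul]; norm_num
  rw [le_div_iff₀ (by positivity), Real.exp_neg]
  calc (1 - 8 * Δ) * (Real.exp (32 * Δ))⁻¹ * N ^ (Δ * (2 / (v:ℝ))) * (1 + Δ) ^ 32 ≤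
      (1 - 8 * Δ) * (Real.exp (32 * Δ))⁻¹ * N ^ (Δ * (2 / (v:ℝ))) * Real.exp (32 * Δ) := by gcongr
    _ = (1 - 8 * Δ) * N ^ (Δ * (2 / (v:ℝ))) := by
      have := Real.exp_pos (32 * Δ)
      field_simp
    _ ≤ _ := by gcongr

lemma err_le {T B Δ : ℝ} (hT : 1 ≤ T) (hΔ0 : 0 < Δ) (hΔ : 1 / Δ ≤ T) (hB0 : 0 ≤ B) (hB : B ≤ 14 * T ^ 2) :
    T * (B * (1 + T)) * (2 * Real.pi * (1 / Δ) * (T ^ ((1:ℝ)/4)) ^ (-(29:ℝ))) ≤ 200 := by
  have hT0 : 0 < T := by linarith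
  have hpi : Real.pi ≤ 3.15 := Real.pi_lt_d2.le
  have hpi0 := Real.pi_pos
  have e1 : (T ^ ((1:ℝ)/4)) ^ (-(29:ℝ)) = T ^ (-(29:ℝ) / 4) := by
    rw [← Real.rpow_mul hT0.le]; congr 1; ring
  have e2 : T ^ (-(29:ℝ) / 4) ≤ (T ^ 5)⁻¹ := by
    rw [← Real.rpow_natCast, ← Real.rpow_neg hT0.le]
    exact Real.rpow_le_rpow_of_exponent_le hT (by push_cast; norm_num)
  rw [e1]
  calc T * (B * (1 + T)) * (2 * Real.pi * (1 / Δ) * T ^ (-(29:ℝ) / 4)) ≤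
      T * (14 * T ^ 2 * (2 * T)) * (2 * 3.15 * T * (T ^ 5)⁻¹) := by
        gcongr
        linarith
    _ = 176.4 := by field_simp; norm_num
    _ ≤ 200 := by norm_num

/-- twisted `p`-th power of zeta -/
noncomputable def zw (v J : ℕ) (K : ℕ → ℕ) (b : ℝ) (I : ℕ → Finset ℕ) (σ t : ℝ) : ℝ :=
  zn σ t ^ (2 / (v:ℝ)) * ‖Wf J K b I ((σ : ℂ) + t * Complex.I)‖ ^ 2

/-- the polynomial -/
noncomputable def sw (v N J : ℕ) (K : ℕ → ℕ) (b : ℝ) (I : ℕ → Finset ℕ) (σ t : ℝ) : ℝ :=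
  ‖DS (dv (1 / (v:ℝ))) N ((σ : ℂ) + t * Complex.I) * Wf J K b I ((σ : ℂ) + t * Complex.I)‖ ^ 2

/-- the difference -/
noncomputable def dw (v N J : ℕ) (K : ℕ → ℕ) (b : ℝ) (I : ℕ → Finset ℕ) (σ t : ℝ) : ℝ :=
  qa (fun z => DS (dv (1 / (v:ℝ))) N z ^ v) (fun z => Wf J K b I z ^ v) (2 / (v:ℝ)) σ t

section
variable {v N J : ℕ} {K : ℕ → ℕ} {b : ℝ} {I : ℕ → Finset ℕ}

lemma zw_eq (hv : 2 ≤ v) (σ t : ℝ) :
    zw v J K b I σ t = ‖riemannZeta ((σ : ℂ) + t * Complex.I) * Wf J K b I ((σ : ℂ) + t * Complex.I) ^ v‖ ^ (2 / (v:ℝ)) := by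
  unfold zw zn
  rw [norm_mul, Real.mul_rpow (norm_nonneg _) (norm_nonneg _), pow_v (by omega)]

lemma zw_qa (hv : 2 ≤ v) (σ t : ℝ) :
    zw v J K b I σ t = qa (fun _ => 0) (fun z => Wf J K b I z ^ v) (2 / (v:ℝ)) σ t := by
  rw [zw_eq hv]
  unfold qa
  rw [sub_zero]

lemma sw_eq (hv : 2 ≤ v) (σ t : ℝ) :
    sw v N J K b I σ t = ‖DS (dv (1 / (v:ℝ))) N ((σ : ℂ) + t * Complex.I) ^ v *
      Wf J K b I ((σ : ℂ) + t * Complex.I) ^ v‖ ^ (2 / (v:ℝ)) := by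
  unfold sw
  rw [← mul_pow, pow_v (by omega)]

lemma pv (hv : 2 ≤ v) : 0 < 2 / (v:ℝ) ∧ 2 / (v:ℝ) ≤ 1 := by
  have hv0 : (0:ℝ) < v := by exact_mod_cast (by omega : 0 < v)
  have hv2 : (2:ℝ) ≤ v := by exact_mod_cast hv
  exact ⟨by positivity, by rw [div_le_one hv0]; exact hv2⟩

lemma tr3 (hv : 2 ≤ v) (σ t : ℝ) : sw v N J K b I σ t ≤ zw v J K b I σ t + dw v N J K b I σ t := by
  obtain ⟨h3, h4⟩ := pv hv
  rw [sw_eq hv, zw_eq hv]
  unfold dw qa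
  set s : ℂ := (σ : ℂ) + t * Complex.I
  set Q := DS (dv (1 / (v:ℝ))) N s ^ v
  set A := Wf J K b I s ^ v
  have h5 : ‖Q * A‖ ≤ ‖riemannZeta s * A‖ + ‖(riemannZeta s - Q) * A‖ := by
    have := norm_sub_le (riemannZeta s * A) ((riemannZeta s - Q) * A)
    rwa [show riemannZeta s * A - (riemannZeta s - Q) * A = Q * A by ring] at this
  exact (Real.rpow_le_rpow (norm_nonneg _) h5 h3.le).trans
    (add_rpow_le' (norm_nonneg _) (norm_nonneg _) h3.le h4)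

lemma tr2 (hv : 2 ≤ v) (σ t : ℝ) : dw v N J K b I σ t ≤ zw v J K b I σ t + sw v N J K b I σ t := by
  obtain ⟨h3, h4⟩ := pv hv
  rw [sw_eq hv, zw_eq hv]
  unfold dw qa
  set s : ℂ := (σ : ℂ) + t * Complex.I
  set Q := DS (dv (1 / (v:ℝ))) N s ^ v
  set A := Wf J K b I s ^ v
  have h5 : ‖(riemannZeta s - Q) * A‖ ≤ ‖riemannZeta s * A‖ + ‖Q * A‖ := by
    rw [sub_mul]; exact norm_sub_le _ _
  exact (Real.rpow_le_rpow (norm_nonneg _) h5 h3.le).trans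
    (add_rpow_le' (norm_nonneg _) (norm_nonneg _) h3.le h4)

lemma Wl_cont (hI : ∀ i, ∀ p ∈ I i, p.Prime) (σ : ℝ) :
    Continuous fun t : ℝ => Wf J K b I ((σ : ℂ) + t * Complex.I) :=
  (Wf_diff hI).continuous.comp (by fun_prop)

lemma zw_cont (hv : 2 ≤ v) (hI : ∀ i, ∀ p ∈ I i, p.Prime) {σ : ℝ} (hσ : σ < 1) :
    Continuous (zw v J K b I σ) := by
  obtain ⟨h3, h4⟩ := pv hv
  unfold zw
  exact ((zn_cont hσ).rpow_const fun _ => Or.inr h3.le).mul ((Wl_cont hI σ).norm.pow 2)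

lemma sw_cont (hI : ∀ i, ∀ p ∈ I i, p.Prime) (σ : ℝ) : Continuous (sw v N J K b I σ) := by
  unfold sw
  have h1 : Continuous fun t : ℝ => DS (dv (1 / (v:ℝ))) N ((σ : ℂ) + t * Complex.I) :=
    (DS_differentiable _ N).continuous.comp (by fun_prop)
  exact ((h1.mul (Wl_cont hI σ)).norm).pow 2

lemma dw_cont (hv : 2 ≤ v) (hI : ∀ i, ∀ p ∈ I i, p.Prime) {σ : ℝ} (hσ : σ < 1) :
    Continuous (dw v N J K b I σ) := by
  obtain ⟨h3, h4⟩ := pv hv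
  unfold dw
  exact qa_cont ((DS_differentiable _ N).pow v) ((Wf_diff hI).pow v) h3 hσ

lemma int_add_le' {f g h : ℝ → ℝ} (hf : Continuous f) (hg : Continuous g) (hh : Continuous h)
    {a b : ℝ} (hab : a ≤ b) (H : ∀ x, f x ≤ g x + h x) :
    ∫ t in a..b, f t ≤ (∫ t in a..b, g t) + ∫ t in a..b, h t := by
  rw [← intervalIntegral.integral_add (hg.intervalIntegrable _ _) (hh.intervalIntegrable _ _)]
  exact intervalIntegral.integral_mono hab (hf.intervalIntegrable _ _)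
    ((hg.add hh).intervalIntegrable _ _) H

variable {bd : ℕ → ℝ}

/-- pointwise bounds -/
lemma zw_le (hv : 2 ≤ v) (hb : 0 ≤ b) (hb1 : b ≤ 1) (h1 : ∀ i, 1 ≤ bd i)
    (hI : ∀ i, ∀ p ∈ I i, p.Prime ∧ (p:ℝ) ≤ bd i) (hd : ∀ i j, i < j → Disjoint (I i) (I j)) {T : ℝ}
    (hT : 1 ≤ T) (hX : ∏ i ∈ range J, bd i ^ K i ≤ T ^ ((1:ℝ)/8)) (x : ℝ) :
    zw v J K b I (1 / 2) x ≤ 13 * T ^ 2 * (1 + |x|) := by
  obtain ⟨h3, h4⟩ := pv hv
  have hT0 : 0 < T := by linarith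
  have hz := zn_le' (σ := 1 / 2) (t := x) (by norm_num) (by norm_num)
  have hz0 := zn_nonneg (1 / 2) x
  have e1 : zn (1 / 2) x ^ (2 / (v:ℝ)) ≤ 13 * (1 + |x|) := by
    have h5 : (1 + zn (1 / 2) x) ^ (2 / (v:ℝ)) ≤ (1 + zn (1 / 2) x) ^ (1:ℝ) :=
      Real.rpow_le_rpow_of_exponent_le (by linarith) h4
    have h6 : zn (1 / 2) x ^ (2 / (v:ℝ)) ≤ (1 + zn (1 / 2) x) ^ (2 / (v:ℝ)) :=
      Real.rpow_le_rpow hz0 (by linarith) h3.le
    rw [Real.rpow_one] at h5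
    have := abs_nonneg x
    linarith
  have hW := Wf_norm (K := K) (J := J) hb hb1 h1 hI hd (s := ((1 / 2 : ℝ) : ℂ) + x * Complex.I) (by simp)
  have e2 : ‖Wf J K b I (((1 / 2 : ℝ) : ℂ) + x * Complex.I)‖ ^ 2 ≤ T ^ 2 := by
    refine pow_le_pow_left₀ (norm_nonneg _) (hW.trans (hX.trans ?_)) 2
    calc T ^ ((1:ℝ)/8) ≤ T ^ (1:ℝ) := Real.rpow_le_rpow_of_exponent_le hT (by norm_num)
      _ = T := Real.rpow_one T
  unfold zw
  calc _ ≤ (13 * (1 + |x|)) * T ^ 2 := mul_le_mul e1 e2 (by positivity) (by positivity)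
    _ = _ := by ring

lemma sw_le (hv : 2 ≤ v) (hb : 0 ≤ b) (hb1 : b ≤ 1) (h1 : ∀ i, 1 ≤ bd i)
    (hI : ∀ i, ∀ p ∈ I i, p.Prime ∧ (p:ℝ) ≤ bd i) (hd : ∀ i j, i < j → Disjoint (I i) (I j)) {T : ℝ}
    (hT : 1 ≤ T) (hX : ∏ i ∈ range J, bd i ^ K i ≤ T ^ ((1:ℝ)/8)) (hN : (N:ℝ) ≤ T ^ ((1:ℝ)/2)) (x : ℝ) :
    sw v N J K b I (1 / 2) x ≤ T ^ 2 * (1 + |x|) := by
  have hv0 : (0:ℝ) < v := by exact_mod_cast (by omega : 0 < v)
  have hv2 : (2:ℝ) ≤ v := by exact_mod_cast hv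
  have hT0 : 0 < T := by linarith
  have hW := Wf_norm (K := K) (J := J) hb hb1 h1 hI hd (s := ((1 / 2 : ℝ) : ℂ) + x * Complex.I) (by simp)
  have ha : (0:ℝ) ≤ 1 / v := by positivity
  have ha1 : 1 / (v:ℝ) ≤ 1 := by rw [div_le_one hv0]; linarith
  have hD := DS_norm_le (g := dv (1 / (v:ℝ))) (fun n => dv_nonneg ha n) (fun n => dv_le_one ha ha1 n) N
    (s := ((1 / 2 : ℝ) : ℂ) + x * Complex.I) (by simp)
  unfold sw
  rw [norm_mul]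
  have e1 : ‖DS (dv (1 / (v:ℝ))) N (((1 / 2 : ℝ) : ℂ) + x * Complex.I)‖ *
      ‖Wf J K b I (((1 / 2 : ℝ) : ℂ) + x * Complex.I)‖ ≤ T := by
    calc _ ≤ T ^ ((1:ℝ)/2) * T ^ ((1:ℝ)/8) :=
          mul_le_mul (hD.trans hN) (hW.trans hX) (norm_nonneg _) (by positivity)
      _ = T ^ ((5:ℝ)/8) := by rw [← Real.rpow_add hT0]; norm_num
      _ ≤ T ^ (1:ℝ) := Real.rpow_le_rpow_of_exponent_le hT (by norm_num)
      _ = T := Real.rpow_one T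
  calc _ ≤ T ^ 2 := pow_le_pow_left₀ (by positivity) e1 2
    _ ≤ T ^ 2 * (1 + |x|) := le_mul_of_one_le_right (by positivity) (by linarith [abs_nonneg x])

/-- the edges -/
lemma zw_edge (hv : 16 ≤ v) (hb : 0 ≤ b) (hb1 : b ≤ 1) (h1 : ∀ i, 1 ≤ bd i)
    (hI : ∀ i, ∀ p ∈ I i, p.Prime ∧ (p:ℝ) ≤ bd i) (hd : ∀ i j, i < j → Disjoint (I i) (I j)) {T : ℝ}
    (hT : 1 ≤ T) (hX : ∏ i ∈ range J, bd i ^ K i ≤ T ^ ((1:ℝ)/8)) :
    (∫ t in (-(T ^ ((1:ℝ)/4)))..0, zw v J K b I (1 / 2) t) +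
      ∫ t in T..(T + T ^ ((1:ℝ)/4)), zw v J K b I (1 / 2) t ≤ 72 * T ^ ((5:ℝ)/8) := by
  have hT0 : 0 < T := by linarith
  have hU : T ^ ((1:ℝ)/4) ≤ T := by
    calc T ^ ((1:ℝ)/4) ≤ T ^ (1:ℝ) := Real.rpow_le_rpow_of_exponent_le hT (by norm_num)
      _ = T := Real.rpow_one T
  have hU0 : 0 < T ^ ((1:ℝ)/4) := by positivity
  have hv0 : (0:ℝ) < v := by exact_mod_cast (by omega : 0 < v)
  have hv16 : (16:ℝ) ≤ v := by exact_mod_cast hv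
  have hpt : ∀ x, |x| ≤ 2 * T → zw v J K b I (1 / 2) x ≤ 36 * T ^ ((3:ℝ)/8) := by
    intro x hx
    have hz := zn_le' (σ := 1 / 2) (t := x) (by norm_num) (by norm_num)
    have hz2 : zn (1 / 2) x ≤ 36 * T := by linarith
    have e1 : zn (1 / 2) x ^ (2 / (v:ℝ)) ≤ 36 * T ^ ((1:ℝ)/8) := by
      calc zn (1 / 2) x ^ (2 / (v:ℝ)) ≤ (36 * T) ^ (2 / (v:ℝ)) :=
            Real.rpow_le_rpow (zn_nonneg _ _) hz2 (by positivity)
        _ ≤ (36 * T) ^ ((1:ℝ)/8) := by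
            refine Real.rpow_le_rpow_of_exponent_le (by linarith) ?_
            rw [div_le_div_iff₀ hv0 (by norm_num)]; linarith
        _ = 36 ^ ((1:ℝ)/8) * T ^ ((1:ℝ)/8) := Real.mul_rpow (by norm_num) hT0.le
        _ ≤ 36 ^ (1:ℝ) * T ^ ((1:ℝ)/8) := by
            refine mul_le_mul_of_nonneg_right ?_ (by positivity)
            exact Real.rpow_le_rpow_of_exponent_le (by norm_num) (by norm_num)
        _ = _ := by rw [Real.rpow_one]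
    have hW := Wf_norm (K := K) (J := J) hb hb1 h1 hI hd (s := ((1 / 2 : ℝ) : ℂ) + x * Complex.I) (by simp)
    have e2 : ‖Wf J K b I (((1 / 2 : ℝ) : ℂ) + x * Complex.I)‖ ^ 2 ≤ T ^ ((1:ℝ)/4) := by
      calc _ ≤ (T ^ ((1:ℝ)/8)) ^ 2 := pow_le_pow_left₀ (norm_nonneg _) (hW.trans hX) 2
        _ = _ := by rw [← Real.rpow_natCast, ← Real.rpow_mul hT0.le]; norm_num
    unfold zw
    calc _ ≤ (36 * T ^ ((1:ℝ)/8)) * T ^ ((1:ℝ)/4) := mul_le_mul e1 e2 (by positivity) (by positivity)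
      _ = _ := by rw [mul_assoc, ← Real.rpow_add hT0]; norm_num
  have hc := zw_cont (v := v) (J := J) (K := K) (b := b) (I := I) (by omega) (fun i p hp => (hI i p hp).1)
    (σ := 1 / 2) (by norm_num)
  have i1 : ∫ t in (-(T ^ ((1:ℝ)/4)))..0, zw v J K b I (1 / 2) t ≤ T ^ ((1:ℝ)/4) * (36 * T ^ ((3:ℝ)/8)) := by
    calc _ ≤ ∫ _t in (-(T ^ ((1:ℝ)/4)))..0, 36 * T ^ ((3:ℝ)/8) :=
          intervalIntegral.integral_mono_on (by linarith) (hc.intervalIntegrable _ _)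
            (continuous_const.intervalIntegrable _ _) fun x hx => hpt x (by
              rw [abs_le]; constructor <;> linarith [hx.1, hx.2])
      _ = _ := by rw [intervalIntegral.integral_const, smul_eq_mul]; ring
  have i2 : ∫ t in T..(T + T ^ ((1:ℝ)/4)), zw v J K b I (1 / 2) t ≤ T ^ ((1:ℝ)/4) * (36 * T ^ ((3:ℝ)/8)) := by
    calc _ ≤ ∫ _t in T..(T + T ^ ((1:ℝ)/4)), 36 * T ^ ((3:ℝ)/8) :=
          intervalIntegral.integral_mono_on (by linarith) (hc.intervalIntegrable _ _)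
            (continuous_const.intervalIntegrable _ _) fun x hx => hpt x (by
              rw [abs_le]; constructor <;> linarith [hx.1, hx.2])
      _ = _ := by rw [intervalIntegral.integral_const, smul_eq_mul]; ring
  have e3 : T ^ ((1:ℝ)/4) * (36 * T ^ ((3:ℝ)/8)) = 36 * T ^ ((5:ℝ)/8) := by
    rw [mul_left_comm, ← Real.rpow_add hT0]; norm_num
  rw [e3] at i1 i2
  linarith

/-- zeta shifted to the right -/
theorem zw_half (hv : 16 ≤ v) (hb : 0 ≤ b) (hb1 : b ≤ 1) (h1 : ∀ i, 1 ≤ bd i)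
    (hI : ∀ i, ∀ p ∈ I i, p.Prime ∧ (p:ℝ) ≤ bd i) (hd : ∀ i j, i < j → Disjoint (I i) (I j)) {T Δ : ℝ}
    (hT : 1 ≤ T) (hX : ∏ i ∈ range J, bd i ^ K i ≤ T ^ ((1:ℝ)/8)) (hΔ0 : 0 < Δ) (hΔ1 : Δ ≤ 1 / 16)
    (hΔT : 1 / Δ ≤ T) :
    (1 - 8 * Δ) * Real.exp (-(32 * Δ)) * ∫ t in (0:ℝ)..T, zw v J K b I (1 / 2 + Δ) t ≤
      (∫ t in (0:ℝ)..T, zw v J K b I (1 / 2) t) + 72 * T ^ ((5:ℝ)/8) + 200 := by
  have hv2 : 2 ≤ v := by omega
  obtain ⟨h3, h4⟩ := pv hv2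
  have hv0 : (0:ℝ) < v := by exact_mod_cast (by omega : 0 < v)
  have hIp : ∀ i, ∀ p ∈ I i, p.Prime := fun i p hp => (hI i p hp).1
  have hM : (((8 * v : ℕ)) : ℝ) * (2 / (v:ℝ)) = 16 := by push_cast; field_simp; norm_num
  have hX0 : 0 ≤ ∏ i ∈ range J, bd i ^ K i := prod_nonneg fun i _ => pow_nonneg (by linarith [h1 i]) _
  have hE := zw_edge (v := v) hv hb hb1 h1 hI hd hT hX
  have hmain := half_fixA (Q := fun _ => 0) (A := fun z => Wf J K b I z ^ v) (N := 1) (C1 := 0)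
    (C2 := 1 + ∑' n : ℕ, 1 / (n : ℝ) ^ 2) (CA := (∏ i ∈ range J, bd i ^ K i) ^ v) (p := 2 / (v:ℝ)) (Δ := Δ) (T := T)
    (B := 13 * T ^ 2) (E := 72 * T ^ ((5:ℝ)/8)) (M := 8 * v) h3 le_rfl (by omega) ((Wf_diff hIp).pow v)
    (fun z hz => by
      rw [norm_pow]
      exact pow_le_pow_left₀ (norm_nonneg _) (Wf_norm hb hb1 h1 hI hd (by linarith)) v)
    hM (differentiable_const _) (fun z _ _ => by simp)
    (fun z hz => by
      have h5 := zeta_sub_pow_le (v := 1) (N := 1) le_rfl le_rfl hz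
      have h6 := DS_norm_le (g := dv (1 / ((1:ℕ):ℝ))) (fun n => dv_nonneg (by norm_num) n)
        (fun n => dv_le_one (by norm_num) (by norm_num) n) 1 (s := z) (by linarith)
      simp only [Nat.cast_one, Real.one_rpow, mul_one, one_pow, one_mul, pow_one, sub_zero] at h5 h6 ⊢
      have h7 := norm_add_le (riemannZeta z - DS (dv (1 / 1)) 1 z) (DS (dv (1 / 1)) 1 z)
      rw [sub_add_cancel] at h7
      linarith)
    hΔ0 (by linarith) hT (by positivity)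
    (fun x => by
      rw [← zw_qa hv2]
      exact zw_le hv2 hb hb1 h1 hI hd hT hX x)
    (by
      simp_rw [← zw_qa hv2]
      exact hE)
  simp_rw [← zw_qa hv2] at hmain
  have herr := err_le hT hΔ0 hΔT (B := 13 * T ^ 2) (by positivity) (by nlinarith [sq_nonneg T])
  have hf := fac_ge hv2 hΔ0 hΔ1 (le_refl (1:ℝ))
  rw [Real.one_rpow, mul_one] at hf
  have hZ0 : 0 ≤ ∫ t in (0:ℝ)..T, zw v J K b I (1 / 2 + Δ) t := by
    refine intervalIntegral.integral_nonneg (by linarith) fun t _ => ?_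
    unfold zw
    exact mul_nonneg (Real.rpow_nonneg (zn_nonneg _ _) _) (by positivity)
  have h8 := mul_le_mul_of_nonneg_right hf hZ0
  linarith

/-- the difference shifted to the right -/
theorem dw_half (hv : 16 ≤ v) (hb : 0 ≤ b) (hb1 : b ≤ 1) (h1 : ∀ i, 1 ≤ bd i)
    (hI : ∀ i, ∀ p ∈ I i, p.Prime ∧ (p:ℝ) ≤ bd i) (hd : ∀ i j, i < j → Disjoint (I i) (I j)) {T Δ E : ℝ}
    (hT : 1 ≤ T) (hX : ∏ i ∈ range J, bd i ^ K i ≤ T ^ ((1:ℝ)/8)) (hΔ0 : 0 < Δ) (hΔ1 : Δ ≤ 1 / 16)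
    (hΔT : 1 / Δ ≤ T) (hN1 : 1 ≤ N) (hN : (N:ℝ) ≤ T ^ ((1:ℝ)/2))
    (hE : (∫ t in (-(T ^ ((1:ℝ)/4)))..0, sw v N J K b I (1 / 2) t) +
      ∫ t in T..(T + T ^ ((1:ℝ)/4)), sw v N J K b I (1 / 2) t ≤ E) :
    (1 - 8 * Δ) * Real.exp (-(32 * Δ)) * (N:ℝ) ^ (Δ * (2 / (v:ℝ))) *
      ∫ t in (0:ℝ)..T, dw v N J K b I (1 / 2 + Δ) t ≤
      (∫ t in (0:ℝ)..T, zw v J K b I (1 / 2) t) + (∫ t in (0:ℝ)..T, sw v N J K b I (1 / 2) t) +
      72 * T ^ ((5:ℝ)/8) + E + 200 := by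
  have hv2 : 2 ≤ v := by omega
  obtain ⟨h3, h4⟩ := pv hv2
  have hT0 : 0 < T := by linarith
  have hv0 : (0:ℝ) < v := by exact_mod_cast (by omega : 0 < v)
  have hv16 : (16:ℝ) ≤ v := by exact_mod_cast hv
  have hIp : ∀ i, ∀ p ∈ I i, p.Prime := fun i p hp => (hI i p hp).1
  have hM : (((8 * v : ℕ)) : ℝ) * (2 / (v:ℝ)) = 16 := by push_cast; field_simp; norm_num
  have hN1' : (1:ℝ) ≤ N := by exact_mod_cast hN1
  have ha : (0:ℝ) ≤ 1 / v := by positivity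
  have ha1 : 1 / (v:ℝ) ≤ 1 := by rw [div_le_one hv0]; linarith
  have cz := zw_cont (v := v) (J := J) (K := K) (b := b) hv2 hIp (σ := 1 / 2) (by norm_num)
  have cs := sw_cont (v := v) (N := N) (J := J) (K := K) (b := b) hIp (1 / 2)
  have cd := dw_cont (v := v) (N := N) (J := J) (K := K) (b := b) hv2 hIp (σ := 1 / 2) (by norm_num)
  have hUp : 0 < T ^ ((1:ℝ)/4) := by positivity
  have hE1 := zw_edge (v := v) hv hb hb1 h1 hI hd hT hX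
  have b1 := int_add_le' cd cz cs (a := -(T ^ ((1:ℝ)/4))) (b := 0) (by linarith) (tr2 hv2 (1 / 2))
  have b2 := int_add_le' cd cz cs (a := T) (b := T + T ^ ((1:ℝ)/4)) (by linarith) (tr2 hv2 (1 / 2))
  have b3 := int_add_le' cd cz cs (a := 0) (b := T) hT0.le (tr2 hv2 (1 / 2))
  have hmain := half_fixA (Q := fun z => DS (dv (1 / (v:ℝ))) N z ^ v) (A := fun z => Wf J K b I z ^ v) (N := N)
    (C1 := (N:ℝ) ^ v)
    (C2 := (N:ℝ) ^ 2 * ∑' n : ℕ, 1 / (n : ℝ) ^ 2) (CA := (∏ i ∈ range J, bd i ^ K i) ^ v) (p := 2 / (v:ℝ)) (Δ := Δ) (T := T)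
    (B := 14 * T ^ 2) (E := 72 * T ^ ((5:ℝ)/8) + E) (M := 8 * v) h3 hN1' (by omega) ((Wf_diff hIp).pow v)
    (fun z hz => by
      rw [norm_pow]
      exact pow_le_pow_left₀ (norm_nonneg _) (Wf_norm hb hb1 h1 hI hd (by linarith)) v)
    hM ((DS_differentiable _ N).pow v) (fun z hz _ => by
      rw [norm_pow]
      exact pow_le_pow_left₀ (norm_nonneg _) (DS_norm_le (fun n => dv_nonneg ha n)
        (fun n => dv_le_one ha ha1 n) N (by linarith)) v)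
    (fun z hz => zeta_sub_pow_le (by omega) hN1 hz)
    hΔ0 (by linarith) hT (by positivity)
    (fun x => by
      have c1 := tr2 (N := N) (J := J) (K := K) (b := b) (I := I) hv2 (1 / 2) x
      have c2 := zw_le (v := v) hv2 hb hb1 h1 hI hd hT hX x
      have c3 := sw_le (v := v) hv2 hb hb1 h1 hI hd hT hX hN x
      unfold dw at c1
      have := abs_nonneg x
      linarith)
    (by
      unfold dw at b1 b2
      linarith)
  have herr := err_le hT hΔ0 hΔT (B := 14 * T ^ 2) (by positivity) le_rfl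
  have hf := fac_ge hv2 hΔ0 hΔ1 hN1'
  have hZ0 : 0 ≤ ∫ t in (0:ℝ)..T, dw v N J K b I (1 / 2 + Δ) t := by
    refine intervalIntegral.integral_nonneg (by linarith) fun t _ => ?_
    unfold dw
    exact qa_nonneg _ _ _ _ _
  have h8 := mul_le_mul_of_nonneg_right hf hZ0
  unfold dw at b3 h8 ⊢
  linarith

end

end Pool.Agent.W184.NZ
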