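import Pool.Agent.W184.NZ.Low2

set_option autoImplicit false

/-! Bounds for the polynomial part; Hölder's inequality. -/

namespace Pool.Agent.W184.NZ

open Finset Filter MeasureTheory Topology
open Pool.Agent.H306R2 (dv dA dv_nonneg dv_sq_le Dp)
open Pool.Agent.W184 (zn zn_nonneg zn_cont zn_le' DS DS_norm_le DS_differentiable mv_DS dv_le_one qa qa_nonneg
  qa_cont half_fixA zeta_sub_pow_le add_rpow_le')

/-- length of the multiplier -/
noncomputable def PX (J Rs : ℕ) (y : ℝ) : ℝ := ∏ i ∈ range J, bb y i ^ (Rs + i)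

lemma bb_one_le {y : ℝ} (hy : 1 ≤ y) (i : ℕ) : 1 ≤ bb y i := by
  unfold bb
  exact Real.one_le_exp (mul_nonneg (Real.log_nonneg hy) (by positivity))

lemma PX_one_le {J Rs : ℕ} {y : ℝ} (hy : 1 ≤ y) : 1 ≤ PX J Rs y := by
  unfold PX
  calc (1:ℝ) = ∏ _i ∈ range J, (1:ℝ) := by simp
    _ ≤ _ := prod_le_prod (fun _ _ => zero_le_one) fun i _ => one_le_pow₀ (bb_one_le hy i)

lemma PX_le {J Rs : ℕ} {y : ℝ} (hy : 1 ≤ y) : PX J Rs y ≤ Real.exp (Real.log y * (2 * ((Rs:ℝ) + 1))) := by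
  unfold PX
  have h := len hy Rs J 1
  simp only [one_mul, Nat.cast_one, mul_one] at h
  exact h

lemma II_pr {y : ℝ} (i p : ℕ) (hp : p ∈ II y i) : p.Prime ∧ (p:ℝ) ≤ bb y i := by
  rw [mem_II] at hp; exact ⟨hp.1, hp.2.2.2⟩

/-- bounds for the polynomial part -/
structure SB (v N J Rs : ℕ) (b y T Δ α V C c e : ℝ) : Prop where
  s1 : T * (Real.exp (α ^ 2 * V - α ^ 2 * (2 * Δ * (Real.log y + C)) - α ^ 2 * (α ^ 2 * C)) *
      (1 - Real.exp c * (1 / 2) ^ Rs)) - e ≤ ∫ t in (0:ℝ)..T, sw v N J (fun i => Rs + i) b (II y) (1 / 2 + Δ) t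
  s0 : ∫ t in (0:ℝ)..T, sw v N J (fun i => Rs + i) b (II y) (1 / 2) t ≤
      T * Real.exp (α ^ 2 * (Real.log (Real.log T) + C)) + e
  es : (∫ t in (-(T ^ ((1:ℝ)/4)))..0, sw v N J (fun i => Rs + i) b (II y) (1 / 2) t) +
      ∫ t in T..(T + T ^ ((1:ℝ)/4)), sw v N J (fun i => Rs + i) b (II y) (1 / 2) t ≤
      2 * T ^ ((1:ℝ)/4) * Real.exp (α ^ 2 * (Real.log (Real.log T) + C)) + 2 * e

theorem SB_of : ∃ C : ℝ, 0 ≤ C ∧ ∀ (v N J Rs : ℕ) (b y T Δ α c : ℝ), 2 ≤ v → 0 ≤ b → 1 / (v:ℝ) + b = α → α ≤ 1 →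
    144 ≤ y → Rg c J (II y) (bb y) → Real.exp c * (1 / 2) ^ Rs ≤ 1 → 0 ≤ Δ → 3 ≤ T → PX J Rs y ≤ N → 3 ≤ N →
    (N:ℝ) * PX J Rs y ≤ T ^ ((5:ℝ)/8) →
    SB v N J Rs b y T Δ α (∑ i ∈ range J, vI (II y i)) C c (6 * T ^ ((5:ℝ)/8) * (1 + Real.log T)) := by
  obtain ⟨C1, hC1, hd1⟩ := diag_ge
  obtain ⟨C2, hC2, hd2⟩ := dv_sum_le
  refine ⟨C1 + C2, by positivity, ?_⟩
  intro v N J Rs b y T Δ α c hv hb hab hα1 hy hR hRs hΔ hT hPN hN3 hNP
  have hv0 : (0:ℝ) < v := by exact_mod_cast (by omega : 0 < v)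
  have hy1 : 1 ≤ y := by linarith
  have hT0 : 0 < T := by linarith
  have ha : (0:ℝ) ≤ 1 / v := by positivity
  have hα0 : 0 ≤ α := by rw [← hab]; positivity
  have hab1 : 1 / (v:ℝ) + b ≤ 1 := by rw [hab]; exact hα1
  have hbb := fun i => bb_one_le hy1 i
  have hPX1 := PX_one_le (J := J) (Rs := Rs) hy1
  have hN0 : (0:ℝ) ≤ N := Nat.cast_nonneg N
  have hN3' : (3:ℝ) ≤ N := by exact_mod_cast hN3
  set Y : ℕ := ⌊(N:ℝ) * ∏ i ∈ range J, bb y i ^ (Rs + i)⌋₊ with hY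
  have hPXe : ∏ i ∈ range J, bb y i ^ (Rs + i) = PX J Rs y := rfl
  have hX3 : 3 ≤ (N:ℝ) * ∏ i ∈ range J, bb y i ^ (Rs + i) := by rw [hPXe]; nlinarith
  have hNY : N ≤ Y := by
    refine Nat.le_floor ?_
    rw [hPXe]
    nlinarith
  have hYle : (Y:ℝ) ≤ T ^ ((5:ℝ)/8) := (Nat.floor_le (by linarith)).trans hNP
  have hY1 : (1:ℝ) ≤ Y := by
    have : (1:ℕ) ≤ Y := by omega
    exact_mod_cast this
  have hT58 : T ^ ((5:ℝ)/8) ≤ T := by
    calc T ^ ((5:ℝ)/8) ≤ T ^ (1:ℝ) := Real.rpow_le_rpow_of_exponent_le (by linarith) (by norm_num)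
      _ = T := Real.rpow_one T
  have hlogY : Real.log Y ≤ Real.log T := Real.log_le_log (by linarith) (hYle.trans hT58)
  have hlogY0 : 0 ≤ Real.log Y := Real.log_nonneg hY1
  have herr : 6 * (Y:ℝ) * (1 + Real.log Y) ≤ 6 * T ^ ((5:ℝ)/8) * (1 + Real.log T) := by
    refine mul_le_mul (by linarith) (by linarith) (by linarith) (by positivity)
  have hdj : ∀ i j, i < j → Disjoint (II y i) (II y j) := fun i j h => II_disj hy1 h
  -- diagonal sums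
  have hD0 : ∑ n ∈ Icc 1 Y, cA (1 / (v:ℝ)) N J (fun i => Rs + i) b (II y) n ^ 2 * (n : ℝ) ^ (-(2 * (1 / 2 : ℝ))) ≤
      Real.exp (α ^ 2 * (Real.log (Real.log T) + (C1 + C2))) := by
    have h1 := diag0 (N := N) (J := J) (K := fun i => Rs + i) hd2 ha hb hab1 hdj hX3
    refine h1.trans (Real.exp_le_exp.mpr ?_)
    rw [hab]
    refine mul_le_mul_of_nonneg_left ?_ (sq_nonneg α)
    have l1 : 0 < Real.log ((N:ℝ) * ∏ i ∈ range J, bb y i ^ (Rs + i)) := Real.log_pos (by linarith)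
    have l2 : Real.log ((N:ℝ) * ∏ i ∈ range J, bb y i ^ (Rs + i)) ≤ Real.log T :=
      Real.log_le_log (by linarith) (hNP.trans hT58)
    have l3 := Real.log_le_log l1 l2
    linarith
  have hD1 : Real.exp (α ^ 2 * (∑ i ∈ range J, vI (II y i)) - α ^ 2 * (2 * Δ * (Real.log y + (C1 + C2))) -
      α ^ 2 * (α ^ 2 * (C1 + C2))) * (1 - Real.exp c * (1 / 2) ^ Rs) ≤
      ∑ n ∈ Icc 1 Y, cA (1 / (v:ℝ)) N J (fun i => Rs + i) b (II y) n ^ 2 * (n : ℝ) ^ (-(2 * (1 / 2 + Δ))) := by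
    have h1 := hd1 y hy c J Rs hR hRs α Δ hα0 hα1 hΔ
    have h2 := cA_sum_ge (J := J) (K := fun i => Rs + i) (I := II y) ha hb (bd := bb y) hbb
      (fun i p hp => II_pr i p hp) hdj hPN hNY (1 / 2 + Δ)
    rw [hab] at h2
    refine le_trans ?_ (h1.trans h2)
    refine mul_le_mul_of_nonneg_right (Real.exp_le_exp.mpr ?_) (by linarith)
    have hly : 0 ≤ Real.log y := Real.log_nonneg hy1
    have e1 : α ^ 2 * (2 * Δ * (Real.log y + C1)) ≤ α ^ 2 * (2 * Δ * (Real.log y + (C1 + C2))) := by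
      gcongr; linarith
    have e2 : α ^ 2 * (α ^ 2 * C1) ≤ α ^ 2 * (α ^ 2 * (C1 + C2)) := by
      gcongr; linarith
    linarith
  have mv0 := fun A B => mvW (N := N) (J := J) (K := fun i => Rs + i) ha hb hab1 hbb
      (fun i p hp => II_pr i p hp) hdj (le_refl (1 / 2 : ℝ)) A B
  have mv1 := mvW (N := N) (J := J) (K := fun i => Rs + i) ha hb hab1 hbb
      (fun i p hp => II_pr i p hp) hdj (σ := 1 / 2 + Δ) (by linarith) 0 T
  refine ⟨?_, ?_, ?_⟩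
  · have h1 := (abs_le.mp mv1).1
    rw [← hY, sub_zero] at h1
    have h2 := mul_le_mul_of_nonneg_left hD1 hT0.le
    unfold sw
    linarith
  · have h1 := (abs_le.mp (mv0 0 T)).2
    rw [← hY, sub_zero] at h1
    have h2 := mul_le_mul_of_nonneg_left hD0 hT0.le
    unfold sw
    linarith
  · have hU : 0 < T ^ ((1:ℝ)/4) := by positivity
    have h1 := (abs_le.mp (mv0 (-(T ^ ((1:ℝ)/4))) 0)).2
    have h1' := (abs_le.mp (mv0 T (T + T ^ ((1:ℝ)/4)))).2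
    rw [← hY, zero_sub, neg_neg] at h1
    rw [← hY, add_sub_cancel_left] at h1'
    have h2 := mul_le_mul_of_nonneg_left hD0 hU.le
    unfold sw
    linarith

/-- Hölder's inequality in the form used -/
lemma holder_use {f g : ℝ → ℝ} (hf : Continuous f) (hg : Continuous g) (hf0 : ∀ t, 0 ≤ f t) (hg0 : ∀ t, 0 ≤ g t)
    {T p q : ℝ} (hT : 0 ≤ T) (hpq : p.HolderConjugate q) :
    ∫ t in (0:ℝ)..T, f t * g t ≤ (∫ t in (0:ℝ)..T, f t ^ p) ^ (1 / p) * (∫ t in (0:ℝ)..T, g t ^ q) ^ (1 / q) := by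
  rw [intervalIntegral.integral_of_le hT, intervalIntegral.integral_of_le hT,
    intervalIntegral.integral_of_le hT]
  have hbd : ∀ h : ℝ → ℝ, Continuous h → ∀ r : ENNReal, MemLp h r (volume.restrict (Set.Ioc 0 T)) := by
    intro h hh r
    obtain ⟨B, hB⟩ := (isCompact_Icc (a := (0:ℝ)) (b := T)).exists_bound_of_continuousOn hh.continuousOn
    refine MemLp.of_bound hh.aestronglyMeasurable B ?_
    filter_upwards [ae_restrict_mem measurableSet_Ioc] with t ht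
    exact hB t ⟨ht.1.le, ht.2⟩
  exact integral_mul_le_Lp_mul_Lq_of_nonneg hpq (Eventually.of_forall hf0) (Eventually.of_forall hg0)
    (hbd f hf _) (hbd g hg _)

end Pool.Agent.W184.NZ
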