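import Pool.Agent.W184.NZ.Low3

set_option autoImplicit false

/-! The lower bound. -/

namespace Pool.Agent.W184.NZ

open Finset Filter MeasureTheory Topology
open Pool.Agent.H306R2 (dv dA dv_nonneg dv_sq_le Dp)
open Pool.Agent.W184 (zn zn_nonneg zn_cont zn_le' DS DS_norm_le DS_differentiable mv_DS dv_le_one qa qa_nonneg
  qa_cont half_fixA zeta_sub_pow_le add_rpow_le')

lemma alg1 {κ M E S1 S0 Z1 Z0 D1 f G g : ℝ} (hκ : 0 < κ) (hκ1 : κ ≤ 1 / 60) (hM : 0 < M) (hE : 0 ≤ E)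
    (hZ0 : 0 ≤ Z0) (hZ1 : 0 ≤ Z1) (hD1 : 0 ≤ D1) (hg : 0 < g) (hgE : g * (1 + E + 2 * κ) ≤ κ)
    (h1 : (1 - 5 * κ) * M ≤ S1) (h2 : S0 ≤ (E + κ) * M) (h3 : f * Z1 ≤ Z0 + κ * M) (hf : 1 - κ ≤ f)
    (h4 : f * G * D1 ≤ Z0 + S0 + κ * M) (hG : 1 ≤ g * (f * G)) (h5 : S1 ≤ Z1 + D1) :
    (1 - 11 * κ) * M ≤ Z0 := by
  have a1 : (1 - κ) * Z1 ≤ Z0 + κ * M := (mul_le_mul_of_nonneg_right hf hZ1).trans h3
  have a2 : Z1 ≤ (1 + 2 * κ) * (Z0 + κ * M) := by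
    have h6 : 1 ≤ (1 + 2 * κ) * (1 - κ) := by nlinarith
    calc Z1 ≤ ((1 + 2 * κ) * (1 - κ)) * Z1 := le_mul_of_one_le_left hZ1 h6
      _ = (1 + 2 * κ) * ((1 - κ) * Z1) := by ring
      _ ≤ _ := mul_le_mul_of_nonneg_left a1 (by linarith)
  have a3 : D1 ≤ g * (Z0 + S0 + κ * M) := by
    calc D1 ≤ (g * (f * G)) * D1 := le_mul_of_one_le_left hD1 hG
      _ = g * (f * G * D1) := by ring
      _ ≤ _ := mul_le_mul_of_nonneg_left h4 hg.le
  have a4 : g * (Z0 + S0 + κ * M) ≤ g * (Z0 + (E + 2 * κ) * M) := by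
    refine mul_le_mul_of_nonneg_left ?_ hg.le
    linarith
  have a5 : g ≤ κ := by nlinarith [mul_nonneg hg.le hE, mul_pos hg hκ]
  have a6 : g * (E + 2 * κ) ≤ κ := by nlinarith
  have a7 : g * Z0 ≤ κ * Z0 := mul_le_mul_of_nonneg_right a5 hZ0
  have a8 : g * ((E + 2 * κ) * M) ≤ κ * M := by
    rw [← mul_assoc]; exact mul_le_mul_of_nonneg_right a6 hM.le
  have a9 : (1 - 5 * κ) * M ≤ (1 + 2 * κ) * (Z0 + κ * M) + (κ * Z0 + κ * M) := by linarith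
  have a10 : (1 - 8 * κ) * M ≤ (1 + 3 * κ) * Z0 := by nlinarith [mul_pos hκ hM, mul_pos (mul_pos hκ hκ) hM]
  have a11 : (1 - 11 * κ) * M * (1 + 3 * κ) ≤ (1 - 8 * κ) * M := by
    nlinarith [mul_pos hκ hM, mul_pos (mul_pos hκ hκ) hM]
  have a12 : (1 - 11 * κ) * M * (1 + 3 * κ) ≤ Z0 * (1 + 3 * κ) := by linarith
  exact le_of_mul_le_mul_right a12 (by linarith)

lemma alg2 {M P Z G s r p q : ℝ} (hM : 0 < M) (hP : 0 ≤ P) (hG0 : 0 ≤ G) (hs : 0 ≤ s) (hs1 : s ≤ 1 / 3) (hr : 0 ≤ r)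
    (hp0 : 0 < p) (hp3 : p ≤ 3) (hpq : p.HolderConjugate q)
    (hZ : (1 - s) * M ≤ Z) (hG : G ≤ (1 + r) * M) (h : Z ≤ P ^ (1 / p) * G ^ (1 / q)) :
    (1 - 3 * s - 2 * r) * M ≤ P := by
  have hq0 : 0 < q := hpq.symm.pos
  have h1 : (1 - s) * M ≤ P ^ (1 / p) * ((1 + r) * M) ^ (1 / q) := by
    refine hZ.trans (h.trans (mul_le_mul_of_nonneg_left ?_ (by positivity)))
    exact Real.rpow_le_rpow hG0 hG (by positivity)
  have h2 : ((1 - s) * M) ^ p ≤ P * ((1 + r) * M) ^ (p - 1) := by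
    have h3 := Real.rpow_le_rpow (mul_nonneg (by linarith) hM.le) h1 hp0.le
    rw [Real.mul_rpow (x := P ^ (1 / p)) (y := ((1 + r) * M) ^ (1 / q)) (by positivity) (by positivity),
      ← Real.rpow_mul hP, one_div, inv_mul_cancel₀ hp0.ne',
      Real.rpow_one, ← Real.rpow_mul (by positivity)] at h3
    have h4 : 1 / q * p = p - 1 := by
      have h5 := hpq.inv_add_inv_eq_one
      field_simp at h5 ⊢
      linarith
    rwa [h4] at h3
  rw [Real.mul_rpow (by linarith) hM.le, Real.mul_rpow (by linarith) hM.le] at h2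
  have h5 : (1 - s) ^ (3:ℝ) ≤ (1 - s) ^ p :=
    Real.rpow_le_rpow_of_exponent_ge (by linarith) (by linarith) hp3
  have h6 : (1 + r) ^ (p - 1) ≤ (1 + r) ^ (2:ℝ) :=
    Real.rpow_le_rpow_of_exponent_le (by linarith) (by linarith)
  have h7 : (1 - s) ^ (3:ℝ) = (1 - s) ^ 3 := by exact_mod_cast Real.rpow_natCast (1 - s) 3
  have h8 : (1 + r) ^ (2:ℝ) = (1 + r) ^ 2 := by exact_mod_cast Real.rpow_natCast (1 + r) 2
  rw [h7] at h5
  rw [h8] at h6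
  have hMp : 0 < M ^ p := by positivity
  have hMp1 : 0 < M ^ (p - 1) := by positivity
  have h9 : M ^ p = M * M ^ (p - 1) := by
    nth_rewrite 2 [← Real.rpow_one M]
    rw [← Real.rpow_add hM]; congr 1; ring
  have h10 : (1 - s) ^ 3 * (M * M ^ (p - 1)) ≤ P * ((1 + r) ^ 2 * M ^ (p - 1)) := by
    calc (1 - s) ^ 3 * (M * M ^ (p - 1)) = (1 - s) ^ 3 * M ^ p := by rw [h9]
      _ ≤ (1 - s) ^ p * M ^ p := mul_le_mul_of_nonneg_right h5 hMp.le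
      _ ≤ P * ((1 + r) ^ (p - 1) * M ^ (p - 1)) := h2
      _ ≤ P * ((1 + r) ^ 2 * M ^ (p - 1)) := by gcongr
  have h11 : (1 - s) ^ 3 * M ≤ P * (1 + r) ^ 2 := by
    have : ((1 - s) ^ 3 * M) * M ^ (p - 1) ≤ (P * (1 + r) ^ 2) * M ^ (p - 1) := by linarith
    exact le_of_mul_le_mul_right this hMp1
  have h12 : 1 - 3 * s ≤ (1 - s) ^ 3 := by nlinarith [mul_nonneg hs hs, mul_nonneg (mul_nonneg hs hs) hs]
  have h13 : (1 - 3 * s) * M ≤ P * (1 + r) ^ 2 := (mul_le_mul_of_nonneg_right h12 hM.le).trans h11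
  have h14 : (1 - 3 * s - 2 * r) * (1 + r) ^ 2 ≤ 1 - 3 * s := by
    nlinarith [mul_nonneg hr hr, mul_nonneg hs hr, mul_nonneg (mul_nonneg hr hr) hr, mul_nonneg (mul_nonneg hs hr) hr]
  have h15 : (1 - 3 * s - 2 * r) * M * (1 + r) ^ 2 ≤ P * (1 + r) ^ 2 := by
    calc _ = ((1 - 3 * s - 2 * r) * (1 + r) ^ 2) * M := by ring
      _ ≤ (1 - 3 * s) * M := mul_le_mul_of_nonneg_right h14 hM.le
      _ ≤ _ := h13
  exact le_of_mul_le_mul_right h15 (by positivity)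

lemma Rs_ex2 (c κ : ℝ) (hκ : 0 < κ) : ∃ Rs : ℕ, Rok c Rs ∧
    Real.exp ((16 + 2 * Bc c) * Real.exp (-(Rs:ℝ))) ≤ 1 + κ ∧ Real.exp c * (1 / 2) ^ Rs ≤ κ := by
  obtain ⟨R0, hR0⟩ := Rok_ex c
  have h1 : Tendsto (fun n : ℕ => Real.exp ((16 + 2 * Bc c) * Real.exp (-(n:ℝ)))) atTop
      (𝓝 (Real.exp ((16 + 2 * Bc c) * 0))) := by
    refine (Real.continuous_exp.tendsto _).comp (Tendsto.const_mul _ ?_)
    exact Real.tendsto_exp_neg_atTop_nhds_zero.comp tendsto_natCast_atTop_atTop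
  rw [mul_zero, Real.exp_zero] at h1
  have h2 : Tendsto (fun n : ℕ => Real.exp c * (1 / 2 : ℝ) ^ n) atTop (𝓝 (Real.exp c * 0)) :=
    (tendsto_pow_atTop_nhds_zero_of_lt_one (by norm_num) (by norm_num)).const_mul _
  rw [mul_zero] at h2
  obtain ⟨n, hn1, hn2, hn3⟩ := ((h1.eventually (gt_mem_nhds (show (1:ℝ) < 1 + κ by linarith))).and
    ((eventually_ge_atTop R0).and (h2.eventually (gt_mem_nhds hκ)))).exists
  exact ⟨n, Rok_mono hR0 hn2, hn1.le, hn3.le⟩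

/-- the moment of the multiplier -/
theorem W_mom {c κ η : ℝ} (hc : 0 ≤ c) (hκ : 0 < κ) (hκ1 : κ ≤ 1) {Rs : ℕ} (hRs : Rok c Rs)
    (hRs2 : Real.exp ((16 + 2 * Bc c) * Real.exp (-(Rs:ℝ))) ≤ 1 + κ) (hη0 : 0 < η)
    (hηR : η * ((Rs:ℝ) + 1) = 1 / 1000)
    {T : ℝ} (hT1 : 1 ≤ T) (hL10 : 10 ≤ Real.log T) (hE3 : Real.exp 16 * (2 * T ^ ((2:ℝ)/5)) ≤ κ * T)
    {α b q : ℝ} (hα : 0 < α) (hα1 : α ≤ 1) (hαc : 13 * α ^ 2 * c ≤ κ / 2) (hb : 0 ≤ b) (hb1 : b ≤ 1 / 3000)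
    (hq : 0 ≤ q) (hq4 : q ≤ 4) (hbq : b * q = 2 * α) {J : ℕ}
    (hR : Rg c J (II (Real.exp (η * Real.log T))) (bb (Real.exp (η * Real.log T))))
    (hV : ∑ i ∈ range J, vI (II (Real.exp (η * Real.log T)) i) ≤ Real.log (Real.log T) + c) :
    ∫ t in (0:ℝ)..T, (‖Wf J (fun i => Rs + i) b (II (Real.exp (η * Real.log T))) (1 / 2 + t * Complex.I)‖ ^ q) ≤
      (1 + 4 * κ) * (T * Real.log T ^ (α ^ 2)) := by
  set L := Real.log T with hL
  have hL0 : 0 < L := by linarith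
  have hT0 : 0 < T := by linarith
  set y : ℝ := Real.exp (η * L) with hy
  have hly : Real.log y = η * L := Real.log_exp _
  have hy1 : 1 ≤ y := by rw [hy]; exact Real.one_le_exp (by positivity)
  set V := ∑ i ∈ range J, vI (II y i) with hVd
  have hα2 : 0 ≤ α ^ 2 := sq_nonneg α
  have hLp : L ^ (α ^ 2) = Real.exp (α ^ 2 * Real.log L) := by
    rw [Real.rpow_def_of_pos hL0, mul_comm]
  have hLp1 : 1 ≤ L ^ (α ^ 2) := Real.one_le_rpow (by linarith) hα2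
  have hP : ∀ i, ∀ p ∈ II y i, p.Prime := fun i p hp => (hR.pr i p hp).1
  have hF := F_avg hy1 hR hRs (a := α) (by rw [abs_of_pos hα]; exact hα1) hT0.le
  have hgc2 : Continuous fun t => gp J α (RR Rs) (II y) t := by
    have := ev_re_cont (GP_Bd (Rs := Rs) hy1 hR α)
    refine this.congr fun t => ?_
    rw [ev_GP t J _ _ hP, Complex.ofReal_re]
  have hWc : Continuous fun t : ℝ => ‖Wf J (fun i => Rs + i) b (II y) (1 / 2 + t * Complex.I)‖ ^ q := by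
    have h1 : Continuous fun t : ℝ => Wf J (fun i => Rs + i) b (II y) (1 / 2 + t * Complex.I) :=
      (Wf_diff hP).continuous.comp (by fun_prop)
    exact h1.norm.rpow_const fun _ => Or.inr hq
  have h1 : ∫ t in (0:ℝ)..T, (‖Wf J (fun i => Rs + i) b (II y) (1 / 2 + t * Complex.I)‖ ^ q) ≤
      ∫ t in (0:ℝ)..T, Real.exp (16 * Real.exp (-(Rs:ℝ))) * gp J α (RR Rs) (II y) t := by
    refine intervalIntegral.integral_mono_on hT0.le (hWc.intervalIntegrable _ _)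
      ((continuous_const.mul hgc2).intervalIntegrable _ _) fun t _ => ?_
    exact Wf_pw hRs.1 hb hb1 hq hq4 hα.le hα1 hbq t
  refine h1.trans ?_
  rw [intervalIntegral.integral_const_mul]
  have hx1 : Real.exp (-(Rs:ℝ)) ≤ 1 := Real.exp_le_one_iff.mpr (by simp)
  have e16 : Real.exp (16 * Real.exp (-(Rs:ℝ))) ≤ Real.exp 16 := Real.exp_le_exp.mpr (by linarith)
  have hM0 : 0 < T * L ^ (α ^ 2) := by positivity
  have hMT : T ≤ T * L ^ (α ^ 2) := le_mul_of_one_le_right hT0.le hLp1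
  have h2 : Real.exp (16 * Real.exp (-(Rs:ℝ))) *
      (T * Real.exp (α ^ 2 * V + 12 * α ^ 2 * c + 2 * Bc c * Real.exp (-(Rs:ℝ)))) ≤
      (1 + κ) * (1 + κ) * (T * L ^ (α ^ 2)) := by
    have d1 : Real.exp (16 * Real.exp (-(Rs:ℝ))) *
        (T * Real.exp (α ^ 2 * V + 12 * α ^ 2 * c + 2 * Bc c * Real.exp (-(Rs:ℝ)))) ≤
        T * L ^ (α ^ 2) * (Real.exp (13 * α ^ 2 * c) * Real.exp ((16 + 2 * Bc c) * Real.exp (-(Rs:ℝ)))) := by
      rw [hLp, mul_left_comm, mul_assoc T, ← Real.exp_add, ← Real.exp_add, ← Real.exp_add]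
      refine mul_le_mul_of_nonneg_left (Real.exp_le_exp.mpr ?_) hT0.le
      have := mul_le_mul_of_nonneg_left hV hα2
      rw [mul_add] at this
      linarith
    refine d1.trans ?_
    have d2 : Real.exp (13 * α ^ 2 * c) ≤ 1 + κ := by
      have d5 : 0 ≤ 13 * α ^ 2 * c := by positivity
      have d6 := Real.exp_bound' (x := 13 * α ^ 2 * c) d5 (by linarith) (n := 1) (by norm_num)
      norm_num at d6
      linarith
    rw [mul_comm]
    refine mul_le_mul_of_nonneg_right ?_ hM0.le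
    exact mul_le_mul d2 hRs2 (Real.exp_pos _).le (by linarith)
  have h3 : Real.exp (16 * Real.exp (-(Rs:ℝ))) * (2 * Real.exp (Real.log y * (400 * ((Rs:ℝ) + 1)))) ≤
      κ * (T * L ^ (α ^ 2)) := by
    have e1 : Real.exp (Real.log y * (400 * ((Rs:ℝ) + 1))) = T ^ ((2:ℝ)/5) := by
      rw [hly, Real.rpow_def_of_pos hT0]
      congr 1
      have : η * L * (400 * ((Rs:ℝ) + 1)) = 400 * (η * ((Rs:ℝ) + 1)) * L := by ring
      rw [this, hηR]
      ring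
    rw [e1]
    calc _ ≤ Real.exp 16 * (2 * T ^ ((2:ℝ)/5)) := mul_le_mul_of_nonneg_right e16 (by positivity)
      _ ≤ κ * T := hE3
      _ ≤ _ := mul_le_mul_of_nonneg_left hMT hκ.le
  have h4 := mul_le_mul_of_nonneg_left hF (Real.exp_pos (16 * Real.exp (-(Rs:ℝ)))).le
  refine h4.trans ?_
  rw [mul_add]
  have h5 : (1 + κ) * (1 + κ) ≤ 1 + 3 * κ := by nlinarith
  have h6 := mul_le_mul_of_nonneg_right h5 hM0.le
  linarith

end Pool.Agent.W184.NZ
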