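import Pool.Agent.W184.NZ.Low4

set_option autoImplicit false

/-! The lower bound: assembly. -/

namespace Pool.Agent.W184.NZ

open Finset Filter MeasureTheory Topology
open Pool.Agent.H306R2 (dv dA dv_nonneg dv_sq_le Dp)
open Pool.Agent.W184 (zn zn_nonneg zn_cont zn_le' DS DS_norm_le DS_differentiable mv_DS dv_le_one qa qa_nonneg
  qa_cont half_fixA zeta_sub_pow_le add_rpow_le')

lemma ev_err {κ : ℝ} (hκ : 0 < κ) (A : ℝ) (hA : 0 ≤ A) : ∀ᶠ T : ℝ in atTop,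
    Real.exp 16 * (2 * T ^ ((2:ℝ)/5)) ≤ κ * T ∧
    72 * T ^ ((5:ℝ)/8) + 200 + 2 * T ^ ((1:ℝ)/4) * (A * Real.log T) +
      3 * (6 * T ^ ((5:ℝ)/8) * (1 + Real.log T)) ≤ κ * T := by
  have a1 : Tendsto (fun T : ℝ => T ^ (-(1:ℝ)/4)) atTop (𝓝 0) := by
    have := tendsto_rpow_neg_atTop (y := 1 / 4) (by norm_num)
    refine this.congr fun T => ?_
    congr 1; norm_num
  filter_upwards [a1.eventually (gt_mem_nhds (show (0:ℝ) < κ / (Real.exp 16 * 2) by positivity)),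
    a1.eventually (gt_mem_nhds (show (0:ℝ) < κ / (434 + 16 * A) by positivity)), eventually_ge_atTop 1]
    with T h1 h2 h3
  have hT0 : 0 < T := by linarith
  have e1 : T ^ ((3:ℝ)/4) = T ^ (-(1:ℝ)/4) * T := by
    nth_rewrite 3 [← Real.rpow_one T]
    rw [← Real.rpow_add hT0]; norm_num
  have e34 : 0 < T ^ ((3:ℝ)/4) := by positivity
  constructor
  · have f0 : T ^ ((2:ℝ)/5) ≤ T ^ ((3:ℝ)/4) := Real.rpow_le_rpow_of_exponent_le h3 (by norm_num)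
    calc Real.exp 16 * (2 * T ^ ((2:ℝ)/5)) ≤ Real.exp 16 * (2 * T ^ ((3:ℝ)/4)) := by
          gcongr
      _ = Real.exp 16 * 2 * (T ^ (-(1:ℝ)/4) * T) := by rw [e1]; ring
      _ ≤ Real.exp 16 * 2 * (κ / (Real.exp 16 * 2) * T) := by gcongr
      _ = κ * T := by field_simp
  · have hl : Real.log T ≤ 8 * T ^ ((1:ℝ)/8) := by
      have := Real.log_le_rpow_div hT0.le (show (0:ℝ) < 1 / 8 by norm_num)
      linarith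
    have hl0 : 0 ≤ Real.log T := Real.log_nonneg h3
    have t8 : 1 ≤ T ^ ((1:ℝ)/8) := Real.one_le_rpow h3 (by norm_num)
    have f1 : T ^ ((5:ℝ)/8) ≤ T ^ ((3:ℝ)/4) := Real.rpow_le_rpow_of_exponent_le h3 (by norm_num)
    have f2 : 1 ≤ T ^ ((3:ℝ)/4) := Real.one_le_rpow h3 (by norm_num)
    have f3 : T ^ ((5:ℝ)/8) * T ^ ((1:ℝ)/8) = T ^ ((3:ℝ)/4) := by rw [← Real.rpow_add hT0]; norm_num
    have f4 : T ^ ((1:ℝ)/4) * T ^ ((1:ℝ)/8) ≤ T ^ ((3:ℝ)/4) := by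
      rw [← Real.rpow_add hT0]
      exact Real.rpow_le_rpow_of_exponent_le h3 (by norm_num)
    have g1 : 2 * T ^ ((1:ℝ)/4) * (A * Real.log T) ≤ 16 * A * T ^ ((3:ℝ)/4) := by
      calc _ ≤ 2 * T ^ ((1:ℝ)/4) * (A * (8 * T ^ ((1:ℝ)/8))) := by gcongr
        _ = 16 * A * (T ^ ((1:ℝ)/4) * T ^ ((1:ℝ)/8)) := by ring
        _ ≤ _ := by gcongr
    have g2 : 3 * (6 * T ^ ((5:ℝ)/8) * (1 + Real.log T)) ≤ 162 * T ^ ((3:ℝ)/4) := by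
      calc _ ≤ 3 * (6 * T ^ ((5:ℝ)/8) * (9 * T ^ ((1:ℝ)/8))) := by gcongr; linarith
        _ = 162 * (T ^ ((5:ℝ)/8) * T ^ ((1:ℝ)/8)) := by ring
        _ = _ := by rw [f3]
    have g3 : (434 + 16 * A) * T ^ ((3:ℝ)/4) ≤ κ * T := by
      calc (434 + 16 * A) * T ^ ((3:ℝ)/4) = (434 + 16 * A) * (T ^ (-(1:ℝ)/4) * T) := by rw [e1]
        _ ≤ (434 + 16 * A) * (κ / (434 + 16 * A) * T) := by gcongr
        _ = κ * T := by field_simp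
    linarith

lemma v_ex {α : ℝ} (hα : 0 < α) (hα1 : α ≤ 1 / 3000) : ∃ v : ℕ, 16 ≤ v ∧ 2 ≤ α * v ∧ α * v ≤ 3 := by
  refine ⟨⌈2 / α⌉₊, ?_, ?_, ?_⟩
  · have h1 : (16:ℝ) ≤ 2 / α := by rw [le_div_iff₀ hα]; linarith
    have h2 := Nat.le_ceil (2 / α)
    exact_mod_cast h1.trans h2
  · have h2 := Nat.le_ceil (2 / α)
    rw [div_le_iff₀ hα] at h2
    linarith
  · have h2 := (Nat.ceil_lt_add_one (show 0 ≤ 2 / α by positivity)).le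
    have h3 := mul_le_mul_of_nonneg_left h2 hα.le
    rw [mul_add, mul_div_cancel₀ _ hα.ne'] at h3
    linarith

/-- lengths -/
lemma len_ok {T : ℝ} (hT : 100 ≤ T) {P : ℝ} (hP1 : 1 ≤ P) (hP : P ≤ T ^ ((1:ℝ)/8)) :
    P ≤ (⌊T ^ ((1:ℝ)/2)⌋₊ : ℝ) ∧ 3 ≤ ⌊T ^ ((1:ℝ)/2)⌋₊ ∧ (⌊T ^ ((1:ℝ)/2)⌋₊ : ℝ) * P ≤ T ^ ((5:ℝ)/8) ∧
    (⌊T ^ ((1:ℝ)/2)⌋₊ : ℝ) ≤ T ^ ((1:ℝ)/2) ∧ T ^ ((1:ℝ)/4) ≤ (⌊T ^ ((1:ℝ)/2)⌋₊ : ℝ) := by
  have hT0 : 0 < T := by linarith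
  have hT1 : 1 ≤ T := by linarith
  have h1 : (⌊T ^ ((1:ℝ)/2)⌋₊ : ℝ) ≤ T ^ ((1:ℝ)/2) := Nat.floor_le (by positivity)
  have h3 : 3 ≤ T ^ ((1:ℝ)/4) := by
    calc (3:ℝ) = (81:ℝ) ^ ((1:ℝ)/4) := by
          rw [show (81:ℝ) = 3 ^ (4:ℝ) by norm_num, ← Real.rpow_mul (by norm_num)]; norm_num
      _ ≤ _ := Real.rpow_le_rpow (by norm_num) (by linarith) (by norm_num)
  have h4 : T ^ ((1:ℝ)/2) = T ^ ((1:ℝ)/4) * T ^ ((1:ℝ)/4) := by rw [← Real.rpow_add hT0]; norm_num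
  have h5 : T ^ ((1:ℝ)/4) ≤ (⌊T ^ ((1:ℝ)/2)⌋₊ : ℝ) := by
    have := (Nat.sub_one_lt_floor (T ^ ((1:ℝ)/2))).le
    refine le_trans ?_ this
    rw [h4]; nlinarith
  refine ⟨?_, ?_, ?_, h1, h5⟩
  · refine hP.trans (le_trans ?_ h5)
    exact Real.rpow_le_rpow_of_exponent_le hT1 (by norm_num)
  · exact_mod_cast h3.trans h5
  · calc _ ≤ T ^ ((1:ℝ)/2) * T ^ ((1:ℝ)/8) := by gcongr
      _ = _ := by rw [← Real.rpow_add hT0]; norm_num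

lemma G_ge {T L δ g f Δ : ℝ} {v : ℕ} (hT : 1 ≤ T) (hL : L = Real.log T) (hL0 : 0 < L) (hg : 0 < g)
    (hδ0 : 0 ≤ δ)
    (hδ : δ = 4 * Real.log (2 / g)) (hf : 1 / 2 ≤ f) (hv : 0 < v) (hΔ : Δ = δ * v / (2 * L)) {N : ℝ}
    (hN : T ^ ((1:ℝ)/4) ≤ N) : 1 ≤ g * (f * N ^ (Δ * (2 / (v:ℝ)))) := by
  have hv0 : (0:ℝ) < v := by exact_mod_cast hv
  have hT0 : 0 < T := by linarith
  have e1 : Δ * (2 / (v:ℝ)) = δ / L := by rw [hΔ]; field_simp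
  rw [e1]
  have e2 : (T ^ ((1:ℝ)/4)) ^ (δ / L) = 2 / g := by
    rw [← Real.rpow_mul hT0.le, Real.rpow_def_of_pos hT0, ← hL]
    have : L * (1 / 4 * (δ / L)) = Real.log (2 / g) := by rw [hδ]; field_simp
    rw [this, Real.exp_log (by positivity)]
  have e3 : 2 / g ≤ N ^ (δ / L) := by
    rw [← e2]
    exact Real.rpow_le_rpow (by positivity) hN (by positivity)
  calc (1:ℝ) = g * (1 / 2 * (2 / g)) := by field_simp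
    _ ≤ _ := by gcongr

end Pool.Agent.W184.NZ
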