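import Pool.Agent.W184.NZ.Low5

set_option autoImplicit false

/-! The lower bound: assembly. -/

namespace Pool.Agent.W184.NZ

open Finset Filter MeasureTheory Topology
open Pool.Agent.H306R2 (dv dA dv_nonneg dv_sq_le Dp)
open Pool.Agent.W184 (zn zn_nonneg zn_cont zn_le' DS DS_norm_le DS_differentiable mv_DS dv_le_one qa qa_nonneg
  qa_cont half_fixA zeta_sub_pow_le add_rpow_le')

/-- parameters -/
structure PR (c C κ α₀ : ℝ) (Rs : ℕ) (η g δ : ℝ) : Prop where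
  c0 : 0 ≤ c
  C0 : 0 ≤ C
  κ0 : 0 < κ
  κ1 : κ ≤ 1 / 60
  rs : Rok c Rs
  rs2 : Real.exp ((16 + 2 * Bc c) * Real.exp (-(Rs:ℝ))) ≤ 1 + κ
  rs3 : Real.exp c * (1 / 2) ^ Rs ≤ κ
  η0 : 0 < η
  η1 : η ≤ 1
  ηR : η * ((Rs:ℝ) + 1) = 1 / 1000
  g0 : 0 < g
  g1 : g * (1 + Real.exp C + 2 * κ) ≤ κ
  δ1 : 2 ≤ δ
  δe : δ = 4 * Real.log (2 / g)
  a0 : 0 < α₀
  a1 : α₀ ≤ 1 / 3000
  a2 : α₀ * (c - Real.log η) ≤ κ
  a3 : 3 * δ * α₀ ≤ κ
  a4 : 2 * C * α₀ ≤ κ
  a5 : 26 * c * α₀ ≤ κ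

lemma PR_ex (c C κ : ℝ) (hc : 0 ≤ c) (hC : 0 ≤ C) (hκ : 0 < κ) (hκ1 : κ ≤ 1 / 60) :
    ∃ (α₀ : ℝ) (Rs : ℕ) (η g δ : ℝ), PR c C κ α₀ Rs η g δ := by
  obtain ⟨Rs, hRs, hRs2, hRs3⟩ := Rs_ex2 c κ hκ
  have hE := Real.exp_pos C
  have hRs0 : (0:ℝ) ≤ Rs := Nat.cast_nonneg Rs
  set η : ℝ := 1 / (1000 * ((Rs:ℝ) + 1)) with hη
  have hη0 : 0 < η := by positivity
  have hη1 : η ≤ 1 := by rw [hη, div_le_one (by positivity)]; linarith
  have hlη : Real.log η ≤ 0 := Real.log_nonpos hη0.le hη1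
  set g : ℝ := κ / (3 + Real.exp C) with hg
  have hg0 : 0 < g := by positivity
  have hgκ : g ≤ 1 / 60 := by
    rw [hg, div_le_iff₀ (by positivity)]; linarith
  set δ : ℝ := 4 * Real.log (2 / g) with hδ
  have hδ2 : 2 ≤ δ := by
    have h1 : (2:ℝ) ≤ 2 / g := by rw [le_div_iff₀ hg0]; linarith
    have h2 := Real.log_le_log (by norm_num) h1
    have h3 := Real.log_two_gt_d9
    rw [hδ]; linarith
  refine ⟨min (1 / 3000) (min (κ / (c - Real.log η + 1)) (min (κ / (3 * δ)) (min (κ / (2 * C + 1)) (κ / (26 * c + 1))))),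
    Rs, η, g, δ, hc, hC, hκ, hκ1, hRs, hRs2, hRs3, hη0, hη1, ?_, hg0, ?_, hδ2, rfl, ?_, min_le_left _ _, ?_, ?_, ?_, ?_⟩
  · rw [hη]; field_simp
  · rw [hg, div_mul_eq_mul_div, div_le_iff₀ (by positivity)]
    nlinarith
  · refine lt_min (by norm_num) (lt_min ?_ (lt_min ?_ (lt_min ?_ ?_)))
    · exact div_pos hκ (by linarith)
    · exact div_pos hκ (by linarith)
    · exact div_pos hκ (by linarith)
    · exact div_pos hκ (by linarith)
  · have h1 := (min_le_right (1 / 3000 : ℝ) (min (κ / (c - Real.log η + 1)) (min (κ / (3 * δ)) (min (κ / (2 * C + 1)) (κ / (26 * c + 1)))))).trans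
      (min_le_left _ _)
    rw [le_div_iff₀ (by linarith)] at h1
    refine le_trans ?_ h1
    refine mul_le_mul_of_nonneg_left (by linarith) (le_min (by norm_num) (le_min ?_ (le_min ?_ (le_min ?_ ?_))))
    · exact (div_pos hκ (by linarith)).le
    · exact (div_pos hκ (by linarith)).le
    · exact (div_pos hκ (by linarith)).le
    · exact (div_pos hκ (by linarith)).le
  · have h1 := (min_le_right (1 / 3000 : ℝ) (min (κ / (c - Real.log η + 1)) (min (κ / (3 * δ)) (min (κ / (2 * C + 1)) (κ / (26 * c + 1)))))).trans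
      ((min_le_right _ _).trans (min_le_left _ _))
    rw [le_div_iff₀ (by linarith)] at h1
    linarith
  · have h1 := (min_le_right (1 / 3000 : ℝ) (min (κ / (c - Real.log η + 1)) (min (κ / (3 * δ)) (min (κ / (2 * C + 1)) (κ / (26 * c + 1)))))).trans
      ((min_le_right _ _).trans ((min_le_right _ _).trans (min_le_left _ _)))
    rw [le_div_iff₀ (by linarith)] at h1
    have h2 : 0 ≤ min (1 / 3000) (min (κ / (c - Real.log η + 1)) (min (κ / (3 * δ)) (min (κ / (2 * C + 1)) (κ / (26 * c + 1))))) :=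
      le_min (by norm_num) (le_min (div_pos hκ (by linarith)).le (le_min (div_pos hκ (by linarith)).le
        (le_min (div_pos hκ (by linarith)).le (div_pos hκ (by linarith)).le)))
    linarith
  · have h1 := (min_le_right (1 / 3000 : ℝ) (min (κ / (c - Real.log η + 1)) (min (κ / (3 * δ)) (min (κ / (2 * C + 1)) (κ / (26 * c + 1)))))).trans
      ((min_le_right _ _).trans ((min_le_right _ _).trans (min_le_right _ _)))
    rw [le_div_iff₀ (by linarith)] at h1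
    have h2 : 0 ≤ min (1 / 3000) (min (κ / (c - Real.log η + 1)) (min (κ / (3 * δ)) (min (κ / (2 * C + 1)) (κ / (26 * c + 1))))) :=
      le_min (by norm_num) (le_min (div_pos hκ (by linarith)).le (le_min (div_pos hκ (by linarith)).le
        (le_min (div_pos hκ (by linarith)).le (div_pos hκ (by linarith)).le)))
    linarith

/-- the exponent in the diagonal sum -/
lemma expo_ge {c C κ α₀ : ℝ} {Rs : ℕ} {η g δ : ℝ} (h : PR c C κ α₀ Rs η g δ) {α L V Δ : ℝ} {v : ℕ}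
    (hL : 1 ≤ L) (hα : 0 < α) (hαα : α ≤ α₀) (hV : Real.log η + Real.log L - c ≤ V)
    (hv : 0 < v) (hv3 : α * v ≤ 3) (hΔ : Δ = δ * v / (2 * L)) (hΔ1 : Δ ≤ 1 / 2) (hΔ0 : 0 ≤ Δ) :
    (1 - 4 * κ) * L ^ (α ^ 2) ≤
      Real.exp (α ^ 2 * V - α ^ 2 * (2 * Δ * (η * L + C)) - α ^ 2 * (α ^ 2 * C)) *
      (1 - Real.exp c * (1 / 2) ^ Rs) := by
  have hL0 : 0 < L := by linarith
  have hα1 : α ≤ 1 := by linarith [h.a1]
  have hκ := h.κ0
  have hκ1 := h.κ1
  have hLp : L ^ (α ^ 2) = Real.exp (α ^ 2 * Real.log L) := by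
    rw [Real.rpow_def_of_pos hL0, mul_comm]
  have hα2 : 0 ≤ α ^ 2 := sq_nonneg α
  have hα22 : α ^ 2 ≤ α := by nlinarith
  have hlη : Real.log η ≤ 0 := Real.log_nonpos h.η0.le h.η1
  have d1 : α ^ 2 * (Real.log η + Real.log L - c) ≤ α ^ 2 * V := mul_le_mul_of_nonneg_left hV hα2
  have d2 : α ^ 2 * (c - Real.log η) ≤ κ := by
    calc α ^ 2 * (c - Real.log η) ≤ α₀ * (c - Real.log η) := by
          refine mul_le_mul_of_nonneg_right (hα22.trans hαα) ?_
          linarith [h.c0]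
      _ ≤ κ := h.a2
  have d3 : α ^ 2 * (2 * Δ * (η * L)) ≤ κ := by
    have e1 : α ^ 2 * (2 * Δ * (η * L)) = (α * (α * v)) * (δ * η) := by
      rw [hΔ]; field_simp
    rw [e1]
    have e2 : α * (α * v) ≤ α * 3 := mul_le_mul_of_nonneg_left hv3 hα.le
    have e3 : δ * η ≤ δ * 1 := mul_le_mul_of_nonneg_left h.η1 (by linarith [h.δ1])
    have hδ0 : 0 ≤ δ := by linarith [h.δ1]
    have hη0 := h.η0
    calc α * (α * v) * (δ * η) ≤ α * 3 * (δ * 1) := mul_le_mul e2 e3 (by positivity) (by positivity)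
      _ = 3 * δ * α := by ring
      _ ≤ 3 * δ * α₀ := by gcongr
      _ ≤ κ := h.a3
  have hC0 := h.C0
  have d4 : α ^ 2 * (2 * Δ * C) + α ^ 2 * (α ^ 2 * C) ≤ κ := by
    have e1 : α ^ 2 * (2 * Δ * C) ≤ α * (1 * C) := by
      refine mul_le_mul hα22 ?_ (by positivity) hα.le
      refine mul_le_mul_of_nonneg_right (by linarith) hC0
    have e2 : α ^ 2 * (α ^ 2 * C) ≤ α * (1 * C) := by
      refine mul_le_mul hα22 ?_ (by positivity) hα.le
      refine mul_le_mul_of_nonneg_right (by linarith) hC0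
    have e3 : 2 * C * α ≤ 2 * C * α₀ := by gcongr
    have := h.a4
    linarith
  have d5 : Real.exp (α ^ 2 * Real.log L - 3 * κ) ≤
      Real.exp (α ^ 2 * V - α ^ 2 * (2 * Δ * (η * L + C)) - α ^ 2 * (α ^ 2 * C)) := by
    refine Real.exp_le_exp.mpr ?_
    have : α ^ 2 * (2 * Δ * (η * L + C)) = α ^ 2 * (2 * Δ * (η * L)) + α ^ 2 * (2 * Δ * C) := by ring
    rw [this]
    have e5 : α ^ 2 * (Real.log η + Real.log L - c) = α ^ 2 * Real.log L - α ^ 2 * (c - Real.log η) := by ring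
    linarith
  have d6 : 1 - 3 * κ ≤ Real.exp (-(3 * κ)) := by
    have := Real.add_one_le_exp (-(3 * κ)); linarith
  have hr3 := h.rs3
  have hr0 : 0 ≤ Real.exp c * (1 / 2) ^ Rs := by positivity
  rw [hLp]
  have hx := Real.exp_pos (α ^ 2 * Real.log L)
  calc (1 - 4 * κ) * Real.exp (α ^ 2 * Real.log L) ≤
      ((1 - 3 * κ) * Real.exp (α ^ 2 * Real.log L)) * (1 - κ) := by
        nlinarith [mul_pos hκ hx, mul_pos (mul_pos hκ hκ) hx]
    _ ≤ (Real.exp (-(3 * κ)) * Real.exp (α ^ 2 * Real.log L)) * (1 - Real.exp c * (1 / 2) ^ Rs) := by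
        refine mul_le_mul (mul_le_mul_of_nonneg_right d6 hx.le) (by linarith) (by linarith) (by positivity)
    _ = Real.exp (α ^ 2 * Real.log L - 3 * κ) * (1 - Real.exp c * (1 / 2) ^ Rs) := by
        rw [← Real.exp_add]; congr 2; ring
    _ ≤ _ := mul_le_mul_of_nonneg_right d5 (by linarith)

end Pool.Agent.W184.NZ
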