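import Pool.Agent.W184.NZ.Low6

set_option autoImplicit false

/-! The lower bound. -/

namespace Pool.Agent.W184.NZ

open Finset Filter MeasureTheory Topology
open Pool.Agent.H306R2 (dv dA dv_nonneg dv_sq_le Dp)
open Pool.Agent.W184 (zn zn_nonneg zn_cont zn_le' DS DS_norm_le DS_differentiable mv_DS dv_le_one qa qa_nonneg
  qa_cont half_fixA zeta_sub_pow_le add_rpow_le')

/-- the twisted moment from below -/
lemma Z0_ge {c C κ α₀ : ℝ} {Rs : ℕ} {η g δ : ℝ} (h : PR c C κ α₀ Rs η g δ)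
    (hSB : ∀ (v N J Rs : ℕ) (b y T Δ α c : ℝ), 2 ≤ v → 0 ≤ b → 1 / (v:ℝ) + b = α → α ≤ 1 →
      144 ≤ y → Rg c J (II y) (bb y) → Real.exp c * (1 / 2) ^ Rs ≤ 1 → 0 ≤ Δ → 3 ≤ T → PX J Rs y ≤ N → 3 ≤ N →
      (N:ℝ) * PX J Rs y ≤ T ^ ((5:ℝ)/8) →
      SB v N J Rs b y T Δ α (∑ i ∈ range J, vI (II y i)) C c (6 * T ^ ((5:ℝ)/8) * (1 + Real.log T)))
    {T : ℝ} (hT : 100 ≤ T) (hL10 : 10 ≤ Real.log T)
    (hE2 : 72 * T ^ ((5:ℝ)/8) + 200 + 2 * T ^ ((1:ℝ)/4) * (Real.exp C * Real.log T) +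
      3 * (6 * T ^ ((5:ℝ)/8) * (1 + Real.log T)) ≤ κ * T)
    {J : ℕ} (hy : 144 ≤ Real.exp (η * Real.log T))
    (hR : Rg c J (II (Real.exp (η * Real.log T))) (bb (Real.exp (η * Real.log T))))
    (hV : Real.log η + Real.log (Real.log T) - c ≤ ∑ i ∈ range J, vI (II (Real.exp (η * Real.log T)) i))
    {α : ℝ} (hα : 0 < α) (hαα : α ≤ α₀) {v : ℕ} (hv : 16 ≤ v) (hv2 : 2 ≤ α * v) (hv3 : α * v ≤ 3)
    (hΔ : δ * v / (2 * Real.log T) ≤ κ / 40) :
    (1 - 11 * κ) * (T * Real.log T ^ (α ^ 2)) ≤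
      ∫ t in (0:ℝ)..T, zw v J (fun i => Rs + i) (α - 1 / v) (II (Real.exp (η * Real.log T))) (1 / 2) t := by
  have hκ := h.κ0
  have hκ1 := h.κ1
  have hC0 := h.C0
  set L := Real.log T with hL
  have hL0 : 0 < L := by linarith
  have hT0 : 0 < T := by linarith
  have hT1 : 1 ≤ T := by linarith
  set y : ℝ := Real.exp (η * L) with hyd
  have hly : Real.log y = η * L := Real.log_exp _
  have hy1 : 1 ≤ y := by linarith
  have hα1 : α ≤ 1 := by linarith [h.a1]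
  have hv0 : (0:ℝ) < v := by exact_mod_cast (by omega : 0 < v)
  have hv16 : (16:ℝ) ≤ v := by exact_mod_cast hv
  set b : ℝ := α - 1 / v with hb
  have hab : 1 / (v:ℝ) + b = α := by rw [hb]; ring
  have hb0 : 0 ≤ b := by
    rw [hb, sub_nonneg, div_le_iff₀ hv0]; linarith
  have hb1 : b ≤ 1 := by
    have : 0 < 1 / (v:ℝ) := by positivity
    linarith
  have hα2 : 0 ≤ α ^ 2 := sq_nonneg α
  have hα21 : α ^ 2 ≤ 1 := by nlinarith
  have hLp : L ^ (α ^ 2) = Real.exp (α ^ 2 * Real.log L) := by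
    rw [Real.rpow_def_of_pos hL0, mul_comm]
  have hLp1 : 1 ≤ L ^ (α ^ 2) := Real.one_le_rpow (by linarith) hα2
  have hLL : 0 ≤ Real.log L := Real.log_nonneg (by linarith)
  set M : ℝ := T * L ^ (α ^ 2) with hM
  have hMT : T ≤ M := le_mul_of_one_le_right hT0.le hLp1
  have hM0 : 0 < M := by linarith
  set Δ : ℝ := δ * v / (2 * L) with hΔd
  have hδ2 := h.δ1
  have hΔ0 : 0 < Δ := by positivity
  have hΔ16 : Δ ≤ 1 / 16 := by linarith
  have hΔT : 1 / Δ ≤ T := by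
    have e1 : 1 ≤ L * Δ := by
      have : L * Δ = δ * v / 2 := by rw [hΔd]; field_simp
      rw [this]
      nlinarith
    have e2 : L ≤ T := by
      have := Real.log_le_sub_one_of_pos hT0
      linarith
    rw [div_le_iff₀ hΔ0]
    calc (1:ℝ) ≤ L * Δ := e1
      _ ≤ T * Δ := by gcongr
  -- lengths
  have hPX1 := PX_one_le (J := J) (Rs := Rs) hy1
  have hPX8 : PX J Rs y ≤ T ^ ((1:ℝ)/8) := by
    refine (PX_le hy1).trans ?_
    rw [hly, Real.rpow_def_of_pos hT0, ← hL]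
    refine Real.exp_le_exp.mpr ?_
    have : η * L * (2 * ((Rs:ℝ) + 1)) = 2 * (η * ((Rs:ℝ) + 1)) * L := by ring
    rw [this, h.ηR]
    linarith
  obtain ⟨n1, n2, n3, n4, n5⟩ := len_ok hT hPX1 hPX8
  set N : ℕ := ⌊T ^ ((1:ℝ)/2)⌋₊ with hN
  have hbb := fun i => bb_one_le hy1 i
  have hdj : ∀ i j, i < j → Disjoint (II y i) (II y j) := fun i j h => II_disj hy1 h
  have hIp : ∀ i, ∀ p ∈ II y i, p.Prime := fun i p hp => (II_pr i p hp).1
  have hr3 := h.rs3
  obtain ⟨s1, s0, se⟩ := hSB v N J Rs b y T Δ α c (by omega) hb0 hab hα1 hy hR (by linarith) hΔ0.le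
    (by linarith) n1 n2 n3
  rw [← hL] at s1 s0 se
  set e := 6 * T ^ ((5:ℝ)/8) * (1 + L) with he
  have he0 : 0 ≤ e := by positivity
  have hz := zw_half (v := v) (J := J) (K := fun i => Rs + i) hv hb0 hb1 hbb (fun i p hp => II_pr i p hp) hdj hT1
    hPX8 hΔ0 hΔ16 hΔT
  have hd := dw_half (v := v) (N := N) (J := J) (K := fun i => Rs + i) hv hb0 hb1 hbb
    (fun i p hp => II_pr i p hp) hdj hT1 hPX8 hΔ0 hΔ16 hΔT (by omega) n4 se
  have h13 := int_add_le' (sw_cont (v := v) (N := N) (J := J) (K := fun i => Rs + i) (b := b) hIp (1 / 2 + Δ))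
    (zw_cont (v := v) (J := J) (K := fun i => Rs + i) (b := b) (by omega) hIp (σ := 1 / 2 + Δ) (by linarith))
    (dw_cont (v := v) (N := N) (J := J) (K := fun i => Rs + i) (b := b) (by omega) hIp (σ := 1 / 2 + Δ) (by linarith))
    hT0.le (tr3 (by omega) (1 / 2 + Δ))
  have hZ00 : 0 ≤ ∫ t in (0:ℝ)..T, zw v J (fun i => Rs + i) b (II y) (1 / 2) t := by
    refine intervalIntegral.integral_nonneg hT0.le fun t _ => ?_
    unfold zw
    exact mul_nonneg (Real.rpow_nonneg (zn_nonneg _ _) _) (by positivity)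
  have hZ10 : 0 ≤ ∫ t in (0:ℝ)..T, zw v J (fun i => Rs + i) b (II y) (1 / 2 + Δ) t := by
    refine intervalIntegral.integral_nonneg hT0.le fun t _ => ?_
    unfold zw
    exact mul_nonneg (Real.rpow_nonneg (zn_nonneg _ _) _) (by positivity)
  have hD10 : 0 ≤ ∫ t in (0:ℝ)..T, dw v N J (fun i => Rs + i) b (II y) (1 / 2 + Δ) t := by
    refine intervalIntegral.integral_nonneg hT0.le fun t _ => ?_
    unfold dw
    exact qa_nonneg _ _ _ _ _
  set f : ℝ := (1 - 8 * Δ) * Real.exp (-(32 * Δ)) with hf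
  have hf1 : 1 - κ ≤ f := by
    have e1 := Real.add_one_le_exp (-(32 * Δ))
    have e2 : (1 - 8 * Δ) * (1 - 32 * Δ) ≤ f := by
      rw [hf]; exact mul_le_mul_of_nonneg_left (by linarith) (by linarith)
    nlinarith
  have hG := G_ge (N := (N:ℝ)) hT1 hL hL0 h.g0 (by linarith) h.δe (show 1 / 2 ≤ f by linarith) (by omega) hΔd n5
  have hex : Real.exp (α ^ 2 * (Real.log L + C)) ≤ Real.exp C * L ^ (α ^ 2) := by
    rw [hLp, ← Real.exp_add]
    refine Real.exp_le_exp.mpr ?_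
    nlinarith
  have hex2 : Real.exp (α ^ 2 * (Real.log L + C)) ≤ Real.exp C * L := by
    nth_rewrite 2 [← Real.exp_log hL0]
    rw [← Real.exp_add]
    refine Real.exp_le_exp.mpr ?_
    nlinarith
  have hx0 := expo_ge h (by linarith) hα hαα hV (by omega) hv3 hΔd (by linarith) hΔ0.le
  have hT14 : 0 < T ^ ((1:ℝ)/4) := by positivity
  have hT58 : 0 < T ^ ((5:ℝ)/8) := by positivity
  have hE2a : 2 * T ^ ((1:ℝ)/4) * Real.exp (α ^ 2 * (Real.log L + C)) ≤
      2 * T ^ ((1:ℝ)/4) * (Real.exp C * L) := mul_le_mul_of_nonneg_left hex2 (by positivity)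
  have hE0 : 0 ≤ 2 * T ^ ((1:ℝ)/4) * (Real.exp C * L) := by positivity
  have hκMT : κ * T ≤ κ * M := mul_le_mul_of_nonneg_left hMT hκ.le
  refine alg1 (E := Real.exp C)
    (S1 := ∫ t in (0:ℝ)..T, sw v N J (fun i => Rs + i) b (II y) (1 / 2 + Δ) t)
    (S0 := ∫ t in (0:ℝ)..T, sw v N J (fun i => Rs + i) b (II y) (1 / 2) t)
    (Z1 := ∫ t in (0:ℝ)..T, zw v J (fun i => Rs + i) b (II y) (1 / 2 + Δ) t)
    (D1 := ∫ t in (0:ℝ)..T, dw v N J (fun i => Rs + i) b (II y) (1 / 2 + Δ) t)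
    (f := f) (G := (N:ℝ) ^ (Δ * (2 / (v:ℝ)))) (g := g)
    hκ hκ1 hM0 (Real.exp_pos C).le hZ00 hZ10 hD10 h.g0 h.g1 ?_ ?_ ?_ hf1 ?_ hG h13
  · rw [hly] at s1
    have e1 := mul_le_mul_of_nonneg_left hx0 hT0.le
    have e2 : T * ((1 - 4 * κ) * L ^ (α ^ 2)) = (1 - 4 * κ) * M := by rw [hM]; ring
    rw [e2] at e1
    linarith
  · have e1 := mul_le_mul_of_nonneg_left hex hT0.le
    have e2 : T * (Real.exp C * L ^ (α ^ 2)) = Real.exp C * M := by rw [hM]; ring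
    rw [e2] at e1
    linarith
  · linarith
  · linarith

/-- lower bound, away from `0` -/
theorem low_nz {ε : ℝ} (hε : 0 < ε) : ∃ α₀ : ℝ, 0 < α₀ ∧ α₀ ≤ 1 / 3000 ∧ ∀ τ : ℝ, 0 < τ → ∀ᶠ T : ℝ in atTop,
    ∀ α : ℝ, τ / √(Real.log (Real.log T)) ≤ α → α ≤ α₀ →
    (1 - ε) * (T * Real.log T ^ (α ^ 2)) ≤ ∫ t in (0:ℝ)..T, zn (1 / 2) t ^ (2 * α) := by
  obtain ⟨c, hc, hrg⟩ := ranges
  obtain ⟨C, hC, hSB⟩ := SB_of
  set κ : ℝ := min ε 1 / 60 with hκd
  have hκ : 0 < κ := by rw [hκd]; have := lt_min hε one_pos; linarith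
  have hκ1 : κ ≤ 1 / 60 := by rw [hκd]; have := min_le_right ε 1; linarith
  have hκε : 60 * κ ≤ ε := by rw [hκd]; have := min_le_left ε 1; linarith
  obtain ⟨α₀, Rs, η, g, δ, h⟩ := PR_ex c C κ hc hC hκ hκ1
  refine ⟨α₀, h.a0, h.a1, fun τ hτ => ?_⟩
  have hlogt := Real.tendsto_log_atTop
  have hη0 := h.η0
  have hδ1 := h.δ1
  have hδ0 : 0 < δ := by linarith
  have hsq : Tendsto (fun T : ℝ => √(Real.log T)) atTop atTop := Real.tendsto_sqrt_atTop.comp hlogt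
  filter_upwards [ev_err hκ (Real.exp C) (Real.exp_pos C).le, hlogt.eventually_ge_atTop (Real.log 144 / η),
    hlogt.eventually_ge_atTop 10, eventually_ge_atTop 100, hsq.eventually_ge_atTop (60 * δ / (τ * κ))]
    with T h1 h2 h3 hT h5 α hτα hαα
  obtain ⟨h1, h1'⟩ := h1
  have hT0 : 0 < T := by linarith
  have hT1 : 1 ≤ T := by linarith
  have hL0 : 0 < Real.log T := by linarith
  have hLL0 : 0 < Real.log (Real.log T) := Real.log_pos (by linarith)
  have hsLL : 0 < √(Real.log (Real.log T)) := Real.sqrt_pos.mpr hLL0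
  have hα : 0 < α := lt_of_lt_of_le (by positivity) hτα
  have hα1 : α ≤ 1 / 3000 := hαα.trans h.a1
  have hy144 : 144 ≤ Real.exp (η * Real.log T) := by
    rw [← Real.log_le_iff_le_exp (by norm_num)]
    rw [div_le_iff₀ hη0] at h2
    linarith
  obtain ⟨J, hJ1, -, -, hJ4⟩ := hrg _ hy144
  have hlly : Real.log (Real.log (Real.exp (η * Real.log T))) = Real.log η + Real.log (Real.log T) := by
    rw [Real.log_exp, Real.log_mul hη0.ne' hL0.ne']
  rw [hlly, abs_le] at hJ4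
  have hlη : Real.log η ≤ 0 := Real.log_nonpos hη0.le h.η1
  obtain ⟨v, hv, hv2, hv3⟩ := v_ex hα hα1
  have hv0 : (0:ℝ) < v := by exact_mod_cast (by omega : 0 < v)
  have hΔ : δ * v / (2 * Real.log T) ≤ κ / 40 := by
    -- v ≤ 3/α ≤ 3√LL/τ
    have e1 : (v:ℝ) ≤ 3 / α := by rw [le_div_iff₀ hα]; linarith
    have e2 : τ ≤ α * √(Real.log (Real.log T)) := by rwa [div_le_iff₀ hsLL] at hτα
    have e3 : √(Real.log (Real.log T)) ≤ √(Real.log T) :=
      Real.sqrt_le_sqrt (by have := Real.log_le_sub_one_of_pos hL0; linarith)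
    have hs0 : 0 < √(Real.log T) := Real.sqrt_pos.mpr hL0
    have e4 : τ ≤ α * √(Real.log T) := e2.trans (mul_le_mul_of_nonneg_left e3 hα.le)
    have e5 : τ * v ≤ 3 * √(Real.log T) := by
      calc τ * v ≤ (α * √(Real.log T)) * v := by gcongr
        _ = (α * v) * √(Real.log T) := by ring
        _ ≤ _ := by gcongr
    have e6 : Real.log T = √(Real.log T) * √(Real.log T) := (Real.mul_self_sqrt hL0.le).symm
    rw [div_le_iff₀ (by positivity)] at h5
    rw [div_le_iff₀ (by positivity)]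
    have e7 : τ * (δ * v) ≤ τ * (κ / 40 * (2 * Real.log T)) := by
      calc τ * (δ * v) = δ * (τ * v) := by ring
        _ ≤ δ * (3 * √(Real.log T)) := by gcongr
        _ = (60 * δ) * √(Real.log T) / 20 := by ring
        _ ≤ (√(Real.log T) * (τ * κ)) * √(Real.log T) / 20 := by gcongr
        _ = τ * κ * (√(Real.log T) * √(Real.log T)) / 20 := by ring
        _ = τ * (κ / 40 * (2 * Real.log T)) := by rw [← e6]; ring
    exact le_of_mul_le_mul_left e7 hτ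
  have hZ := Z0_ge h hSB hT h3 h1' hy144 hJ1 (by linarith) hα hαα hv hv2 hv3 hΔ
  set y : ℝ := Real.exp (η * Real.log T) with hyd
  have hy1 : 1 ≤ y := by linarith
  set b : ℝ := α - 1 / v with hb
  have hb0 : 0 ≤ b := by
    rw [hb, sub_nonneg, div_le_iff₀ hv0]; linarith
  have hbα : b ≤ 1 / 3000 := by
    have : 0 < 1 / (v:ℝ) := by positivity
    linarith
  set p : ℝ := α * v with hp
  have hp1 : 1 < p := by linarith
  set q : ℝ := p / (p - 1) with hq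
  have hpq : p.HolderConjugate q := by
    rw [hq]; exact Real.HolderConjugate.conjExponent hp1
  have hq0 : 0 < q := by rw [hq]; exact div_pos (by linarith) (by linarith)
  have hq2 : q ≤ 2 := by rw [hq, div_le_iff₀ (by linarith)]; linarith
  have hbq : b * (2 * q) = 2 * α := by
    rw [hb, hq, hp]
    have : α * v - 1 ≠ 0 := by linarith
    field_simp
  have hIp : ∀ i, ∀ p ∈ II y i, p.Prime := fun i p hp => (II_pr i p hp).1
  have hαc : 13 * α ^ 2 * c ≤ κ / 2 := by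
    have e1 := h.a5
    have e2 : α ^ 2 ≤ α₀ := by nlinarith
    have : 13 * α ^ 2 * c ≤ 13 * α₀ * c := by gcongr
    linarith
  have hW := W_mom hc hκ (by linarith) h.rs h.rs2 hη0 h.ηR hT1 h3 h1 hα (by linarith) hαc hb0 hbα
    (q := 2 * q) (by positivity) (by linarith) hbq hJ1 (by linarith)
  -- Hölder
  have hzc := zn_cont (σ := 1 / 2) (by norm_num)
  have hwc : Continuous fun t : ℝ => ‖Wf J (fun i => Rs + i) b (II y) (((1 / 2 : ℝ) : ℂ) + t * Complex.I)‖ ^ 2 :=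
    ((Wl_cont hIp (1 / 2)).norm.pow 2)
  have hH := holder_use (f := fun t => zn (1 / 2) t ^ (2 / (v:ℝ)))
    (g := fun t : ℝ => ‖Wf J (fun i => Rs + i) b (II y) (((1 / 2 : ℝ) : ℂ) + t * Complex.I)‖ ^ 2)
    (hzc.rpow_const fun _ => Or.inr (by positivity)) hwc
    (fun t => Real.rpow_nonneg (zn_nonneg _ _) _) (fun t => by positivity) hT0.le hpq
  have hfe : ∀ t : ℝ, (zn (1 / 2) t ^ (2 / (v:ℝ))) ^ p = zn (1 / 2) t ^ (2 * α) := by
    intro t
    rw [← Real.rpow_mul (zn_nonneg _ _)]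
    congr 1
    rw [hp]; field_simp
  have hge : ∀ t : ℝ, (‖Wf J (fun i => Rs + i) b (II y) (((1 / 2 : ℝ) : ℂ) + t * Complex.I)‖ ^ 2) ^ q =
      ‖Wf J (fun i => Rs + i) b (II y) (1 / 2 + t * Complex.I)‖ ^ (2 * q) := by
    intro t
    rw [← Real.rpow_natCast, ← Real.rpow_mul (norm_nonneg _)]
    norm_num
  simp_rw [hfe, hge] at hH
  have hP0 : 0 ≤ ∫ t in (0:ℝ)..T, zn (1 / 2) t ^ (2 * α) :=
    intervalIntegral.integral_nonneg hT0.le fun t _ => Real.rpow_nonneg (zn_nonneg _ _) _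
  have hG0 : 0 ≤ ∫ t in (0:ℝ)..T, ‖Wf J (fun i => Rs + i) b (II y) (1 / 2 + t * Complex.I)‖ ^ (2 * q) :=
    intervalIntegral.integral_nonneg hT0.le fun t _ => Real.rpow_nonneg (norm_nonneg _) _
  have hM0 : 0 < T * Real.log T ^ (α ^ 2) := by positivity
  have := alg2 hM0 hP0 hG0 (s := 11 * κ) (r := 4 * κ) (by linarith) (by linarith) (by linarith)
    (by linarith) hv3 hpq hZ hW hH
  refine le_trans (mul_le_mul_of_nonneg_right ?_ hM0.le) this
  linarith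

end Pool.Agent.W184.NZ
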