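import Pool.Agent.W184.NZ.DvSum

set_option autoImplicit false

/-! Lower bound for the diagonal sum of the twisted polynomial. -/

namespace Pool.Agent.W184.NZ

open Finset Pool.Agent.H306R2

lemma exp_le_one_add {x : ℝ} (h0 : 0 ≤ x) : Real.exp (x - x ^ 2) ≤ 1 + x := by
  have h1 := Real.add_one_le_exp (-(x - x ^ 2))
  have h2 : 0 < 1 - x + x ^ 2 := by nlinarith [sq_nonneg (x - 1 / 2)]
  have h3 : Real.exp (x - x ^ 2) = (Real.exp (-(x - x ^ 2)))⁻¹ := by rw [← Real.exp_neg, neg_neg]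
  rw [h3]
  have h4 : (Real.exp (-(x - x ^ 2)))⁻¹ ≤ (1 - x + x ^ 2)⁻¹ := inv_anti₀ h2 (by linarith)
  refine h4.trans ?_
  rw [inv_le_comm₀ h2 (by linarith), inv_eq_one_div, div_le_iff₀ (by linarith)]
  nlinarith [pow_nonneg h0 3]

section
variable {J : ℕ} {K : ℕ → ℕ} {I : ℕ → Finset ℕ}

/-- the admissible sets of primes -/
noncomputable def FF (J : ℕ) (K : ℕ → ℕ) (I : ℕ → Finset ℕ) : Finset (Finset ℕ) :=
  ((range J).biUnion I).powerset.filter fun S => ∀ i < J, (S ∩ I i).card ≤ K i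

theorem FF_sum {x : ℕ → ℝ} (hx : ∀ p, 0 ≤ x p) {E : ℝ} (hE : ∀ i < J, ∑ p ∈ I i, x p ≤ E) :
    (∏ p ∈ (range J).biUnion I, (1 + x p)) * (1 - Real.exp E * ∑ i ∈ range J, (1 / 2) ^ (K i + 1)) ≤
      ∑ S ∈ FF J K I, ∏ p ∈ S, x p := by
  classical
  set U := (range J).biUnion I with hU
  have hpw : ∏ p ∈ U, (1 + x p) = ∑ S ∈ U.powerset, ∏ p ∈ S, x p := prod_one_add U
  have hP : 0 ≤ ∏ p ∈ U, (1 + x p) := prod_nonneg fun p _ => by linarith [hx p]
  -- the bad sets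
  have hbad : ∑ S ∈ U.powerset.filter (fun S => ¬ ∀ i < J, (S ∩ I i).card ≤ K i), ∏ p ∈ S, x p ≤
      ∑ i ∈ range J, (1 / 2) ^ (K i + 1) * (Real.exp E * ∏ p ∈ U, (1 + x p)) := by
    have h1 : ∀ S ∈ U.powerset.filter (fun S => ¬ ∀ i < J, (S ∩ I i).card ≤ K i), ∏ p ∈ S, x p ≤
        ∑ i ∈ range J, (1 / 2) ^ (K i + 1) * (2 ^ (S ∩ I i).card * ∏ p ∈ S, x p) := by
      intro S hS
      rw [mem_filter] at hS
      have h2 := hS.2
      push Not at h2
      obtain ⟨i, hi, hK⟩ := h2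
      have hp0 : 0 ≤ ∏ p ∈ S, x p := prod_nonneg fun p _ => hx p
      have h3 : (1:ℝ) ≤ (1 / 2) ^ (K i + 1) * 2 ^ (S ∩ I i).card := by
        have h4 : (2:ℝ) ^ (K i + 1) ≤ 2 ^ (S ∩ I i).card := pow_le_pow_right₀ (by norm_num) hK
        calc (1:ℝ) = (1 / 2) ^ (K i + 1) * 2 ^ (K i + 1) := by rw [← mul_pow]; norm_num
          _ ≤ _ := by gcongr
      calc ∏ p ∈ S, x p ≤ ((1 / 2) ^ (K i + 1) * 2 ^ (S ∩ I i).card) * ∏ p ∈ S, x p :=
            le_mul_of_one_le_left hp0 h3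
        _ = (1 / 2) ^ (K i + 1) * (2 ^ (S ∩ I i).card * ∏ p ∈ S, x p) := by ring
        _ ≤ _ := single_le_sum (f := fun i => (1 / 2 : ℝ) ^ (K i + 1) * (2 ^ (S ∩ I i).card * ∏ p ∈ S, x p))
            (fun i _ => by positivity) (mem_range.mpr hi)
    refine (sum_le_sum h1).trans ?_
    rw [sum_comm]
    refine sum_le_sum fun i hi => ?_
    rw [← mul_sum]
    refine mul_le_mul_of_nonneg_left ?_ (by positivity)
    have h5 : ∑ S ∈ U.powerset.filter (fun S => ¬ ∀ i < J, (S ∩ I i).card ≤ K i),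
        (2:ℝ) ^ (S ∩ I i).card * ∏ p ∈ S, x p ≤ ∑ S ∈ U.powerset, (2:ℝ) ^ (S ∩ I i).card * ∏ p ∈ S, x p := by
      refine sum_le_sum_of_subset_of_nonneg (filter_subset _ _) fun S _ _ => ?_
      exact mul_nonneg (by positivity) (prod_nonneg fun p _ => hx p)
    refine h5.trans ?_
    have h6 : ∀ S ∈ U.powerset, (2:ℝ) ^ (S ∩ I i).card * ∏ p ∈ S, x p =
        ∏ p ∈ S, ((if p ∈ I i then 2 else 1) * x p) := by
      intro S _
      rw [prod_mul_distrib, prod_ite, prod_const_one, mul_one, prod_const, filter_mem_eq_inter]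
    rw [sum_congr rfl h6, ← prod_one_add U]
    have h7 : ∏ p ∈ U, (1 + (if p ∈ I i then 2 else 1) * x p) ≤
        ∏ p ∈ U, ((1 + x p) * Real.exp (if p ∈ I i then x p else 0)) := by
      refine prod_le_prod (fun p _ => ?_) fun p _ => ?_
      · have := hx p
        split_ifs <;> nlinarith
      · have h0 := hx p
        split_ifs with h
        · have := Real.add_one_le_exp (x p)
          nlinarith
        · rw [Real.exp_zero, one_mul, mul_one]
    refine h7.trans ?_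
    rw [prod_mul_distrib, ← Real.exp_sum, mul_comm]
    refine mul_le_mul_of_nonneg_right (Real.exp_le_exp.mpr ?_) hP
    rw [← sum_filter]
    refine le_trans ?_ (hE i (mem_range.mp hi))
    refine sum_le_sum_of_subset_of_nonneg ?_ fun p _ _ => hx p
    intro p hp
    exact (mem_filter.mp hp).2
  have hsplit := sum_filter_add_sum_filter_not U.powerset (fun S => ∀ i < J, (S ∩ I i).card ≤ K i)
    (fun S => ∏ p ∈ S, x p)
  have h8 : ∑ i ∈ range J, (1 / 2 : ℝ) ^ (K i + 1) * (Real.exp E * ∏ p ∈ U, (1 + x p)) =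
      (∏ p ∈ U, (1 + x p)) * (Real.exp E * ∑ i ∈ range J, (1 / 2) ^ (K i + 1)) := by
    rw [← sum_mul]; ring
  rw [h8] at hbad
  have h9 : ∑ S ∈ FF J K I, ∏ p ∈ S, x p =
      ∑ S ∈ U.powerset.filter (fun S => ∀ i < J, (S ∩ I i).card ≤ K i), ∏ p ∈ S, x p := rfl
  rw [h9]
  rw [← hpw] at hsplit
  linarith

lemma prod_le_bd {bd : ℕ → ℝ} (hb1 : ∀ i, 1 ≤ bd i) (hI : ∀ i, ∀ p ∈ I i, (p:ℝ) ≤ bd i)
    (hd : ∀ i j, i < j → Disjoint (I i) (I j)) {S : Finset ℕ} (hS : S ∈ FF J K I) :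
    ((∏ p ∈ S, p : ℕ) : ℝ) ≤ ∏ i ∈ range J, bd i ^ K i := by
  classical
  unfold FF at hS
  rw [mem_filter, mem_powerset] at hS
  have e1 : S = (range J).biUnion fun i => S ∩ I i := by
    ext p
    rw [mem_biUnion]
    constructor
    · intro hp
      obtain ⟨i, hi, hi2⟩ := mem_biUnion.mp (hS.1 hp)
      exact ⟨i, hi, mem_inter.mpr ⟨hp, hi2⟩⟩
    · rintro ⟨i, _, hi⟩
      exact (mem_inter.mp hi).1
  have hdj : Set.PairwiseDisjoint (↑(range J)) fun i => S ∩ I i := by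
    intro i _ j _ hij
    have : Disjoint (I i) (I j) := by
      rcases lt_or_gt_of_ne hij with h | h
      · exact hd i j h
      · exact (hd j i h).symm
    exact this.mono inter_subset_right inter_subset_right
  push_cast
  rw [e1, prod_biUnion hdj]
  refine prod_le_prod (fun i _ => prod_nonneg fun p _ => Nat.cast_nonneg p) fun i hi => ?_
  calc ∏ p ∈ S ∩ I i, (p:ℝ) ≤ ∏ _p ∈ S ∩ I i, bd i :=
        prod_le_prod (fun p _ => Nat.cast_nonneg p) fun p hp => hI i p (mem_inter.mp hp).2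
    _ = bd i ^ (S ∩ I i).card := by rw [prod_const]
    _ ≤ bd i ^ K i := pow_le_pow_right₀ (hb1 i) (hS.2 i (mem_range.mp hi))

/-- the diagonal sum -/
theorem cA_sum_ge {a b : ℝ} (ha : 0 ≤ a) (hb : 0 ≤ b) {bd : ℕ → ℝ} {N : ℕ} (hb1 : ∀ i, 1 ≤ bd i)
    (hI : ∀ i, ∀ p ∈ I i, p.Prime ∧ (p:ℝ) ≤ bd i)
    (hd : ∀ i j, i < j → Disjoint (I i) (I j)) (hN : ∏ i ∈ range J, bd i ^ K i ≤ N) {M : ℕ} (hM : N ≤ M) (σ : ℝ) :
    ∑ S ∈ FF J K I, ∏ p ∈ S, ((a + b) ^ 2 * (p:ℝ) ^ (-(2 * σ))) ≤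
      ∑ n ∈ Icc 1 M, cA a N J K b I n ^ 2 * (n:ℝ) ^ (-(2 * σ)) := by
  classical
  have hSp : ∀ S ∈ FF J K I, ∀ p ∈ S, p.Prime := by
    intro S hS p hp
    unfold FF at hS
    rw [mem_filter, mem_powerset] at hS
    obtain ⟨i, -, hi⟩ := mem_biUnion.mp (hS.1 hp)
    exact (hI i p hi).1
  have hSN : ∀ S ∈ FF J K I, ∏ p ∈ S, p ≤ N := by
    intro S hS
    have := (prod_le_bd hb1 (fun i p hp => (hI i p hp).2) hd hS).trans hN
    exact_mod_cast this
  have hinj : Set.InjOn (fun S : Finset ℕ => ∏ p ∈ S, p) (↑(FF J K I)) := by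
    intro S hS T hT h
    have h1 := Nat.primeFactors_prod (hSp S hS)
    have h2 := Nat.primeFactors_prod (hSp T hT)
    simp only at h
    rw [← h1, ← h2, h]
  have hsub : (FF J K I).image (fun S : Finset ℕ => ∏ p ∈ S, p) ⊆ Icc 1 M := by
    intro n hn
    obtain ⟨S, hS, rfl⟩ := mem_image.mp hn
    rw [mem_Icc]
    exact ⟨Nat.pos_of_ne_zero (prod_ne_zero' (hSp S hS)), (hSN S hS).trans hM⟩
  refine le_trans ?_ (sum_le_sum_of_subset_of_nonneg hsub fun n _ _ => by positivity)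
  rw [sum_image hinj]
  refine sum_le_sum fun S hS => ?_
  have h3 := hS
  unfold FF at h3
  rw [mem_filter, mem_powerset] at h3
  have h4 := cA_ge ha hb (fun i p hp => (hI i p hp).1) hd h3.1 h3.2 (hSN S hS)
  rw [prod_mul_distrib, prod_const]
  have h5 : ∏ p ∈ S, (p:ℝ) ^ (-(2 * σ)) = ((∏ p ∈ S, p : ℕ) : ℝ) ^ (-(2 * σ)) := by
    push_cast
    rw [Real.finsetProd_rpow _ _ fun p _ => Nat.cast_nonneg p]
  rw [h5]
  refine mul_le_mul_of_nonneg_right ?_ (by positivity)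
  rw [← pow_mul, mul_comm 2, pow_mul]
  exact pow_le_pow_left₀ (by positivity) h4 2

end

end Pool.Agent.W184.NZ
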