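import Pool.Agent.W184.NZ.Size
import Pool.Agent.W184.NZ.Loc

set_option autoImplicit false

/-! Products over disjoint ranges of primes. -/

namespace Pool.Agent.W184.NZ

open Finset Filter MeasureTheory MonoidAlgebra

section
variable {I : ℕ → Finset ℕ} {f : ℕ → DA}

lemma prod_mem (J : ℕ) (hf : ∀ i < J, f i ∈ SA (MI (I i))) :
    ∏ i ∈ range J, f i ∈ SA (MI ((range J).biUnion I)) := by
  refine Subalgebra.prod_mem _ fun i hi => ?_
  exact SA_mono (subset_biUnion_of_mem I hi) (hf i (mem_range.mp hi))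

lemma disj_union (J : ℕ) (hd : ∀ i j, i < j → Disjoint (I i) (I j)) : Disjoint ((range J).biUnion I) (I J) := by
  rw [disjoint_biUnion_left]
  intro i hi
  exact hd i J (mem_range.mp hi)

lemma lam_prod {w : ℕ × ℕ → ℝ} {κ : ℝ} (hw : GoodW w κ) (J : ℕ)
    (hd : ∀ i j, i < j → Disjoint (I i) (I j)) (hf : ∀ i, f i ∈ SA (MI (I i))) :
    lam w (∏ i ∈ range J, f i) = ∏ i ∈ range J, lam w (f i) := by
  induction J with
  | zero => rw [range_zero, prod_empty, prod_empty, lam_one hw]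
  | succ J ih =>
    rw [prod_range_succ, prod_range_succ, hw.mul (disj_union J hd) (prod_mem J fun i _ => hf i) (hf J), ih]

lemma laml_prod (J : ℕ) (hd : ∀ i j, i < j → Disjoint (I i) (I j)) (hf : ∀ i, f i ∈ SA (MI (I i)))
    {C : ℕ → ℝ} (h0 : ∀ i < J, 0 ≤ lam w1 (f i)) (hC : ∀ i < J, |lam wl (f i)| ≤ C i * lam w1 (f i)) :
    |lam wl (∏ i ∈ range J, f i)| ≤ (∑ i ∈ range J, C i) * ∏ i ∈ range J, lam w1 (f i) := by
  induction J with
  | zero =>
    rw [range_zero, prod_empty, sum_empty, zero_mul, MonoidAlgebra.one_def, lam_single]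
    unfold wl
    simp
  | succ J ih =>
    have ih' := ih (fun i hi => h0 i (by omega)) (fun i hi => hC i (by omega))
    have h1 : lam w1 (∏ i ∈ range J, f i) = ∏ i ∈ range J, lam w1 (f i) := lam_prod goodW1 J hd hf
    have h2 : 0 ≤ ∏ i ∈ range J, lam w1 (f i) :=
      prod_nonneg fun i hi => h0 i (by have := mem_range.mp hi; omega)
    rw [prod_range_succ, laml_mul (disj_union J hd) (prod_mem J fun i _ => hf i) (hf J), prod_range_succ,
      sum_range_succ, h1]
    refine (abs_add_le _ _).trans ?_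
    rw [abs_mul, abs_mul, abs_of_nonneg (h0 J (by omega)), abs_of_nonneg h2]
    have e1 := mul_le_mul_of_nonneg_right ih' (h0 J (by omega))
    have e2 := mul_le_mul_of_nonneg_left (hC J (by omega)) h2
    calc _ ≤ (∑ i ∈ range J, C i) * (∏ i ∈ range J, lam w1 (f i)) * lam w1 (f J) +
        (∏ i ∈ range J, lam w1 (f i)) * (C J * lam w1 (f J)) := add_le_add e1 e2
      _ = _ := by ring

lemma Bd_prod (J : ℕ) {N : ℕ → ℝ} (hN : ∀ i < J, 0 ≤ N i) (hf : ∀ i < J, Bd (N i) (f i)) :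
    Bd (∏ i ∈ range J, N i) (∏ i ∈ range J, f i) := by
  induction J with
  | zero => rw [range_zero, prod_empty, prod_empty]; exact Bd.one
  | succ J ih =>
    rw [prod_range_succ, prod_range_succ]
    exact (ih (fun i hi => hN i (by omega)) (fun i hi => hf i (by omega))).mul (hf J (by omega))

lemma l1_prod (J : ℕ) {N : ℕ → ℝ} (hN : ∀ i < J, 0 ≤ N i) (hf : ∀ i < J, l1 (f i) ≤ N i) :
    l1 (∏ i ∈ range J, f i) ≤ ∏ i ∈ range J, N i := by
  induction J with
  | zero => rw [range_zero, prod_empty, prod_empty, l1_one]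
  | succ J ih =>
    rw [prod_range_succ, prod_range_succ]
    refine (l1_mul _ _).trans ?_
    exact mul_le_mul (ih (fun i hi => hN i (by omega)) (fun i hi => hf i (by omega))) (hf J (by omega))
      (l1_nonneg _) (prod_nonneg fun i hi => hN i (by have := mem_range.mp hi; omega))

end

/-- the product over the ranges -/
noncomputable def GP (J : ℕ) (a : ℝ) (R : ℕ → ℕ) (I : ℕ → Finset ℕ) : DA :=
  ∏ i ∈ range J, gE (20 * R i) a (R i) (I i)

/-- its values -/
noncomputable def gp (J : ℕ) (a : ℝ) (R : ℕ → ℕ) (I : ℕ → Finset ℕ) (t : ℝ) : ℝ :=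
  ∏ i ∈ range J, gf (20 * R i) a (R i) (PI (I i) (1 / 2 + t * Complex.I))

lemma ev_GP (t : ℝ) (J : ℕ) (a : ℝ) (R : ℕ → ℕ) {I : ℕ → Finset ℕ} (hI : ∀ i, ∀ p ∈ I i, p.Prime) :
    ev t (GP J a R I) = ((gp J a R I t : ℝ) : ℂ) := by
  unfold GP gp
  rw [map_prod, Complex.ofReal_prod]
  exact prod_congr rfl fun i _ => ev_gE t (hI i) _ _ _

lemma gp_nonneg (J : ℕ) (a : ℝ) (R : ℕ → ℕ) (I : ℕ → Finset ℕ) (t : ℝ) : 0 ≤ gp J a R I t :=
  prod_nonneg fun _ _ => gf_nonneg _ _ _ _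

lemma Cl_mono {K R R' : ℕ} {a : ℝ} (h : Cl K a R) (hR : R' ≤ R) : Cl K a R' := by
  intro z hz
  have h1 : (R':ℝ) ≤ R := by exact_mod_cast hR
  refine (h z (hz.trans h1)).trans ?_
  refine mul_le_mul_of_nonneg_right (Real.exp_le_exp.mpr (by linarith)) (norm_nonneg _)

lemma cl_twenty {R : ℕ} (hR : 1 ≤ R) {a : ℝ} (ha : |a| ≤ 1) : Cl (20 * R) a R := by
  have h := cl_ten (R := 2 * R) (by omega) ha
  rw [show 10 * (2 * R) = 20 * R by ring] at h
  exact Cl_mono h (by omega)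

end Pool.Agent.W184.NZ
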