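import Pool.Agent.H262R4.TM.All2
import Pool.Agent.W184.NZ.Size

set_option autoImplicit false

/-! The twisted second moment of one monomial, and of an element of the algebra. -/

namespace Pool.Agent.W184.NZ

open Finset Filter MeasureTheory MonoidAlgebra
open Pool.Agent.H306R2.SM (om cl Yf)
open Pool.Agent.H262R4.TM (Rng Ck)

/-- the weight `om * |ζ|^2` -/
noncomputable def wz (k : ℕ) (Y t : ℝ) : ℝ := om k (k / Y) t * ‖riemannZeta (cl t)‖ ^ 2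

/-- the twisted moment of a monomial -/
noncomputable def Zm (k : ℕ) (Y : ℝ) (x : ℕ × ℕ) : ℝ :=
  ∫ t in Set.Ioi (0:ℝ), wz k Y t * (mh t x).re

/-- its main term -/
noncomputable def Mn (k : ℕ) (Y : ℝ) (x : ℕ × ℕ) : ℝ := (Real.log (Yf k Y) + Ck k) * w1 x - wl x

lemma Mn_eq {k : ℕ} {Y : ℝ} (hY : 0 < Yf k Y) {h l : ℕ} (hh : h ≠ 0) (hl : l ≠ 0) :
    1 / (Nat.lcm h l : ℝ) * (Real.log (Yf k Y * (Nat.gcd h l : ℝ) ^ 2 / ((h : ℝ) * l)) + Ck k) =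
      Mn k Y (h, l) := by
  have g0 : (0:ℝ) < Nat.gcd h l := by exact_mod_cast Nat.gcd_pos_of_pos_left _ (Nat.pos_of_ne_zero hh)
  have h0 : (0:ℝ) < h := by exact_mod_cast Nat.pos_of_ne_zero hh
  have l0 : (0:ℝ) < l := by exact_mod_cast Nat.pos_of_ne_zero hl
  have e1 : (Nat.lcm h l : ℝ) = (h : ℝ) * l / Nat.gcd h l := by
    have := Nat.gcd_mul_lcm h l
    have h2 : (Nat.gcd h l : ℝ) * Nat.lcm h l = (h:ℝ) * l := by exact_mod_cast this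
    rw [← h2]; field_simp
  have e2 : Yf k Y * (Nat.gcd h l : ℝ) ^ 2 / ((h : ℝ) * l) =
      Yf k Y / ((h : ℝ) * l / (Nat.gcd h l : ℝ) ^ 2) := by field_simp
  rw [e1, e2, Real.log_div hY.ne' (by positivity)]
  unfold Mn wl w1
  simp only [one_div_div]
  ring

lemma Mn_symm (k : ℕ) (Y : ℝ) (m n : ℕ) : Mn k Y (m, n) = Mn k Y (n, m) := by
  unfold Mn wl w1
  simp only
  rw [Nat.gcd_comm m n, mul_comm (m:ℝ) n]

lemma mh_eq (t : ℝ) (m : ℕ) {n : ℕ} (hn : n ≠ 0) :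
    mh t (m, n) = (m : ℂ) ^ (-(cl t)) * starRingEnd ℂ ((n : ℂ) ^ (-(cl t))) := by
  rw [← natCast_cpow_conj n hn]
  have e : (starRingEnd ℂ) (-(cl t)) = -(1 / 2 - (t:ℂ) * Complex.I) := by
    unfold cl
    rw [map_neg, map_add, map_mul, Complex.conj_ofReal, Complex.conj_I, map_div₀, map_one, map_ofNat]
    ring
  rw [e]
  rfl

lemma mh_norm_le {t : ℝ} {x : ℕ × ℕ} (h1 : x.1 ≠ 0) (h2 : x.2 ≠ 0) : ‖mh t x‖ ≤ 1 := by
  obtain ⟨m, n⟩ := x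
  rw [mh_eq t m h2, norm_mul, RCLike.norm_conj, Complex.norm_natCast_cpow_of_pos (Nat.pos_of_ne_zero h1),
    Complex.norm_natCast_cpow_of_pos (Nat.pos_of_ne_zero h2)]
  have e : (-(cl t)).re = -(1 / 2 : ℝ) := by
    unfold cl; simp
  rw [e]
  have a1 : (m:ℝ) ^ (-(1 / 2 : ℝ)) ≤ 1 := Real.rpow_le_one_of_one_le_of_nonpos
    (by exact_mod_cast Nat.pos_of_ne_zero h1) (by norm_num)
  have a2 : (n:ℝ) ^ (-(1 / 2 : ℝ)) ≤ 1 := Real.rpow_le_one_of_one_le_of_nonpos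
    (by exact_mod_cast Nat.pos_of_ne_zero h2) (by norm_num)
  calc _ ≤ (1:ℝ) * 1 := mul_le_mul a1 a2 (by positivity) zero_le_one
    _ = 1 := one_mul 1

lemma mh_cont {x : ℕ × ℕ} (h1 : x.1 ≠ 0) (h2 : x.2 ≠ 0) : Continuous fun t => mh t x := by
  obtain ⟨m, n⟩ := x
  have e : (fun t => mh t (m, n)) = fun t : ℝ => (m : ℂ) ^ (-(1 / 2 + t * Complex.I)) *
      (n : ℂ) ^ (-(1 / 2 - t * Complex.I)) := rfl
  rw [e]
  have m0 : (m:ℂ) ≠ 0 := by exact_mod_cast h1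
  have n0 : (n:ℂ) ≠ 0 := by exact_mod_cast h2
  refine Continuous.mul ?_ ?_
  · exact Continuous.const_cpow (by fun_prop) (Or.inl m0)
  · exact Continuous.const_cpow (by fun_prop) (Or.inl n0)

lemma wz_int (k : ℕ) {Y : ℝ} (hY : 0 < (k:ℝ) / Y) {f : ℝ → ℝ} {C : ℝ} (hf : Continuous f)
    (hC : ∀ t, |f t| ≤ C) : IntegrableOn (fun t => wz k Y t * f t) (Set.Ioi 0) := by
  have h1 := Pool.Agent.H262R4.TM.TTW.int2 k hY
  refine Integrable.mul_bdd (c := C) h1 hf.aestronglyMeasurable ?_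
  exact Eventually.of_forall fun t => by rw [Real.norm_eq_abs]; exact hC t

lemma wz_nonneg (k : ℕ) {Y t : ℝ} (hY : 0 < Y) (ht : 0 ≤ t) : 0 ≤ wz k Y t := by
  unfold wz om
  positivity

theorem mono_moment : ∃ η : ℝ, 0 < η ∧ ∀ᶠ Y : ℝ in atTop, ∀ k : ℕ, Rng Y k → ∀ x : ℕ × ℕ,
    x.1 ≠ 0 → x.2 ≠ 0 → (x.1 : ℝ) ≤ Y ^ ((1:ℝ) / 4) → (x.2 : ℝ) ≤ Y ^ ((1:ℝ) / 4) →
    |Zm k Y x - Mn k Y x| ≤ 2 * Y ^ (-η) := by
  obtain ⟨η, hη, h⟩ := Pool.Agent.H262R4.TM.f_TSM2 (1 / 4) (by norm_num)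
  refine ⟨η, hη, ?_⟩
  filter_upwards [h, eventually_gt_atTop (3:ℝ), Real.tendsto_log_atTop.eventually_gt_atTop 1]
    with Y hY hY3 hL k hk x hx1 hx2 hx3 hx4
  obtain ⟨m, n⟩ := x
  simp only at hx1 hx2 hx3 hx4
  have hk0 : (0:ℝ) < k := by
    have := hk.1
    nlinarith
  have hY0 : 0 < Y := by linarith
  have hδ : 0 < (k:ℝ) / Y := by positivity
  have hYf : 0 < Yf k Y := by unfold Yf; positivity
  set N := max m n with hN
  have hN1 : (N:ℝ) ≤ Y ^ ((1:ℝ) / 4) := by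
    rw [hN]; push_cast; exact max_le hx3 hx4
  have hm : m ∈ Icc 1 N := by
    rw [mem_Icc]; exact ⟨Nat.pos_of_ne_zero hx1, le_max_left _ _⟩
  have hn : n ∈ Icc 1 N := by
    rw [mem_Icc]; exact ⟨Nat.pos_of_ne_zero hx2, le_max_right _ _⟩
  have key : ∀ (ε : ℂ) (F : ℕ → ℂ), ∑ j ∈ Icc 1 N,
      ((if j = m then (1:ℂ) / 2 else 0) + (if j = n then ε / 2 else 0)) * F j = (F m + ε * F n) / 2 := by
    intro ε F
    have e1 : ∀ j ∈ Icc 1 N, ((if j = m then (1:ℂ) / 2 else 0) + (if j = n then ε / 2 else 0)) * F j =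
        (if j = m then (1:ℂ) / 2 * F j else 0) + (if j = n then ε / 2 * F j else 0) := by
      intro j _
      rw [add_mul, ite_mul, ite_mul, zero_mul]
    rw [sum_congr rfl e1, sum_add_distrib, sum_ite_eq', sum_ite_eq', if_pos hm, if_pos hn]
    ring
  have hcoef : ∀ (ε : ℂ), ‖ε‖ = 1 → ∀ j : ℕ,
      ‖(if j = m then (1:ℂ) / 2 else 0) + (if j = n then ε / 2 else 0)‖ ≤ 1 := by
    intro ε hε j
    refine (norm_add_le _ _).trans ?_
    have a1 : ‖(if j = m then (1:ℂ) / 2 else 0)‖ ≤ 1 / 2 := by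
      split_ifs <;> norm_num
    have a2 : ‖(if j = n then ε / 2 else 0)‖ ≤ 1 / 2 := by
      split_ifs
      · rw [norm_div, hε]; norm_num
      · norm_num
    linarith
  have hmain : ∀ (ε : ℂ), ‖ε‖ = 1 → (starRingEnd ℂ) ε = ε →
      ‖((∫ t in Set.Ioi (0 : ℝ), wz k Y t *
        ‖((m : ℂ) ^ (-(cl t)) + ε * (n : ℂ) ^ (-(cl t))) / 2‖ ^ 2 : ℝ) : ℂ) -
        (((Mn k Y (m, m) : ℂ) + ε * Mn k Y (m, n)) / 2 +
          ε * (((Mn k Y (n, m) : ℂ) + ε * Mn k Y (n, n)) / 2)) / 2‖ ≤ Y ^ (-η) := by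
    intro ε hε hε2
    have h1 := hY k hk N hN1 (fun j => (if j = m then (1:ℂ) / 2 else 0) + (if j = n then ε / 2 else 0))
      (hcoef ε hε)
    have e1 : ∀ t : ℝ, om k (k / Y) t * ‖riemannZeta (cl t)‖ ^ 2 * ‖∑ j ∈ Icc 1 N,
        ((if j = m then (1:ℂ) / 2 else 0) + (if j = n then ε / 2 else 0)) * (j : ℂ) ^ (-(cl t))‖ ^ 2 =
        wz k Y t * ‖((m : ℂ) ^ (-(cl t)) + ε * (n : ℂ) ^ (-(cl t))) / 2‖ ^ 2 := by
      intro t
      rw [key ε (fun j => (j:ℂ) ^ (-(cl t)))]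
      rfl
    simp_rw [e1] at h1
    have e2 : ∀ l : ℕ, (starRingEnd ℂ) ((if l = m then (1:ℂ) / 2 else 0) + (if l = n then ε / 2 else 0)) =
        (if l = m then (1:ℂ) / 2 else 0) + (if l = n then ε / 2 else 0) := by
      intro l
      rw [map_add, apply_ite (starRingEnd ℂ), apply_ite (starRingEnd ℂ), map_zero, map_div₀, map_div₀,
        map_one, map_ofNat, hε2]
    have e3 : ∀ h ∈ Icc 1 N, ∀ l ∈ Icc 1 N, ((1 / (Nat.lcm h l : ℝ) *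
        (Real.log (Yf k Y * (Nat.gcd h l : ℝ) ^ 2 / ((h : ℝ) * l)) + Ck k) : ℝ) : ℂ) =
        (Mn k Y (h, l) : ℂ) := by
      intro h hh l hl
      rw [mem_Icc] at hh hl
      rw [Mn_eq hYf (by omega) (by omega)]
    have e4 : ∑ h ∈ Icc 1 N, ∑ l ∈ Icc 1 N,
        ((if h = m then (1:ℂ) / 2 else 0) + (if h = n then ε / 2 else 0)) *
        (starRingEnd ℂ) ((if l = m then (1:ℂ) / 2 else 0) + (if l = n then ε / 2 else 0)) *
        ((1 / (Nat.lcm h l : ℝ) *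
          (Real.log (Yf k Y * (Nat.gcd h l : ℝ) ^ 2 / ((h : ℝ) * l)) + Ck k) : ℝ) : ℂ) =
        (((Mn k Y (m, m) : ℂ) + ε * Mn k Y (m, n)) / 2 +
          ε * (((Mn k Y (n, m) : ℂ) + ε * Mn k Y (n, n)) / 2)) / 2 := by
      have e5 : ∀ h ∈ Icc 1 N, ∑ l ∈ Icc 1 N,
        ((if h = m then (1:ℂ) / 2 else 0) + (if h = n then ε / 2 else 0)) *
        (starRingEnd ℂ) ((if l = m then (1:ℂ) / 2 else 0) + (if l = n then ε / 2 else 0)) *
        ((1 / (Nat.lcm h l : ℝ) *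
          (Real.log (Yf k Y * (Nat.gcd h l : ℝ) ^ 2 / ((h : ℝ) * l)) + Ck k) : ℝ) : ℂ) =
        ((if h = m then (1:ℂ) / 2 else 0) + (if h = n then ε / 2 else 0)) *
          (((Mn k Y (h, m) : ℂ) + ε * Mn k Y (h, n)) / 2) := by
        intro h hh
        rw [← key ε (fun l => (Mn k Y (h, l) : ℂ)), mul_sum]
        refine sum_congr rfl fun l hl => ?_
        rw [e2, e3 h hh l hl]; ring
      rw [sum_congr rfl e5, key ε (fun h => (((Mn k Y (h, m) : ℂ) + ε * Mn k Y (h, n)) / 2))]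
    rw [e4] at h1
    exact h1
  have hp := hmain 1 (by simp) (by simp)
  have hq := hmain (-1) (by simp) (by simp)
  have hcl : Continuous cl := by unfold cl; fun_prop
  have hcm : Continuous fun t : ℝ => (m : ℂ) ^ (-(cl t)) :=
    Continuous.const_cpow (by fun_prop) (Or.inl (by exact_mod_cast hx1))
  have hcn : Continuous fun t : ℝ => (n : ℂ) ^ (-(cl t)) :=
    Continuous.const_cpow (by fun_prop) (Or.inl (by exact_mod_cast hx2))
  have hnm : ∀ (j : ℕ), j ≠ 0 → ∀ t : ℝ, ‖(j : ℂ) ^ (-(cl t))‖ ≤ 1 := by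
    intro j hj t
    rw [Complex.norm_natCast_cpow_of_pos (Nat.pos_of_ne_zero hj)]
    refine Real.rpow_le_one_of_one_le_of_nonpos (by exact_mod_cast Nat.pos_of_ne_zero hj) ?_
    unfold cl; simp
  have hi : ∀ ε : ℂ, ‖ε‖ = 1 → IntegrableOn (fun t => wz k Y t *
      ‖((m : ℂ) ^ (-(cl t)) + ε * (n : ℂ) ^ (-(cl t))) / 2‖ ^ 2) (Set.Ioi 0) := by
    intro ε hε
    refine wz_int k hδ (C := 1) (by fun_prop) fun t => ?_
    rw [abs_of_nonneg (by positivity)]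
    refine pow_le_one₀ (norm_nonneg _) ?_
    rw [norm_div]
    have a1 := norm_add_le ((m : ℂ) ^ (-(cl t))) (ε * (n : ℂ) ^ (-(cl t)))
    rw [norm_mul, hε, one_mul] at a1
    have a2 := hnm m hx1 t
    have a3 := hnm n hx2 t
    rw [div_le_one (by simp)]
    norm_num
    linarith
  have hZ : Zm k Y (m, n) = (∫ t in Set.Ioi (0 : ℝ), wz k Y t *
        ‖((m : ℂ) ^ (-(cl t)) + 1 * (n : ℂ) ^ (-(cl t))) / 2‖ ^ 2) - ∫ t in Set.Ioi (0 : ℝ), wz k Y t *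
        ‖((m : ℂ) ^ (-(cl t)) + (-1) * (n : ℂ) ^ (-(cl t))) / 2‖ ^ 2 := by
    rw [← integral_sub (hi 1 (by simp)) (hi (-1) (by simp))]
    unfold Zm
    refine setIntegral_congr_fun measurableSet_Ioi fun t _ => ?_
    rw [← mul_sub, mh_eq t m hx2]
    congr 1
    rw [Complex.sq_norm, Complex.sq_norm, Complex.normSq_apply, Complex.normSq_apply]
    simp
    ring
  have e6 : ((Zm k Y (m, n) - Mn k Y (m, n) : ℝ) : ℂ) =
      (((∫ t in Set.Ioi (0 : ℝ), wz k Y t *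
        ‖((m : ℂ) ^ (-(cl t)) + 1 * (n : ℂ) ^ (-(cl t))) / 2‖ ^ 2 : ℝ) : ℂ) -
        (((Mn k Y (m, m) : ℂ) + 1 * Mn k Y (m, n)) / 2 +
          1 * (((Mn k Y (n, m) : ℂ) + 1 * Mn k Y (n, n)) / 2)) / 2) -
      (((∫ t in Set.Ioi (0 : ℝ), wz k Y t *
        ‖((m : ℂ) ^ (-(cl t)) + (-1) * (n : ℂ) ^ (-(cl t))) / 2‖ ^ 2 : ℝ) : ℂ) -
        (((Mn k Y (m, m) : ℂ) + (-1) * Mn k Y (m, n)) / 2 +
          (-1) * (((Mn k Y (n, m) : ℂ) + (-1) * Mn k Y (n, n)) / 2)) / 2) := by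
    rw [hZ, Mn_symm k Y n m]
    push_cast
    ring
  rw [← Real.norm_eq_abs, ← Complex.norm_real, e6]
  refine (norm_sub_le _ _).trans ?_
  linarith

end Pool.Agent.W184.NZ
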