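import Pool.Agent.W184.NZ.Low7

set_option autoImplicit false

/-! Two-sided asymptotics near the exponent `0`. -/

namespace Pool.Agent.W184.NZ

open Finset Filter MeasureTheory Topology
open Pool.Agent.W184 (zn zn_nonneg zn_cont zn_le')

lemma exp_half {κ x : ℝ} (hκ1 : κ ≤ 1) (hx : 0 ≤ x) (hxκ : x ≤ κ / 2) : Real.exp x ≤ 1 + κ := by
  have d6 := Real.exp_bound' (x := x) hx (by linarith) (n := 1) (by norm_num)
  norm_num at d6
  linarith

lemma small_mom {T α a₁ κ : ℝ} (hT : 0 < T) (hα : 0 < α) (hα1 : α < a₁) (hκ : 0 < κ) (hκ1 : κ ≤ 1 / 20)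
    (h1 : (1 - κ) * T ≤ ∫ t in (0:ℝ)..T, zn (1 / 2) t ^ (2 * a₁))
    (h2 : ∫ t in (0:ℝ)..T, zn (1 / 2) t ^ (2 * (2 * a₁)) ≤ (1 + 3 * κ) * T) :
    (1 - 9 * κ) * T ≤ ∫ t in (0:ℝ)..T, zn (1 / 2) t ^ (2 * α) := by
  have ha1 : 0 < a₁ := by linarith
  set p : ℝ := (2 * a₁ - α) / a₁ with hp
  have hp1 : 1 < p := by rw [hp, lt_div_iff₀ ha1]; linarith
  have hp2 : p ≤ 3 := by rw [hp, div_le_iff₀ ha1]; linarith
  set q : ℝ := p / (p - 1) with hq
  have hpq : p.HolderConjugate q := by rw [hq]; exact Real.HolderConjugate.conjExponent hp1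
  have hp0 : 0 < p := by linarith
  have hq0 : 0 < q := by rw [hq]; exact div_pos (by linarith) (by linarith)
  have hzc := zn_cont (σ := 1 / 2) (by norm_num)
  have e1 : 0 ≤ 2 * α / p := by positivity
  have e2 : 0 ≤ 4 * a₁ / q := by positivity
  have hH := holder_use (f := fun t => zn (1 / 2) t ^ (2 * α / p)) (g := fun t => zn (1 / 2) t ^ (4 * a₁ / q))
    (hzc.rpow_const fun _ => Or.inr e1) (hzc.rpow_const fun _ => Or.inr e2)
    (fun t => Real.rpow_nonneg (zn_nonneg _ _) _) (fun t => Real.rpow_nonneg (zn_nonneg _ _) _) hT.le hpq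
  have hsum : 2 * α / p + 4 * a₁ / q = 2 * a₁ := by
    have e3 : p - 1 = (a₁ - α) / a₁ := by rw [hp]; field_simp; ring
    have e4 : 0 < 2 * a₁ - α := by linarith
    have e5 : 0 < a₁ - α := by linarith
    have e6 : q = (2 * a₁ - α) / (a₁ - α) := by
      rw [hq, e3, hp]; field_simp
    rw [e6, hp]
    field_simp
    ring
  have hfg : ∀ t : ℝ, zn (1 / 2) t ^ (2 * α / p) * zn (1 / 2) t ^ (4 * a₁ / q) = zn (1 / 2) t ^ (2 * a₁) := by
    intro t
    rw [← Real.rpow_add_of_nonneg (zn_nonneg _ _) e1 e2, hsum]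
  have hf : ∀ t : ℝ, (zn (1 / 2) t ^ (2 * α / p)) ^ p = zn (1 / 2) t ^ (2 * α) := by
    intro t
    rw [← Real.rpow_mul (zn_nonneg _ _), div_mul_cancel₀ _ hp0.ne']
  have hg : ∀ t : ℝ, (zn (1 / 2) t ^ (4 * a₁ / q)) ^ q = zn (1 / 2) t ^ (2 * (2 * a₁)) := by
    intro t
    rw [← Real.rpow_mul (zn_nonneg _ _), div_mul_cancel₀ _ hq0.ne']
    congr 1; ring
  simp_rw [hfg, hf, hg] at hH
  have hP0 : 0 ≤ ∫ t in (0:ℝ)..T, zn (1 / 2) t ^ (2 * α) :=
    intervalIntegral.integral_nonneg hT.le fun t _ => Real.rpow_nonneg (zn_nonneg _ _) _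
  have hG0 : 0 ≤ ∫ t in (0:ℝ)..T, zn (1 / 2) t ^ (2 * (2 * a₁)) :=
    intervalIntegral.integral_nonneg hT.le fun t _ => Real.rpow_nonneg (zn_nonneg _ _) _
  have := alg2 hT hP0 hG0 (s := κ) (r := 3 * κ) hκ.le (by linarith) (by linarith) hp0 hp2 hpq h1 h2 hH
  linarith

/-- two-sided asymptotics near `0` -/
theorem nz_two {ε : ℝ} (hε : 0 < ε) : ∃ α₀ : ℝ, 0 < α₀ ∧ α₀ ≤ 1 / 3000 ∧ ∀ᶠ T : ℝ in atTop, ∀ α : ℝ, 0 < α →
    α ≤ α₀ → |(∫ t in (0:ℝ)..T, zn (1 / 2) t ^ (2 * α)) - T * Real.log T ^ (α ^ 2)| ≤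
      ε * (T * Real.log T ^ (α ^ 2)) := by
  set κ : ℝ := min ε 1 / 20 with hκd
  have hκ : 0 < κ := by rw [hκd]; have := lt_min hε one_pos; linarith
  have hκ1 : κ ≤ 1 / 20 := by rw [hκd]; have := min_le_right ε 1; linarith
  have hκε : 20 * κ ≤ ε := by rw [hκd]; have := min_le_left ε 1; linarith
  obtain ⟨αu, hu0, hu1, hu⟩ := upper_nz hκ
  obtain ⟨αl, hl0, hl1, hl⟩ := low_nz hκ
  set α₀ := min αu αl with hα₀
  have hα00 : 0 < α₀ := lt_min hu0 hl0
  have hα0u : α₀ ≤ αu := min_le_left _ _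
  have hα0l : α₀ ≤ αl := min_le_right _ _
  set τ : ℝ := √κ / 3 with hτ
  have hτ0 : 0 < τ := by positivity
  have hτ2 : τ ^ 2 = κ / 9 := by rw [hτ, div_pow, Real.sq_sqrt hκ.le]; norm_num
  refine ⟨α₀, hα00, hα0l.trans hl1, ?_⟩
  have hlogt := Real.tendsto_log_atTop
  have hsq : Tendsto (fun T : ℝ => √(Real.log (Real.log T))) atTop atTop :=
    Real.tendsto_sqrt_atTop.comp (hlogt.comp hlogt)
  filter_upwards [hu, hl τ hτ0, hsq.eventually_ge_atTop (2 * τ / α₀), hlogt.eventually_ge_atTop 10,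
    eventually_gt_atTop 0] with T h1 h2 h3 h4 hT α hα hαα
  have hL0 : 0 < Real.log T := by linarith
  have hLL0 : 0 < Real.log (Real.log T) := Real.log_pos (by linarith)
  have hs : 0 < √(Real.log (Real.log T)) := Real.sqrt_pos.mpr hLL0
  have hM0 : 0 < T * Real.log T ^ (α ^ 2) := by positivity
  have hup := h1 α hα (hαα.trans hα0u)
  rw [abs_le]
  have c6 := mul_le_mul_of_nonneg_right (show κ ≤ ε by linarith) hM0.le
  refine ⟨?_, by linarith⟩
  rcases le_or_gt (τ / √(Real.log (Real.log T))) α with h5 | h5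
  · have := h2 α h5 (hαα.trans hα0l)
    linarith
  · set a₁ : ℝ := τ / √(Real.log (Real.log T)) with ha₁
    have ha10 : 0 < a₁ := by positivity
    have ha2 : 2 * a₁ ≤ α₀ := by
      rw [ha₁]
      rw [div_le_iff₀ hα00] at h3
      rw [mul_div_assoc', div_le_iff₀ hs]
      linarith
    have hLp : ∀ x : ℝ, Real.log T ^ x = Real.exp (x * Real.log (Real.log T)) := by
      intro x
      rw [Real.rpow_def_of_pos hL0, mul_comm]
    have ha1sq : a₁ ^ 2 * Real.log (Real.log T) = τ ^ 2 := by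
      rw [ha₁, div_pow, Real.sq_sqrt hLL0.le]; field_simp
    have b1 := h2 a₁ le_rfl (by linarith)
    have b2 := h1 (2 * a₁) (by linarith) (by linarith)
    have e1 : 1 ≤ Real.log T ^ (a₁ ^ 2) := Real.one_le_rpow (by linarith) (sq_nonneg _)
    have e2 : Real.log T ^ ((2 * a₁) ^ 2) ≤ 1 + κ := by
      rw [hLp]
      have : (2 * a₁) ^ 2 * Real.log (Real.log T) = 4 * (κ / 9) := by
        rw [mul_pow, mul_assoc, ha1sq, hτ2]; norm_num
      rw [this]
      exact exp_half (by linarith) (by linarith) (by linarith)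
    have e3 : Real.log T ^ (α ^ 2) ≤ 1 + κ := by
      rw [hLp]
      have : α ^ 2 * Real.log (Real.log T) ≤ κ / 9 := by
        rw [← hτ2, ← ha1sq]
        have : α ^ 2 ≤ a₁ ^ 2 := pow_le_pow_left₀ hα.le h5.le 2
        exact mul_le_mul_of_nonneg_right this hLL0.le
      exact exp_half (by linarith) (by positivity) (by linarith)
    have c1 : (1 - κ) * T ≤ ∫ t in (0:ℝ)..T, zn (1 / 2) t ^ (2 * a₁) := by
      refine le_trans ?_ b1
      refine mul_le_mul_of_nonneg_left ?_ (by linarith)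
      exact le_mul_of_one_le_right hT.le e1
    have c2 : ∫ t in (0:ℝ)..T, zn (1 / 2) t ^ (2 * (2 * a₁)) ≤ (1 + 3 * κ) * T := by
      refine b2.trans ?_
      calc (1 + κ) * (T * Real.log T ^ ((2 * a₁) ^ 2)) ≤ (1 + κ) * (T * (1 + κ)) := by gcongr
        _ = ((1 + κ) * (1 + κ)) * T := by ring
        _ ≤ _ := by
          refine mul_le_mul_of_nonneg_right ?_ hT.le
          nlinarith
    have c3 := small_mom hT hα h5 hκ hκ1 c1 c2
    have c4 : (1 - 20 * κ) * (T * Real.log T ^ (α ^ 2)) ≤ (1 - 9 * κ) * T := by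
      calc (1 - 20 * κ) * (T * Real.log T ^ (α ^ 2)) ≤ (1 - 20 * κ) * (T * (1 + κ)) := by
            refine mul_le_mul_of_nonneg_left ?_ (by linarith)
            gcongr
        _ = ((1 - 20 * κ) * (1 + κ)) * T := by ring
        _ ≤ _ := by
          refine mul_le_mul_of_nonneg_right ?_ hT.le
          nlinarith
    have c5 := mul_le_mul_of_nonneg_right hκε hM0.le
    linarith

lemma shiftA (x : ℝ) {κ : ℝ} (hκ : 0 < κ) : ∀ᶠ T : ℝ in atTop, ∀ α : ℝ, 0 < α → α ≤ 1 / 16 →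
    |(∫ t in x..(T + x), zn (1 / 2) t ^ (2 * α)) - ∫ t in (0:ℝ)..T, zn (1 / 2) t ^ (2 * α)| ≤ κ * T := by
  have a1 : Tendsto (fun T : ℝ => T ^ (-(7:ℝ)/8)) atTop (𝓝 0) := by
    have := tendsto_rpow_neg_atTop (y := 7 / 8) (by norm_num)
    refine this.congr fun T => ?_
    congr 1; norm_num
  filter_upwards [a1.eventually (gt_mem_nhds (show (0:ℝ) < κ / (72 * (|x| + 1)) by positivity)),
    eventually_ge_atTop 1, eventually_ge_atTop |x|] with T h1 h2 h3 α hα hα1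
  have hT0 : 0 < T := by linarith
  have hc : Continuous fun t => zn (1 / 2) t ^ (2 * α) :=
    (zn_cont (σ := 1 / 2) (by norm_num)).rpow_const fun _ => Or.inr (by positivity)
  have h4 := intervalIntegral.integral_add_adjacent_intervals (hc.intervalIntegrable 0 x)
    (hc.intervalIntegrable x (T + x)) (μ := volume)
  have h5 := intervalIntegral.integral_add_adjacent_intervals (hc.intervalIntegrable 0 T)
    (hc.intervalIntegrable T (T + x)) (μ := volume)
  have hx := abs_le.mp h3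
  have hb : ∀ y : ℝ, |y| ≤ 2 * T → ‖zn (1 / 2) y ^ (2 * α)‖ ≤ 36 * T ^ ((1:ℝ)/8) := by
    intro y hy
    rw [Real.norm_of_nonneg (Real.rpow_nonneg (zn_nonneg _ _) _)]
    have hz := zn_le' (σ := 1 / 2) (t := y) (by norm_num) (by norm_num)
    have hz2 : zn (1 / 2) y ≤ 36 * T := by linarith
    calc zn (1 / 2) y ^ (2 * α) ≤ (36 * T) ^ (2 * α) :=
          Real.rpow_le_rpow (zn_nonneg _ _) hz2 (by positivity)
      _ ≤ (36 * T) ^ ((1:ℝ)/8) := Real.rpow_le_rpow_of_exponent_le (by linarith) (by linarith)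
      _ = 36 ^ ((1:ℝ)/8) * T ^ ((1:ℝ)/8) := Real.mul_rpow (by norm_num) hT0.le
      _ ≤ 36 ^ (1:ℝ) * T ^ ((1:ℝ)/8) := by
          refine mul_le_mul_of_nonneg_right ?_ (by positivity)
          exact Real.rpow_le_rpow_of_exponent_le (by norm_num) (by norm_num)
      _ = _ := by rw [Real.rpow_one]
  have h6 : |∫ t in (0:ℝ)..x, zn (1 / 2) t ^ (2 * α)| ≤ 36 * T ^ ((1:ℝ)/8) * |x| := by
    have := intervalIntegral.norm_integral_le_of_norm_le_const (a := (0:ℝ)) (b := x)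
      (C := 36 * T ^ ((1:ℝ)/8)) (f := fun t => zn (1 / 2) t ^ (2 * α)) (fun y hy => hb y (by
        rcases Set.mem_uIoc.mp hy with h | h
        · rw [abs_le]; constructor <;> linarith [h.1, h.2]
        · rw [abs_le]; constructor <;> linarith [h.1, h.2]))
    rwa [Real.norm_eq_abs, sub_zero] at this
  have h7 : |∫ t in T..(T + x), zn (1 / 2) t ^ (2 * α)| ≤ 36 * T ^ ((1:ℝ)/8) * |x| := by
    have := intervalIntegral.norm_integral_le_of_norm_le_const (a := T) (b := T + x)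
      (C := 36 * T ^ ((1:ℝ)/8)) (f := fun t => zn (1 / 2) t ^ (2 * α)) (fun y hy => hb y (by
        rcases Set.mem_uIoc.mp hy with h | h
        · rw [abs_le]; constructor <;> linarith [h.1, h.2]
        · rw [abs_le]; constructor <;> linarith [h.1, h.2]))
    rwa [Real.norm_eq_abs, show T + x - T = x by ring] at this
  have h8 : 72 * T ^ ((1:ℝ)/8) * |x| ≤ κ * T := by
    have e1 : T ^ ((1:ℝ)/8) = T ^ (-(7:ℝ)/8) * T := by
      nth_rewrite 3 [← Real.rpow_one T]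
      rw [← Real.rpow_add hT0]; norm_num
    calc 72 * T ^ ((1:ℝ)/8) * |x| = 72 * |x| * (T ^ (-(7:ℝ)/8) * T) := by rw [e1]; ring
      _ ≤ 72 * (|x| + 1) * (T ^ (-(7:ℝ)/8) * T) := by gcongr; linarith
      _ ≤ 72 * (|x| + 1) * (κ / (72 * (|x| + 1)) * T) := by gcongr
      _ = κ * T := by field_simp
  rw [abs_le] at h6 h7 ⊢
  constructor <;> linarith [h6.1, h6.2, h7.1, h7.2]

end Pool.Agent.W184.NZ
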