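import Pool.Agent.W184.NZ.Win
import Pool.Agent.W184.NZ.Ranges

set_option autoImplicit false

/-! Sizes, the two main averages and the pointwise inequality. -/

namespace Pool.Agent.W184.NZ

open Finset Filter MeasureTheory
open Pool.Agent.H306R2.SM (om cl Yf)
open Pool.Agent.H262R4.TM (Rng Ck)

/-- the radii -/
def RR (Rs : ℕ) (i : ℕ) : ℕ := 2 * (Rs + i)

lemma RR_ge (Rs i : ℕ) : Rs + i ≤ RR Rs i := by unfold RR; omega

lemma geo_sum (Rs J : ℕ) : ∑ i ∈ range J, ((Rs:ℝ) + i) * (1 / 4) ^ i ≤ 2 * ((Rs:ℝ) + 1) := by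
  have h1 : ∀ i ∈ range J, ((Rs:ℝ) + i) * (1 / 4) ^ i ≤ ((Rs:ℝ) + 1) * (1 / 2) ^ i := by
    intro i _
    have h2 : ((i:ℝ) + 1) ≤ 2 ^ i := by
      have := Nat.lt_two_pow_self (n := i)
      exact_mod_cast this
    have h3 : ((1:ℝ) / 4) ^ i = (1 / 2) ^ i * (1 / 2) ^ i := by rw [← mul_pow]; norm_num
    have h4 : ((i:ℝ) + 1) * (1 / 2) ^ i ≤ 1 := by
      calc ((i:ℝ) + 1) * (1 / 2) ^ i ≤ 2 ^ i * (1 / 2) ^ i := by gcongr
        _ = 1 := by rw [← mul_pow]; norm_num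
    have h5 : ((Rs:ℝ) + i) ≤ (Rs + 1) * (i + 1) := by
      have a1 : (0:ℝ) ≤ Rs := Nat.cast_nonneg _
      have a2 : (0:ℝ) ≤ i := Nat.cast_nonneg _
      nlinarith
    have h6 : (0:ℝ) ≤ (1 / 2) ^ i := by positivity
    rw [h3]
    calc ((Rs:ℝ) + i) * ((1 / 2) ^ i * (1 / 2) ^ i) ≤ (Rs + 1) * (i + 1) * ((1 / 2) ^ i * (1 / 2) ^ i) := by gcongr
      _ = (((i:ℝ) + 1) * (1 / 2) ^ i) * ((Rs + 1) * (1 / 2) ^ i) := by ring
      _ ≤ 1 * ((Rs + 1) * (1 / 2) ^ i) := by gcongr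
      _ = _ := one_mul _
  refine (sum_le_sum h1).trans ?_
  rw [← mul_sum, mul_comm]
  refine mul_le_mul_of_nonneg_right ?_ (by positivity)
  have h4 := (summable_geometric_two).sum_le_tsum (range J) (fun i _ => by positivity)
  rw [tsum_geometric_two] at h4
  exact h4

lemma len {y : ℝ} (hy : 1 ≤ y) (Rs J m : ℕ) :
    ∏ i ∈ range J, (bb y i) ^ (m * (Rs + i)) ≤ Real.exp (Real.log y * (2 * m * ((Rs:ℝ) + 1))) := by
  have h1 : ∀ i ∈ range J, (bb y i) ^ (m * (Rs + i)) =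
      Real.exp (Real.log y * m * (((Rs:ℝ) + i) * (1 / 4) ^ i)) := by
    intro i _
    unfold bb
    rw [← Real.exp_nat_mul]
    congr 1
    push_cast
    ring
  rw [prod_congr rfl h1, ← Real.exp_sum, ← mul_sum]
  refine Real.exp_le_exp.mpr ?_
  have h2 := geo_sum Rs J
  have h3 := Real.log_nonneg hy
  calc Real.log y * m * ∑ i ∈ range J, ((Rs:ℝ) + i) * (1 / 4) ^ i ≤ Real.log y * m * (2 * ((Rs:ℝ) + 1)) :=
        mul_le_mul_of_nonneg_left h2 (by positivity)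
    _ = _ := by ring

section
variable {c y : ℝ} {J Rs : ℕ}

lemma GP_Bd (hy : 1 ≤ y) (h : Rg c J (II y) (bb y)) (a : ℝ) :
    Bd (Real.exp (Real.log y * (160 * ((Rs:ℝ) + 1)))) (GP J a (RR Rs) (II y)) := by
  have h1 : Bd (∏ i ∈ range J, (bb y i) ^ (80 * (Rs + i))) (GP J a (RR Rs) (II y)) := by
    unfold GP
    refine Bd_prod J (fun i _ => (pow_pos (bb_pos y i) _).le) fun i hi => ?_
    have h2 := gE_Bd (b := bb y i) (by have := h.b10 i hi; linarith)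
      (fun p hp => ⟨(h.pr i p hp).1, (h.pr i p hp).2.2⟩) (K := 20 * RR Rs i) (R := RR Rs i)
      (M := 20 * RR Rs i) le_rfl (by omega) a
    rwa [show 2 * (20 * RR Rs i) = 80 * (Rs + i) by unfold RR; ring] at h2
  refine h1.mono ((len hy Rs J 80).trans (le_of_eq ?_))
  norm_num

lemma GP_l1 (hy : 1 ≤ y) (h : Rg c J (II y) (bb y)) (hRs : 1 ≤ Rs) {a : ℝ} (ha : |a| ≤ 1) :
    l1 (GP J a (RR Rs) (II y)) ≤ Real.exp (Real.log y * (240 * ((Rs:ℝ) + 1))) := by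
  have h1 : l1 (GP J a (RR Rs) (II y)) ≤ ∏ i ∈ range J, (bb y i) ^ (120 * (Rs + i)) := by
    unfold GP
    refine l1_prod J (fun i _ => (pow_pos (bb_pos y i) _).le) fun i hi => ?_
    have h2 := gE_l1 (b := bb y i) (by have := h.b10 i hi; linarith)
      (fun p hp => ⟨(h.pr i p hp).1, (h.pr i p hp).2.2⟩) (K := 20 * RR Rs i) (R := RR Rs i)
      (M := 20 * RR Rs i) le_rfl (by omega) (by unfold RR; omega) ha
    rwa [show 3 * (20 * RR Rs i) = 120 * (Rs + i) by unfold RR; ring] at h2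
  refine h1.trans ((len hy Rs J 120).trans (le_of_eq ?_))
  norm_num

lemma GP_log' (hc : 0 ≤ c) (hy : 1 ≤ y) (h : Rg c J (II y) (bb y)) (hRs : Rok c Rs) {a : ℝ} (ha : |a| ≤ 1) :
    |lam wl (GP J a (RR Rs) (II y))| ≤ (320 * ((Rs:ℝ) + 1) * Cl2 c * Real.log y) *
      lam w1 (GP J a (RR Rs) (II y)) := by
  refine (GP_log hc h hRs (RR_ge Rs) ha).trans ?_
  refine mul_le_mul_of_nonneg_right ?_ (GP_nonneg goodW1 h hRs (RR_ge Rs) ha)
  have h1 : ∀ i ∈ range J, 80 * (RR Rs i : ℝ) * Real.log (bb y i) * Cl2 c =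
      160 * Cl2 c * Real.log y * (((Rs:ℝ) + i) * (1 / 4) ^ i) := by
    intro i _
    rw [log_bb]
    unfold RR
    push_cast
    ring
  rw [sum_congr rfl h1, ← mul_sum]
  have h2 := geo_sum Rs J
  have h3 := Real.log_nonneg hy
  have h4 := Cl2_pos c
  calc _ ≤ 160 * Cl2 c * Real.log y * (2 * ((Rs:ℝ) + 1)) := mul_le_mul_of_nonneg_left h2 (by positivity)
    _ = _ := by ring

/-- the first average -/
lemma F_avg (hy : 1 ≤ y) (h : Rg c J (II y) (bb y)) (hRs : Rok c Rs) {a : ℝ} (ha : |a| ≤ 1) {T : ℝ} (hT : 0 ≤ T) :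
    ∫ t in (0:ℝ)..T, gp J a (RR Rs) (II y) t ≤
      T * Real.exp (a ^ 2 * (∑ i ∈ range J, vI (II y i)) + 12 * a ^ 2 * c + 2 * Bc c * Real.exp (-(Rs:ℝ))) +
      2 * Real.exp (Real.log y * (400 * ((Rs:ℝ) + 1))) := by
  have hB := GP_Bd (Rs := Rs) hy h a
  have h1 := avg0 hB T
  have hP : ∀ i, ∀ p ∈ II y i, p.Prime := fun i p hp => (h.pr i p hp).1
  have e1 : ∀ t, (ev t (GP J a (RR Rs) (II y))).re = gp J a (RR Rs) (II y) t := by
    intro t; rw [ev_GP t J a _ hP, Complex.ofReal_re]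
  simp_rw [e1] at h1
  have h2 := GP_up goodW0 h hRs (RR_ge Rs) ha
  have h3 := GP_l1 hy h hRs.1 ha
  rw [show (2 * 0 * a + a ^ 2) = a ^ 2 by ring] at h2
  have h4 : 2 * Real.exp (Real.log y * (160 * ((Rs:ℝ) + 1))) * l1 (GP J a (RR Rs) (II y)) ≤
      2 * Real.exp (Real.log y * (400 * ((Rs:ℝ) + 1))) := by
    calc _ ≤ 2 * Real.exp (Real.log y * (160 * ((Rs:ℝ) + 1))) * Real.exp (Real.log y * (240 * ((Rs:ℝ) + 1))) := by
          gcongr
      _ = _ := by rw [mul_assoc, ← Real.exp_add]; congr 2; ring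
  have h5 := (abs_le.mp h1).2
  have h6 := mul_le_mul_of_nonneg_left h2 hT
  linarith

/-- the smooth second average -/
lemma G_avg (hc : 0 ≤ c) (hy : 1 ≤ y) (h : Rg c J (II y) (bb y)) (hRs : Rok c Rs) {a : ℝ} (ha : |a| ≤ 1)
    {k : ℕ} {Y e : ℝ} (hY : 0 < Y) (hk : 1 ≤ k) (he : 0 ≤ e)
    (hm : ∀ x : ℕ × ℕ, x.1 ≠ 0 → x.2 ≠ 0 → (x.1 : ℝ) ≤ Real.exp (Real.log y * (160 * ((Rs:ℝ) + 1))) →
      (x.2 : ℝ) ≤ Real.exp (Real.log y * (160 * ((Rs:ℝ) + 1))) → |Zm k Y x - Mn k Y x| ≤ e) :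
    ∫ t in Set.Ioi (0:ℝ), wz k Y t * gp J a (RR Rs) (II y) t ≤
      (|Real.log (Yf k Y) + Ck k| + 320 * ((Rs:ℝ) + 1) * Cl2 c * Real.log y) *
        Real.exp ((2 * a + a ^ 2) * (∑ i ∈ range J, vI (II y i)) + 12 * c + 2 * Bc c) +
      e * Real.exp (Real.log y * (240 * ((Rs:ℝ) + 1))) := by
  have hB := GP_Bd (Rs := Rs) hy h a
  have h1 := avg1 hY hk hm hB
  have hP : ∀ i, ∀ p ∈ II y i, p.Prime := fun i p hp => (h.pr i p hp).1
  have e1 : ∀ t, (ev t (GP J a (RR Rs) (II y))).re = gp J a (RR Rs) (II y) t := by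
    intro t; rw [ev_GP t J a _ hP, Complex.ofReal_re]
  simp_rw [e1] at h1
  have h2 := GP_up goodW1 h hRs (RR_ge Rs) ha
  have h3 := GP_l1 hy h hRs.1 ha
  have h4 := GP_log' hc hy h hRs ha
  have h0 := GP_nonneg goodW1 h hRs (RR_ge Rs) ha
  have hB0 := Bc_pos c
  obtain ⟨ha1, ha2⟩ := abs_le.mp ha
  have h5 : Real.exp ((2 * 1 * a + a ^ 2) * (∑ i ∈ range J, vI (II y i)) + 12 * a ^ 2 * c +
      2 * Bc c * Real.exp (-(Rs:ℝ))) ≤
      Real.exp ((2 * a + a ^ 2) * (∑ i ∈ range J, vI (II y i)) + 12 * c + 2 * Bc c) := by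
    refine Real.exp_le_exp.mpr ?_
    have x1 : Real.exp (-(Rs:ℝ)) ≤ 1 := Real.exp_le_one_iff.mpr (by simp)
    have a2 : a ^ 2 ≤ 1 := by nlinarith
    have e3 : 12 * a ^ 2 * c ≤ 12 * 1 * c := by gcongr
    have e4 : 2 * Bc c * Real.exp (-(Rs:ℝ)) ≤ 2 * Bc c * 1 := by gcongr
    rw [show (2 * 1 * a + a ^ 2) = (2 * a + a ^ 2) by ring]
    linarith
  have h6 := h2.trans h5
  have h7 : e * l1 (GP J a (RR Rs) (II y)) ≤ e * Real.exp (Real.log y * (240 * ((Rs:ℝ) + 1))) :=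
    mul_le_mul_of_nonneg_left h3 he
  have h8 : (Real.log (Yf k Y) + Ck k) * lam w1 (GP J a (RR Rs) (II y)) ≤
      |Real.log (Yf k Y) + Ck k| * lam w1 (GP J a (RR Rs) (II y)) :=
    mul_le_mul_of_nonneg_right (le_abs_self _) h0
  have h9 : - lam wl (GP J a (RR Rs) (II y)) ≤ (320 * ((Rs:ℝ) + 1) * Cl2 c * Real.log y) *
      lam w1 (GP J a (RR Rs) (II y)) := (neg_le_abs _).trans h4
  have hl := Real.log_nonneg hy
  have hC := Cl2_pos c
  have h10 : (|Real.log (Yf k Y) + Ck k| + 320 * ((Rs:ℝ) + 1) * Cl2 c * Real.log y) *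
      lam w1 (GP J a (RR Rs) (II y)) ≤
      (|Real.log (Yf k Y) + Ck k| + 320 * ((Rs:ℝ) + 1) * Cl2 c * Real.log y) *
        Real.exp ((2 * a + a ^ 2) * (∑ i ∈ range J, vI (II y i)) + 12 * c + 2 * Bc c) :=
    mul_le_mul_of_nonneg_left h6 (by positivity)
  rw [add_mul] at h10
  linarith

end

lemma prod_star {J Rs : ℕ} {α : ℝ} (hα : 0 < α) (hα1 : α < 1) (hRs : 1 ≤ Rs) (I : ℕ → Finset ℕ) (t X : ℝ)
    (hX : 0 ≤ X) :
    Real.exp (-(8 * Real.exp (-(Rs:ℝ)))) * X ^ (2 * α) ≤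
      α * (X ^ 2 * gp J (-(1 - α)) (RR Rs) I t) + (1 - α) * gp J α (RR Rs) I t := by
  have h1 : ∀ i ∈ range J, (1 - Real.exp (-(RR Rs i:ℝ))) ^ 2 ≤
      gf (20 * RR Rs i) (-(1 - α)) (RR Rs i) (PI (I i) (1 / 2 + t * Complex.I)) ^ α *
      gf (20 * RR Rs i) α (RR Rs i) (PI (I i) (1 / 2 + t * Complex.I)) ^ (1 - α) := by
    intro i _
    have hR : 1 ≤ RR Rs i := by unfold RR; omega
    refine star hα.le hα1.le hR (cl_twenty hR ?_) (cl_twenty hR ?_) _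
    · rw [abs_of_pos hα]; exact hα1.le
    · rw [abs_neg, abs_of_pos (by linarith)]; linarith
  have h2 : ∏ i ∈ range J, (1 - Real.exp (-(RR Rs i:ℝ))) ^ 2 ≤
      gp J (-(1 - α)) (RR Rs) I t ^ α * gp J α (RR Rs) I t ^ (1 - α) := by
    refine (prod_le_prod (fun i _ => sq_nonneg _) h1).trans (le_of_eq ?_)
    rw [prod_mul_distrib]
    unfold gp
    rw [Real.finsetProd_rpow _ _ (fun i _ => gf_nonneg _ _ _ _),
      Real.finsetProd_rpow _ _ (fun i _ => gf_nonneg _ _ _ _)]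
  have h3 : Real.exp (-(8 * Real.exp (-(Rs:ℝ)))) ≤ ∏ i ∈ range J, (1 - Real.exp (-(RR Rs i:ℝ))) ^ 2 := by
    have e1 : ∀ i ∈ range J, Real.exp (-(4 * Real.exp (-(RR Rs i:ℝ)))) ≤ (1 - Real.exp (-(RR Rs i:ℝ))) ^ 2 := by
      intro i _
      set x := Real.exp (-(RR Rs i:ℝ)) with hx
      have hx0 : 0 < x := Real.exp_pos _
      have hR : (1:ℝ) ≤ RR Rs i := by
        have : 1 ≤ RR Rs i := by unfold RR; omega
        exact_mod_cast this
      have hx1 : x ≤ 1 / 2 := by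
        have : x ≤ Real.exp (-1) := Real.exp_le_exp.mpr (by linarith)
        have h2 := Real.exp_neg_one_lt_d9
        linarith
      have h4 : Real.exp (-(2 * x)) ≤ 1 - x := by
        have h5 := Real.add_one_le_exp (2 * x)
        rw [Real.exp_neg, inv_le_comm₀ (Real.exp_pos _) (by linarith)]
        refine le_trans ?_ h5
        rw [inv_eq_one_div, div_le_iff₀ (by linarith)]
        nlinarith
      calc Real.exp (-(4 * x)) = Real.exp (-(2 * x)) ^ 2 := by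
            rw [← Real.exp_nat_mul]; congr 1; push_cast; ring
        _ ≤ (1 - x) ^ 2 := pow_le_pow_left₀ (Real.exp_pos _).le h4 2
    refine le_trans ?_ (prod_le_prod (fun i _ => (Real.exp_pos _).le) e1)
    rw [← Real.exp_sum]
    refine Real.exp_le_exp.mpr ?_
    rw [sum_neg_distrib, ← mul_sum]
    have := sum_exp_le J Rs (RR_ge Rs)
    linarith
  have hg1 := gp_nonneg J (-(1 - α)) (RR Rs) I t
  have hg2 := gp_nonneg J α (RR Rs) I t
  have h4 := Real.geom_mean_le_arith_mean2_weighted hα.le (by linarith : 0 ≤ 1 - α)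
    (mul_nonneg (sq_nonneg X) hg1) hg2 (by ring)
  refine le_trans ?_ h4
  rw [Real.mul_rpow (sq_nonneg X) hg1]
  have e2 : (X ^ 2) ^ α = X ^ (2 * α) := by
    rw [← Real.rpow_natCast, ← Real.rpow_mul hX]; norm_num
  rw [e2, mul_comm]
  calc X ^ (2 * α) * Real.exp (-(8 * Real.exp (-(Rs:ℝ)))) ≤ X ^ (2 * α) *
      (gp J (-(1 - α)) (RR Rs) I t ^ α * gp J α (RR Rs) I t ^ (1 - α)) :=
        mul_le_mul_of_nonneg_left (h3.trans h2) (by positivity)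
    _ = _ := by ring

end Pool.Agent.W184.NZ
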