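import Pool.Agent.W184.NZ.Avg0

set_option autoImplicit false

/-! From the smooth averages to the sharp window. -/

namespace Pool.Agent.W184.NZ

open Finset Filter MeasureTheory
open Pool.Agent.H306R2.SM (om cl Yf)
open Pool.Agent.H262R4.TM (Rng Ck)
open Pool.Agent.H965R2.SMT1 (Ph Ph_nonneg Ph_le_one Ph_chernoff Ph_hasDeriv W_hasDeriv om_nonneg)

lemma Ph_ge (k : ℕ) {u : ℝ} (hu : 0 ≤ u) : 1 - u ^ (k + 1) / ((k + 1).factorial : ℝ) ≤ Ph (k + 1) u := by
  have hd : ∀ x : ℝ, HasDerivAt (fun y => Ph (k + 1) y + y ^ (k + 1) / ((k + 1).factorial : ℝ))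
      (-(Real.exp (-x) * x ^ k / (k.factorial : ℝ)) + ((k + 1 : ℕ) : ℝ) * x ^ k / ((k + 1).factorial : ℝ)) x := by
    intro x
    refine (Ph_hasDeriv k x).add ?_
    have := (hasDerivAt_pow (k + 1) x).div_const ((k + 1).factorial : ℝ)
    simpa using this
  have hm : MonotoneOn (fun y => Ph (k + 1) y + y ^ (k + 1) / ((k + 1).factorial : ℝ)) (Set.Ici 0) := by
    refine monotoneOn_of_deriv_nonneg (convex_Ici 0) (fun x _ => (hd x).continuousAt.continuousWithinAt)
      (fun x _ => (hd x).differentiableAt.differentiableWithinAt) fun x hx => ?_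
    rw [interior_Ici] at hx
    have hx0 : (0:ℝ) < x := hx
    rw [(hd x).deriv]
    have e1 : ((k + 1 : ℕ) : ℝ) * x ^ k / ((k + 1).factorial : ℝ) = x ^ k / (k.factorial : ℝ) := by
      rw [Nat.factorial_succ]
      push_cast
      have : ((k:ℝ) + 1) ≠ 0 := by positivity
      field_simp
    rw [e1]
    have e2 : Real.exp (-x) ≤ 1 := Real.exp_le_one_iff.mpr (by linarith)
    have e3 : Real.exp (-x) * x ^ k / (k.factorial : ℝ) ≤ x ^ k / (k.factorial : ℝ) := by
      refine div_le_div_of_nonneg_right ?_ (by positivity)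
      exact mul_le_of_le_one_left (by positivity) e2
    linarith
  have h0 := hm (Set.mem_Ici.mpr le_rfl) (Set.mem_Ici.mpr hu) hu
  simp only at h0
  have h1 : Ph (k + 1) 0 = 1 := by
    unfold Ph
    rw [Finset.sum_eq_single 0]
    · simp
    · intro j _ hj; simp [hj]
    · intro h; simp at h
  rw [h1, zero_pow (by omega), zero_div, add_zero] at h0
  linarith

lemma Ph_small {k : ℕ} (hk : 8 ≤ k) {u : ℝ} (hu : 0 ≤ u) (hu2 : u ≤ k / 8) : 3 / 4 ≤ Ph k u := by
  obtain ⟨m, rfl⟩ : ∃ m, k = m + 1 := ⟨k - 1, by omega⟩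
  refine le_trans ?_ (Ph_ge m hu)
  have h1 : u ^ (m + 1) / ((m + 1).factorial : ℝ) ≤ (1 / 2) ^ (m + 1) := by
    have h2 := Real.pow_div_factorial_le_exp (((m + 1 : ℕ) : ℝ)) (by positivity) (m + 1)
    calc u ^ (m + 1) / ((m + 1).factorial : ℝ) ≤ (((m + 1 : ℕ) : ℝ) / 8) ^ (m + 1) / ((m + 1).factorial : ℝ) := by
          gcongr
      _ = (1 / 8) ^ (m + 1) * ((((m + 1 : ℕ) : ℝ)) ^ (m + 1) / ((m + 1).factorial : ℝ)) := by
          rw [div_pow, one_div_pow]; ring
      _ ≤ (1 / 8) ^ (m + 1) * Real.exp ((m + 1 : ℕ) : ℝ) := by gcongr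
      _ = (Real.exp 1 / 8) ^ (m + 1) := by
          rw [← Real.exp_one_pow, ← mul_pow]; congr 1; ring
      _ ≤ (1 / 2) ^ (m + 1) := by
          refine pow_le_pow_left₀ (by positivity) ?_ _
          have := Real.exp_one_lt_d9
          linarith
  have h3 : ((1:ℝ) / 2) ^ (m + 1) ≤ (1 / 2) ^ 2 := pow_le_pow_of_le_one (by norm_num) (by norm_num) (by omega)
  norm_num at h3 ⊢
  linarith

lemma Ph_big {k : ℕ} (hk : 8 ≤ k) {v : ℝ} (hv : 2 ≤ v) : Ph k (k * v) ≤ 1 / 4 := by
  refine (Ph_chernoff k (by linarith)).trans ?_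
  have h1 : v * Real.exp (1 - v) ≤ 3 / 4 := by
    have h2 : v ≤ 2 * Real.exp (v - 2) := by
      have := Real.add_one_le_exp (v - 2)
      linarith
    have h3 : Real.exp (-1) ≤ 3 / 8 := by
      have := Real.exp_neg_one_lt_d9
      linarith
    calc v * Real.exp (1 - v) ≤ 2 * Real.exp (v - 2) * Real.exp (1 - v) :=
          mul_le_mul_of_nonneg_right h2 (Real.exp_pos _).le
      _ = 2 * Real.exp (-1) := by rw [mul_assoc, ← Real.exp_add]; congr 2; ring
      _ ≤ 3 / 4 := by linarith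
  have h0 : 0 ≤ v * Real.exp (1 - v) := by positivity
  calc (v * Real.exp (1 - v)) ^ k ≤ (3 / 4) ^ k := pow_le_pow_left₀ h0 h1 k
    _ ≤ (3 / 4) ^ 8 := pow_le_pow_of_le_one (by norm_num) (by norm_num) hk
    _ ≤ 1 / 4 := by norm_num

lemma om_int {k : ℕ} (hk : 1 ≤ k) {t a b : ℝ} (ht : 0 < t) (ha : 0 < a) (hab : a ≤ b) :
    ∫⁻ x in Set.Ioc a b, ENNReal.ofReal (om k (k / x) t) =
      ENNReal.ofReal (Ph k (k * t / b) - Ph k (k * t / a)) := by
  have hcont : ContinuousOn (fun x : ℝ => om k (k / x) t) (Set.uIcc a b) := by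
    rw [Set.uIcc_of_le hab]
    unfold om
    have h1 : ContinuousOn (fun x : ℝ => (k : ℝ) / x) (Set.Icc a b) :=
      continuousOn_const.div continuousOn_id fun x hx => (ha.trans_le hx.1).ne'
    exact (((h1.pow _).mul continuousOn_const).mul
      ((h1.mul continuousOn_const).neg.rexp)).div_const _
  have hint : IntervalIntegrable (fun x : ℝ => om k (k / x) t) volume a b :=
    hcont.intervalIntegrable
  have h1 : ∫ x in a..b, om k (k / x) t = Ph k (k * t / b) - Ph k (k * t / a) := by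
    apply intervalIntegral.integral_eq_sub_of_hasDerivAt (f := fun y => Ph k (k * t / y)) _ hint
    intro x hx
    rw [Set.uIcc_of_le hab] at hx
    exact W_hasDeriv hk ht (ha.trans_le hx.1)
  rw [intervalIntegral.integral_of_le hab] at h1
  rw [← ofReal_integral_eq_lintegral_ofReal
    ((intervalIntegrable_iff_integrableOn_Ioc_of_le hab).1 hint), h1]
  filter_upwards [ae_restrict_mem measurableSet_Ioc] with x hx
  have hx0 : 0 < x := ha.trans hx.1
  exact om_nonneg (by positivity) ht.le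

theorem win {g : ℝ → ℝ} (hg : Continuous g) (hg0 : ∀ t, 0 ≤ g t) {C : ℝ} (hgC : ∀ t, |g t| ≤ C)
    {k : ℕ} (hk : 8 ≤ k) {A T S : ℝ} (hA : 0 < A) (hAT : A ≤ T) (hS0 : 0 ≤ S)
    (hS : ∀ x ∈ Set.Ioc (A / 2) (8 * T), ∫ t in Set.Ioi (0:ℝ), wz k x t * g t ≤ S) :
    ∫ t in A..T, ‖riemannZeta (cl t)‖ ^ 2 * g t ≤ 16 * T * S := by
  have hT : 0 < T := hA.trans_le hAT
  set f : ℝ → ℝ := fun t => ‖riemannZeta (cl t)‖ ^ 2 * g t with hf
  have hzc : Continuous fun t : ℝ => riemannZeta (cl t) := by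
    rw [continuous_iff_continuousAt]
    intro t
    have h1 : cl t ≠ 1 := by
      intro h
      have := congrArg Complex.re h
      simp [cl] at this
    exact ContinuousAt.comp (g := riemannZeta) (f := cl) (differentiableAt_riemannZeta h1).continuousAt
      (by unfold cl; fun_prop)
  have hfc : Continuous f := (hzc.norm.pow 2).mul hg
  have hf0 : ∀ t, 0 ≤ f t := fun t => mul_nonneg (by positivity) (hg0 t)
  have hmeas : Measurable (Function.uncurry fun (x t : ℝ) =>
      ENNReal.ofReal (om k (k / x) t * f t)) := by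
    unfold om Function.uncurry
    have := hfc.measurable
    fun_prop
  -- lower bound
  have h1 : ENNReal.ofReal (1 / 2 * ∫ t in A..T, f t) ≤
      ∫⁻ t in Set.Ioi (0 : ℝ), ∫⁻ x in Set.Ioc (A / 2) (8 * T), ENNReal.ofReal (om k (k / x) t * f t) := by
    have e1 : ENNReal.ofReal (1 / 2 * ∫ t in A..T, f t) =
        ∫⁻ t in Set.Ioc A T, ENNReal.ofReal (1 / 2 * f t) := by
      rw [← intervalIntegral.integral_const_mul, intervalIntegral.integral_of_le hAT,
        ofReal_integral_eq_lintegral_ofReal]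
      · exact ((continuous_const.mul hfc).intervalIntegrable A T).1
      · exact Eventually.of_forall fun t => mul_nonneg (by norm_num) (hf0 t)
    rw [e1]
    have hsub : Set.Ioc A T ⊆ Set.Ioi (0:ℝ) := fun t ht => hA.trans ht.1
    refine le_trans ?_ (lintegral_mono_set hsub)
    apply setLIntegral_mono' measurableSet_Ioc
    intro t ht
    have ht0 : 0 < t := hA.trans ht.1
    have h2 : ∀ x, ENNReal.ofReal (om k (k / x) t * f t) =
        ENNReal.ofReal (f t) * ENNReal.ofReal (om k (k / x) t) := by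
      intro x
      rw [mul_comm, ENNReal.ofReal_mul (hf0 t)]
    simp_rw [h2]
    rw [lintegral_const_mul' _ _ ENNReal.ofReal_ne_top, om_int (by omega) ht0 (by positivity) (by linarith),
      mul_comm (1 / 2) (f t), ENNReal.ofReal_mul (hf0 t)]
    gcongr
    have hk0 : (0:ℝ) < k := by exact_mod_cast (by omega : 0 < k)
    have a1 : 3 / 4 ≤ Ph k (k * t / (8 * T)) := by
      refine Ph_small hk (by positivity) ?_
      rw [div_le_div_iff₀ (by positivity) (by norm_num)]
      have := mul_le_mul_of_nonneg_left ht.2 hk0.le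
      nlinarith
    have a2 : Ph k (k * t / (A / 2)) ≤ 1 / 4 := by
      have e3 : (k:ℝ) * t / (A / 2) = k * (2 * (t / A)) := by field_simp
      rw [e3]
      refine Ph_big hk ?_
      have : 1 ≤ t / A := by rw [le_div_iff₀ hA]; linarith [ht.1]
      linarith
    linarith
  rw [← lintegral_lintegral_swap hmeas.aemeasurable] at h1
  have h3 : ∫⁻ x in Set.Ioc (A / 2) (8 * T), ∫⁻ t in Set.Ioi (0 : ℝ),
      ENNReal.ofReal (om k (k / x) t * f t) ≤ ENNReal.ofReal (8 * T * S) := by
    have e2 : ∫⁻ _ in Set.Ioc (A / 2) (8 * T), ENNReal.ofReal S ≤ ENNReal.ofReal (8 * T * S) := by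
      rw [setLIntegral_const, Real.volume_Ioc, ← ENNReal.ofReal_mul hS0]
      refine ENNReal.ofReal_le_ofReal ?_
      nlinarith
    refine le_trans ?_ e2
    apply setLIntegral_mono' measurableSet_Ioc
    intro x hx
    have hx0 : 0 < x := by have := hx.1; linarith
    have hk0 : (0:ℝ) < (k:ℝ) / x := by
      have : (0:ℝ) < k := by exact_mod_cast (by omega : 0 < k)
      positivity
    have hi := wz_int k hk0 hg hgC
    have e4 : ∀ t, om k (k / x) t * f t = wz k x t * g t := by
      intro t; simp only [hf, wz]; ring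
    simp_rw [e4]
    rw [← ofReal_integral_eq_lintegral_ofReal hi]
    · exact ENNReal.ofReal_le_ofReal (hS x hx)
    · filter_upwards [ae_restrict_mem measurableSet_Ioi] with t ht
      exact mul_nonneg (wz_nonneg k hx0 (le_of_lt ht)) (hg0 t)
  have h4 := h1.trans h3
  rw [ENNReal.ofReal_le_ofReal_iff (by positivity)] at h4
  linarith

end Pool.Agent.W184.NZ
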